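import Pool.Agent.Q60.NP.Geo

/-!
# Products of automorphisms of cohomology algebras
-/

open CategoryTheory AlgebraicGeometry TensorProduct

set_option linter.unusedSectionVars false

universe u v w

namespace Pool.Agent.Q60.NP

open Module Matrix
open Pool.Agent.H914 Pool.Agent.H914.VarClass Pool.Agent.H914.VarClass.Obj
  Pool.Agent.H914.WeilCohomology
open Pool.Agent.Y133.Half

variable {k : Type u} [Field k] {𝒱 : VarClass k} {ops : CycleOps 𝒱}
  {W : WeilCohomology.{u, v} ops} {X Y Z : 𝒱.Obj}

lemma mem_PH_of_par {b : ℕ} {x : W.H Y}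
    (h : par (W.isInternal Y) x = (-1 : W.K) ^ b • x) : x ∈ PH W Y b := by
  have h1 : ∀ v : W.H Y, v + (-1 : W.K) ^ b • par (W.isInternal Y) v ∈ PH W Y b := by
    intro v
    have h2 : v ∈ ⨆ i, W.gr Y i := by
      rw [(W.isInternal Y).submodule_iSup_eq_top]
      trivial
    refine Submodule.iSup_induction _
      (motive := fun v => v + (-1 : W.K) ^ b • par (W.isInternal Y) v ∈ PH W Y b) h2 ?_ ?_ ?_
    · intro i v hv
      rw [PH.par (PH.of hv)]
      rcases Nat.mod_two_eq_zero_or_one (b + i) with h3 | h3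
      · exact Submodule.add_mem _ (PH.of' (by omega) hv)
          (Submodule.smul_mem _ _ (Submodule.smul_mem _ _ (PH.of' (by omega) hv)))
      · rw [smul_smul, ← pow_add, (Nat.odd_iff.2 h3).neg_one_pow, neg_smul, one_smul,
          add_neg_cancel]
        exact Submodule.zero_mem _
    · rw [map_zero, smul_zero, add_zero]
      exact Submodule.zero_mem _
    · intro x y hx hy
      rw [map_add, smul_add, add_add_add_comm]
      exact Submodule.add_mem _ hx hy
  have h2 := h1 x
  rw [h, smul_smul, ← mul_pow, neg_mul_neg, one_mul, one_pow, one_smul, ← two_smul W.K] at h2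
  have h3 := Submodule.smul_mem _ (2 : W.K)⁻¹ h2
  rwa [smul_smul, inv_mul_cancel₀ two_ne_zero, one_smul] at h3

/-- The product of two automorphisms which preserve the parity. -/
theorem exists_prodAut {α : W.H Y ≃ₐ[W.K] W.H Y} {β : W.H Z ≃ₐ[W.K] W.H Z}
    (hα : Ev W α.toLinearMap) (hβ : Ev W β.toLinearMap) :
    ∃ γ : W.H (Y.prod Z) ≃ₐ[W.K] W.H (Y.prod Z), Ev W γ.toLinearMap ∧
      ∀ x y, γ (W.map (fst Y Z) x * W.map (snd Y Z) y) =
        W.map (fst Y Z) (α x) * W.map (snd Y Z) (β y) := by
  let κ : W.H Y ⊗[W.K] W.H Z ≃ₗ[W.K] W.H (Y.prod Z) :=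
    LinearEquiv.ofBijective (kunnethMap (W.map (fst Y Z)) (W.map (snd Y Z))) (W.kunneth Y Z)
  have hκ : ∀ x y, κ (x ⊗ₜ y) = W.map (fst Y Z) x * W.map (snd Y Z) y := fun x y => rfl
  let γ : W.H (Y.prod Z) ≃ₗ[W.K] W.H (Y.prod Z) :=
    κ.symm.trans ((TensorProduct.congr α.toLinearEquiv β.toLinearEquiv).trans κ)
  have hγ : ∀ x y, γ (W.map (fst Y Z) x * W.map (snd Y Z) y) =
      W.map (fst Y Z) (α x) * W.map (snd Y Z) (β y) := by
    intro x y
    change κ (TensorProduct.congr α.toLinearEquiv β.toLinearEquiv (κ.symm _)) = _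
    rw [← hκ, LinearEquiv.symm_apply_apply, TensorProduct.congr_tmul, hκ]
    rfl
  have hone : γ 1 = 1 := by
    have h1 := hγ 1 1
    simp only [map_one, mul_one] at h1
    exact h1
  have hmul : ∀ u v, γ (u * v) = γ u * γ v := by
    intro u v
    refine W.kunneth_induction (p := fun u => γ (u * v) = γ u * γ v) ?_ ?_ u
    · intro a b ha hb
      rw [add_mul, map_add, ha, hb, map_add, add_mul]
    · intro i j x hx y hy
      refine W.kunneth_induction (p := fun v => γ (W.map (fst Y Z) x * W.map (snd Y Z) y * v) =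
        γ (W.map (fst Y Z) x * W.map (snd Y Z) y) * γ v) ?_ ?_ v
      · intro a b ha hb
        rw [mul_add, map_add, ha, hb, map_add, mul_add]
      · intro i' j' x' hx' y' hy'
        have key : ∀ (p : W.H (Y.prod Z)) (q r s : W.H (Y.prod Z)) (m n : ℕ),
            q ∈ PH W (Y.prod Z) m → r ∈ PH W (Y.prod Z) n →
            p * q * (r * s) = (-1 : W.K) ^ (m * n) • (p * r * (q * s)) := by
          intro p q r s m n hq hr
          have h1 := PH.comm hq hr
          calc p * q * (r * s) = p * (q * r) * s := by simp only [mul_assoc]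
            _ = _ := by
              rw [h1, mul_smul_comm, smul_mul_assoc]
              simp only [mul_assoc]
        have hβy : β y ∈ PH W Z j := hβ _ _ (PH.of hy)
        have hαx : α x' ∈ PH W Y i' := hα _ _ (PH.of hx')
        rw [key _ _ _ _ j i' (PH.map _ (PH.of hy)) (PH.map _ (PH.of hx')), ← map_mul, ← map_mul,
          map_smul, hγ, hγ, hγ, key _ _ _ _ j i' (PH.map _ hβy)
          (PH.map _ hαx), map_mul, map_mul, map_mul, map_mul]
  refine ⟨AlgEquiv.ofLinearEquiv γ hone hmul, ?_, hγ⟩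
  intro b u hu
  change γ u ∈ _
  -- the parity operator commutes with the automorphism
  have h1 : ∀ u, γ (par (W.isInternal (Y.prod Z)) u) = par (W.isInternal (Y.prod Z)) (γ u) := by
    intro u
    refine W.kunneth_induction (p := fun u => γ (par (W.isInternal (Y.prod Z)) u) =
      par (W.isInternal (Y.prod Z)) (γ u)) ?_ ?_ u
    · intro a b ha hb
      rw [map_add, map_add, ha, hb, map_add, map_add]
    · intro i j x hx y hy
      have h2 : W.map (fst Y Z) x * W.map (snd Y Z) y ∈ PH W (Y.prod Z) (i + j) :=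
        PH.mul (PH.map _ (PH.of hx)) (PH.map _ (PH.of hy))
      have hβy : β y ∈ PH W Z j := hβ _ _ (PH.of hy)
      have hαx : α x ∈ PH W Y i := hα _ _ (PH.of hx)
      rw [PH.par h2, map_smul, hγ]
      exact (PH.par (PH.mul (PH.map _ hαx) (PH.map _ hβy))).symm
  have h3 : par (W.isInternal (Y.prod Z)) (γ u) = (-1 : W.K) ^ b • γ u := by
    rw [← h1, PH.par hu, map_smul]
  exact mem_PH_of_par h3

end Pool.Agent.Q60.NP
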