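import Pool.Agent.Q60.NP.PAut
import Pool.Agent.W552.Defs
import Pool.Agent.H914R2.PDesc

/-!
# Classes fixed by the automorphisms which fix the classes of cycles of low degree
-/

open CategoryTheory AlgebraicGeometry TensorProduct

set_option linter.unusedSectionVars false

universe u v w

namespace Pool.Agent.Q60.NP

open Module Matrix
open Pool.Agent.H914 Pool.Agent.H914.VarClass Pool.Agent.H914.VarClass.Obj
  Pool.Agent.H914.WeilCohomology
open Pool.Agent.Y133.Half Pool.Agent.Q60.ED Pool.Agent.Q60.TD Pool.Agent.H281R3.HT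
  Pool.Agent.H447 Pool.Agent.W536.RR Pool.Agent.Q55
open Pool.Agent.Q60.HD (wd wd_zero wd_succ wd_map wd_prj)

variable {k : Type u} [Field k] {𝒱 : VarClass k} {ops : CycleOps 𝒱}

section General

variable {W : WeilCohomology.{u, v} ops} {X Y Z : 𝒱.Obj}

/-- The automorphisms commute with the pull-backs along coordinate morphisms. -/
lemma act_map (A : PowAut W X) {m n : ℕ} {f : pw X m ⟶ pw X n} (hf : IsCoordinate f)
    (c : W.H (pw X n)) : A.act m (W.map f c) = W.map f (A.act n c) := by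
  classical
  obtain ⟨σ, hσ⟩ := hf
  obtain ⟨e, -⟩ := exists_hbasis W X
  have h1 : (A.act m : W.H (pw X m) →ₐ[W.K] W.H (pw X m)).toLinearMap ∘ₗ (W.map f).toLinearMap =
      (W.map f).toLinearMap ∘ₗ (A.act n : W.H (pw X n) →ₐ[W.K] W.H (pw X n)).toLinearMap := by
    refine (wb e n).ext fun w => ?_
    change A.act m (W.map f (wb e n w)) = W.map f (A.act n (wb e n w))
    rw [wb_eq, map_list_prod, map_list_prod, map_list_prod, map_list_prod]
    simp only [List.map_ofFn]
    congr 2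
    funext i
    simp only [Function.comp_apply]
    rw [← W.map_comp, hσ]
    refine (A.prj m (σ i) (e (w i))).trans ?_
    refine Eq.trans ?_ (congrArg (W.map f) (A.prj n i (e (w i)))).symm
    exact ((W.map_comp f (prj X n i) (A.act 0 (e (w i)))).symm.trans (by rw [hσ]; rfl)).symm
  exact LinearMap.congr_fun h1 c

/-- The automorphisms commute with the push-forwards along coordinate morphisms. -/
lemma act_push (A : PowAut W X) {m n : ℕ} {f : pw X m ⟶ pw X n} (hf : IsCoordinate f)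
    (c : W.H (pw X m)) : A.act n (W.push f c) = W.push f (A.act m c) := by
  rw [← sub_eq_zero]
  apply W.nondeg
  intro d
  obtain ⟨d, rfl⟩ := (A.act n).surjective d
  have h1 : ∀ n c, W.tr (pw X n) (A.act n c) = W.tr (pw X n) c := A.tr
  rw [sub_mul, map_sub, ← map_mul, h1, W.tr_push, W.tr_push, ← act_map A hf, ← map_mul,
    h1, sub_self]

/-- The projections to smaller powers. -/
lemma exists_coord {m n : ℕ} (h : m ≤ n) : ∃ (s : pw X m ⟶ pw X n) (p : pw X n ⟶ pw X m),
    IsCoordinate s ∧ IsCoordinate p ∧ s ≫ p = 𝟙 (pw X m) := by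
  refine ⟨liftN X n fun i => prj X m ⟨min i m, by omega⟩,
    liftN X m fun i => prj X n ⟨i, by omega⟩, ⟨_, liftN_prj n _⟩, ⟨_, liftN_prj m _⟩, ?_⟩
  apply hom_ext_prj
  intro i
  rw [Category.assoc, liftN_prj, liftN_prj, Category.id_comp]
  congr 1
  ext
  change min (i : ℕ) m = i
  have := i.2
  omega

lemma FixesCycles.mono {A : PowAut W X} {m n : ℕ} (h : m ≤ n) (hA : A.FixesCycles n) :
    A.FixesCycles m := by
  obtain ⟨s, p, hs, hp, hsp⟩ := exists_coord (X := X) h
  intro j z hz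
  have h1 : A.act n _ = _ := hA j _ (ops.pull_mem p hz)
  rw [W.cl_pull, act_map A hp] at h1
  have h2 := congrArg (W.map s) h1
  rw [← W.map_comp, ← W.map_comp, hsp, W.map_id, W.map_id] at h2
  exact h2

lemma num_mono {S : Sys W} {m n : ℕ} (h : m ≤ n) (hn : S.Num (pw X n) = ⊥) :
    S.Num (pw X m) = ⊥ := by
  obtain ⟨s, p, -, -, hsp⟩ := exists_coord (X := X) h
  rw [eq_bot_iff]
  intro c hc
  have h1 : W.map p c ∈ S.Num (pw X n) := Sys.Num.map p hc
  rw [hn, Submodule.mem_bot] at h1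
  have h2 := congrArg (W.map s) h1
  rw [← W.map_comp, hsp, W.map_id, map_zero] at h2
  exact (Submodule.mem_bot _).2 h2

/-- Operators of the system preserve numerical equivalence. -/
lemma op_num {S : Sys W} {u : W.H Y →ₗ[W.K] W.H Z} (hu : u ∈ S.Op Y Z) {c : W.H Y}
    (hc : c ∈ S.Num Y) : u c ∈ S.Num Z := by
  obtain ⟨γ, hγ, rfl⟩ := Sys.mem_Op.1 hu
  exact Sys.Num.push _ (Sys.Num.mul' hγ (Sys.Num.map _ hc))

lemma num_of_cycle {Z : 𝒱.Obj} {j : ℕ} (hj : j ≤ Z.dim) {z : Z.Cycles} (hz : Z.IsCyc j z)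
    (hnum : ∀ w, Z.IsCyc (Z.dim - j) w → Z.V.degCycle (ops.mul z w) = 0) :
    W.cl Z z ∈ (algSys W).Num Z := by
  refine ⟨Submodule.subset_span (Set.mem_iUnion.2 ⟨j, z, hz, rfl⟩), fun d hd => ?_⟩
  change d ∈ algSpan W Z at hd
  induction hd using Submodule.span_induction with
  | mem x hx =>
    obtain ⟨l, w, hw, rfl⟩ := Set.mem_iUnion.1 hx
    by_cases hjl : j + l = Z.dim
    · obtain rfl : l = Z.dim - j := by omega
      rw [Pool.Agent.W534.tr_mul_cl' hz hw hjl, hnum w hw]
      simp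
    · exact Pool.Agent.Y129.tr_mul_cl_eq hz hw hjl
  | zero => rw [mul_zero, map_zero]
  | add x y _ _ hx hy => rw [mul_add, map_add, hx, hy, add_zero]
  | smul r x _ hx => rw [mul_smul_comm, map_smul, hx, smul_zero]

end General

variable {W : WeilCohomology.{u, 0} ops} {X : 𝒱.Obj}

/-- **The main theorem, for algebraically closed fields of coefficients.** -/
theorem fixed_main [IsAlgClosed W.K] {D : X.Cycles} (hD : X.IsCyc 1 D)
    (hHL : HardLefschetz W X D) {L : ℕ} (hL : 4 ≤ L)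
    (h : HomEqNum W (pw X (L + 2 * finrank W.K (W.H X) ^ 2 - 1))) :
    ∃ L', L ≤ L' ∧ L' ≤ L + 2 * finrank W.K (W.H X) ^ 2 ∧ ∀ n (c : W.H (pw X n)),
      IsFixed W X (L' - 1) n c →
      c ∈ algSpan W (pw X n) ∧ (c ∈ (algSys W).Num (pw X n) → c = 0) := by
  classical
  set b := finrank W.K (W.H X) with hb
  obtain ⟨e, a, he⟩ := exists_grbasis W X
  have he' : ∀ j, e j ∈ PH W X (a j) := fun j => PH.of (he j)
  have hnum : ∀ m ≤ L + 2 * b ^ 2 - 1, (algSys W).Num (pw X m) = ⊥ := fun m hm =>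
    num_mono hm ((homEqNum_iff _).1 h)
  have hsq : HomEqNum W (X.prod X) := (homEqNum_iff _).2 (hnum 1 (by omega))
  have hB : LefschetzB W X D := lefschetzB_of_square hD hHL hsq
  have hpar := par_alg hD hHL hB
  have hcard : Fintype.card (Fin b) = b := Fintype.card_fin _
  have hQ := QW_det e (algSys W) he'
  set C := cs e he' hpar with hC
  obtain ⟨M', h1, h2, hst⟩ := C.exists_stable (L - 2)
  rw [hcard] at h2
  have hM2 : 2 ≤ M' := by omega
  have hnd : ∀ n ≤ M' + 2, ∀ v ∈ C.S n, (∀ w ∈ C.S n, bf (TP (QW e) n) v w = 0) → v = 0 :=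
    fun n hn => crdK_nd1 e he' hpar fun m hm => hnum m (by omega)
  obtain ⟨T, hT⟩ := C.exists_tsys hQ hM2 hnd hst
  have hTC : ∀ m ≤ M' + 2, T.S m = crdK e (algSys W) m := fun m hm => by
    rw [hT]
    exact CSys.genS_eq hm
  refine ⟨M' + 2, by omega, by omega, fun n c hc => ?_⟩
  have hΩ : (fun w : Fin 2 → Fin b => (QW e)⁻¹ (w 0) (w 1)) ∈ T.S 2 := by
    rw [hT]
    exact (C.genS (M' + 2)).om
  have hΩd : (mat2 fun w : Fin 2 → Fin b => (QW e)⁻¹ (w 0) (w 1)).det ≠ 0 := by
    have h3 : mat2 (fun w : Fin 2 → Fin b => (QW e)⁻¹ (w 0) (w 1)) = (QW e)⁻¹ := by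
      ext i j
      rfl
    rw [h3]
    exact (Matrix.isUnit_nonsing_inv_det _ (isUnit_iff_ne_zero.2 hQ)).ne_zero
  have hmem : tn e n c ∈ T.S (n + 1) := by
    refine T.mem_of_fixed hΩ hΩd fun g hg => ?_
    obtain ⟨A, hA⟩ := exists_auto e he' hpar (g := g) fun m hm s hs =>
      hg m s (by rw [hTC m (by omega)]; exact hs)
    have h3 : A.FixesCycles (M' + 2 - 1) := by
      intro j z hz
      apply (wb e (M' + 2 - 1)).equivFun.injective
      change tn e _ _ = tn e _ _
      rw [act_tn e A hA]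
      apply hg
      rw [hTC _ (by omega), mem_crdK_succ, clsK_tn]
      exact Submodule.subset_span (Set.mem_iUnion.2 ⟨j, z, hz, rfl⟩)
    have h4 := act_tn e A hA n c
    rw [show A.act n c = c from hc A h3] at h4
    exact h4.symm
  have hmem' : tn e n c ∈ C.S (n + 1) := by
    rw [hT] at hmem
    exact CSys.genS_le _ _ hmem
  refine ⟨?_, fun hcn => ?_⟩
  · change tn e n c ∈ crdK e (algSys W) (n + 1) at hmem'
    rw [mem_crdK_succ, clsK_tn] at hmem'
    exact hmem'
  · obtain ⟨Ψ, hΨ, hb'⟩ := exists_psiK e he' hpar (Q := QW e) (fun i j => rfl) n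
    have h3 : Ψ c ∈ (algSys W).Num (pw X n) := op_num hΨ hcn
    rw [hT] at hmem
    have h4 := CSys.genS_nd hQ hM2 hnd hst (n + 1) _ hmem fun w hw => by
      rw [bf_cls e hb', clsK_tn]
      refine h3.2 _ ?_
      have h5 := CSys.genS_le _ _ hw
      change w ∈ crdK e (algSys W) (n + 1) at h5
      rw [mem_crdK_succ] at h5
      exact h5
    have h5 := clsK_tn e n c
    rw [h4, clsK_zero] at h5
    exact h5.symm

end Pool.Agent.Q60.NP
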