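import Pool.Agent.Q60.NP.MainT
import Pool.Agent.Q60.TD.GMain

/-!
# The strong form of the Tate conjecture in all characteristics
-/

open CategoryTheory AlgebraicGeometry TensorProduct Polynomial

set_option linter.unusedSectionVars false

universe u v w

namespace Pool.Agent.Q60.NP

open Module Matrix
open Pool.Agent.H914 Pool.Agent.H914.VarClass Pool.Agent.H914.VarClass.Obj
  Pool.Agent.H914.WeilCohomology
open Pool.Agent.Y133.Half Pool.Agent.Y121.AH Pool.Agent.Q60.ED Pool.Agent.Q55 Pool.Agent.H447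
open Pool.Agent.Q56.FD Pool.Agent.H281R3.HT Pool.Agent.W536.RR Pool.Agent.Q60.TD
open Pool.Agent.Q60.HD (wd wd_zero wd_succ wd_map wd_prj wd_append wd_PH wb_PH sum_append' par_op
  two_inv par_prod par_pw sg sg_mem sg_xp wb_xp)

variable {k : Type u} [Field k] {𝒱 : VarClass k} {ops : CycleOps 𝒱}
  {W : WeilCohomology.{u, 0} ops} {X Y Z : 𝒱.Obj}

section Sys

variable {ι : Type} [Fintype ι] [DecidableEq ι] (e : Basis ι W.K (W.H X)) {a : ι → ℕ}

/-- The form is nondegenerate on the tensors of degree `n + 1` of a system without numerically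
trivial classes on the power. -/
lemma crdK_nd1 {S : Sys W} (he : ∀ j, e j ∈ PH W X (a j))
    (hpar : par (W.isInternal X) ∈ S.Op X X) {n : ℕ} (hnum : ∀ m, n = m + 1 → S.Num (pw X m) = ⊥) :
    ∀ v ∈ crdK e S n, (∀ w ∈ crdK e S n, bf (TP (QW e) n) v w = 0) → v = 0 := by
  intro v hv h
  cases n with
  | zero =>
    have h1 := h (fun _ => 1) (mem_crdK_zero e _)
    rw [bf, Fintype.sum_unique, Fintype.sum_unique, TP_apply, Finset.univ_eq_empty,
      Finset.prod_empty, mul_one, mul_one] at h1
    funext I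
    rw [Pi.zero_apply, ← h1]
    exact congrArg v (Subsingleton.elim _ _)
  | succ n =>
    obtain ⟨Ψ, hΨ, hb⟩ := exists_psiK e he hpar (Q := QW e) (fun i j => rfl) n
    have h1 : Ψ (clsK e (prj X n) v) ∈ S.Num (pw X n) := by
      refine ⟨Sys.Op.apply (T := S) (fun _ => le_rfl) hΨ (mem_crdK_succ (e := e).1 hv), ?_⟩
      intro c hc
      have h2 := h (tn e n c) ((mem_crdK_succ (e := e)).2 (by rw [clsK_tn]; exact hc))
      rw [bf_cls e hb, clsK_tn] at h2
      exact h2
    rw [hnum n rfl, Submodule.mem_bot] at h1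
    have h3 : ∀ w, bf (TP (QW e) (n + 1)) v w = 0 := by
      intro w
      rw [bf_cls e hb, h1, zero_mul, map_zero]
    have h4 : Matrix.vecMul v (TP (QW e) (n + 1)) = 0 := by
      funext J
      have h5 := h3 (Pi.single J 1)
      rw [bf] at h5
      rw [Matrix.vecMul, dotProduct, Pi.zero_apply, ← h5]
      refine Finset.sum_congr rfl fun I _ => ?_
      rw [Finset.sum_eq_single J]
      · rw [Pi.single_eq_same, mul_one]
      · intro J' _ hJ
        rw [Pi.single_eq_of_ne hJ, mul_zero]
      · intro h; exact absurd (Finset.mem_univ _) h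
    have h6 := congrArg (fun u => Matrix.vecMul u (TP (QW e)⁻¹ (n + 1))) h4
    simp only [Matrix.vecMul_vecMul, (TP_det (QW_det e S he) (n + 1)).1, Matrix.vecMul_one,
      Matrix.zero_vecMul] at h6
    exact h6

/-- The closed system of the tensors of a system of classes. -/
noncomputable def cs {S : Sys W} (he : ∀ j, e j ∈ PH W X (a j))
    (hpar : par (W.isInternal X) ∈ S.Op X X) : CSys (QW e) where
  S n := crdK e S n
  one := mem_crdK_zero e _
  mul hs ht := crdK_mul e hs ht
  perm σ _ ht := crdK_perm e he hpar σ ht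
  contr hs ht := crdK_contr e he hpar (fun _ _ => rfl) hs ht
  om := by
    obtain ⟨Ω, hΩ, hQΩ⟩ := diag_mul (S := S) e he
    set Q := QW e with hQ
    have hdet : Q.det ≠ 0 := QW_det e S he
    have hu : IsUnit (Q.transpose).det := by
      rw [det_transpose]
      exact isUnit_iff_ne_zero.2 hdet
    -- the sign of the parity
    have h1 := chiK_mem (S := S) e he hpar (1 : Fin 2) Ω hΩ
    have h2 : ∀ w : Fin 2 → ι, (chiK W.K a (1 : Fin 2) * Ω) w = Q⁻¹ (w 1) (w 0) := by
      intro w
      have e1 : mat2 Ω = (Q.transpose)⁻¹ * diagonal fun i => (-1 : W.K) ^ (a i * a i) := by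
        rw [← hQΩ, ← Matrix.mul_assoc, Matrix.nonsing_inv_mul _ hu, Matrix.one_mul]
      have e2 : Ω w = mat2 Ω (w 0) (w 1) := by
        change Ω w = Ω ![w 0, w 1]
        congr 1
        funext k
        fin_cases k <;> rfl
      have e3 : ((-1 : W.K) ^ a (w 1)) * (-1) ^ (a (w 1) * a (w 1)) = 1 := by
        rw [← pow_add]
        have h4 : Even (a (w 1) + a (w 1) * a (w 1)) := by
          rw [show a (w 1) + a (w 1) * a (w 1) = a (w 1) * (a (w 1) + 1) by ring]
          exact Nat.even_mul_succ_self _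
        exact h4.neg_one_pow
      rw [Pi.mul_apply, chiK, e2, e1, Matrix.mul_diagonal, ← Matrix.transpose_nonsing_inv,
        Matrix.transpose_apply, mul_left_comm, e3, mul_one]
    have h3 := crdK_perm (S := S) e he hpar (Equiv.swap (0 : Fin 2) 1) h1
    have h4 : (fun J : Fin 2 → ι => (chiK W.K a (1 : Fin 2) * Ω) (J ∘ Equiv.swap (0 : Fin 2) 1)) =
        fun w : Fin 2 → ι => Q⁻¹ (w 0) (w 1) := by
      funext w
      rw [h2]
      rfl
    rw [h4] at h3
    exact h3

end Sys

variable {Γ : Type w} [Group Γ] {G : GaloisAction W Γ}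

/-- The arithmetic of the bound. -/
lemma arithT' {b d : ℕ} (hd : d + 1 ≤ b) :
    2 * (2 * ((2 * (2 * ((d + 1) * b.factorial)) + 1) ^ b ^ 2 *
      (b ^ 2 + 1) ^ (b ^ 2 + 1)) + 1) + 2 ≤ (2 * b) ^ (2 * b) ^ 3 := by
  have h := arithT hd
  rcases Nat.lt_or_ge b 2 with hb | hb
  · obtain rfl : b = 1 := by omega
    obtain rfl : d = 0 := by omega
    norm_num [Nat.factorial]
  -- the bound is divisible by 4 and the left hand side is 2 modulo 4
  have h1 : 4 ∣ (2 * b) ^ (2 * b) ^ 3 := by
    have h2 : 2 ≤ (2 * b) ^ 3 := by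
      have h3 : 2 * b ≤ (2 * b) ^ 3 := Nat.le_self_pow (by norm_num) _
      omega
    calc 4 ∣ (2 * b) ^ 2 := by
          rw [mul_pow]
          exact Dvd.intro _ rfl
      _ ∣ (2 * b) ^ (2 * b) ^ 3 := pow_dvd_pow _ h2
  obtain ⟨c, hc⟩ := h1
  rw [hc] at h ⊢
  omega

/-- **Effective finite determination for the strong form of the Tate conjecture, without the Hodge
index theorem.** -/
theorem strong_any [TopologicalSpace Γ] [TopologicalSpace W.K] (hA : IsArithmetic G X)
    {D : X.Cycles} (hD : X.IsCyc 1 D) (hHL : HardLefschetz W X D) {N : ℕ}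
    (hN : (2 * finrank W.K (W.H X)) ^ (2 * finrank W.K (W.H X)) ^ 3 ≤ N + 1)
    (h : StrongTate G (pw X N)) (n : ℕ) :
    ((∀ i, SemisimpleAt G (pw X n) i) ∧ TateConj G (pw X n)) ∧ HomEqNum W (pw X n) := by
  classical
  by_cases hX : Nontrivial (W.H X)
  swap
  · have h0 : finrank W.K (W.H X) = 0 := by
      by_contra h2
      exact hX (Module.nontrivial_of_finrank_pos (R := W.K) (Nat.pos_of_ne_zero h2))
    have h2 := strong_zero (G := G) h0 n
    exact ⟨h2, homEqNum_of_strong G ⟨fun j => h2.1 _, h2.2⟩⟩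
  have hdim := Pool.Agent.Q60.HD.dim_lt hD hHL
  have har := arithT' hdim
  set b := finrank W.K (W.H X) with hb
  set D₀ := (2 * (2 * ((X.dim + 1) * b.factorial)) + 1) ^ b ^ 2 * (b ^ 2 + 1) ^ (b ^ 2 + 1)
    with hD₀
  have hD1 : 1 ≤ D₀ := Nat.one_le_iff_ne_zero.2 (Nat.mul_ne_zero (pow_ne_zero _ (by omega))
    (pow_ne_zero _ (by omega)))
  have hlow : ∀ m ≤ 2 * (2 * D₀ + 1) + 2, 0 < m → StrongTate G (pw X (m - 1)) := fun m hm h0 =>
    strong_le (by omega) h
  obtain ⟨e, a, he⟩ := exists_grbasis W X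
  have he' : ∀ j, e j ∈ PH W X (a j) := fun j => PH.of (he j)
  have hsq : StrongTate G (X.prod X) := hlow 2 (by omega) (by omega)
  have hB : LefschetzB W X D := lefschetzB_of_square hD hHL (homEqNum_of_strong G hsq)
  have hpar := par_alg hD hHL hB
  have := hA.topGroup
  have := hA.t2
  have := hA.topField
  have hcard : Fintype.card (Fin b) = b := Fintype.card_fin _
  have hst : ∀ m, StrongTate G (pw X m) → TK (toM G e he) (m + 1) ≤ crdK e (algSys W) (m + 1) := by
    intro m hm
    rw [TK_eq]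
    intro t ht
    rw [mem_crdK_succ] at ht ⊢
    have h1 := (ClassPred.sp_eq_iff (Q := tatePred G) (pw X m)).2 hm.2
    rw [h1] at ht
    exact ht
  obtain ⟨h1, h2, h3⟩ := mainC (b := b) (dX := X.dim) (toM G e he) le_rfl
    (fun i j => by
      have := hA.cont_act (e j) (e.coord i)
      refine this.congr fun g => ?_
      exact (Am_apply G e g i j).symm)
    hA.cont_χ
    (hA.dense.mono fun g hg => isWeil he hg)
    (D₀ := D₀) (by rw [hcard])
    (fun m hm w hw => by
      cases m with
      | zero => exact ss_unique _ _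
      | succ m =>
        obtain ⟨j, hj⟩ := hw
        obtain rfl : w = 2 * j := by omega
        exact ss_tensor G he ((ssAt_iff G).1 ((hlow (m + 1) (by omega) (by omega)).1 j)))
    (QW_det e (algSys W) he') (cs e he' hpar)
    (fun m => by
      change crdK e (algSys W) m ≤ _
      rw [TK_eq]
      exact crdK_mono e (fun Z => ClassPred.alg_le (Q := tatePred G)) m)
    (fun m hm => by
      change _ ≤ crdK e (algSys W) m
      cases m with
      | zero => exact fun t _ => mem_crdK_zero e t
      | succ m => exact hst m (hlow (m + 1) (by omega) (by omega)))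
    (fun m hm => crdK_nd1 e he' hpar fun l hl => (homEqNum_iff _).1 (homEqNum_of_strong G
      (hlow m hm (by omega) |> fun h => by
        subst hl
        exact h)))
  have hT : TateConj G (pw X n) := by
    apply (ClassPred.sp_eq_iff (Q := tatePred G) (pw X n)).1
    apply le_antisymm _ ClassPred.alg_le
    intro c hc
    have h3 : tn e n c ∈ TK (toM G e he) (n + 1) := by
      rw [TK_eq, mem_crdK_succ, clsK_tn]
      exact hc
    have h4 := h1 (n + 1) h3
    change _ ∈ crdK e (algSys W) (n + 1) at h4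
    rw [mem_crdK_succ, clsK_tn] at h4
    exact h4
  have hS : ∀ i, SemisimpleAt G (pw X n) i := fun i => (ssAt_iff G).2 (ss_coh G he (h2 (n + 1) i))
  exact ⟨⟨hS, hT⟩, homEqNum_of_strong G ⟨fun j => hS _, hT⟩⟩

end Pool.Agent.Q60.NP
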