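import Pool.Agent.Q60.NP.Main

/-!
# The system generated by the tensors of low degree
-/

set_option linter.unusedSectionVars false

namespace Pool.Agent.Q60.NP

open MvPolynomial Module Matrix Pool.Agent.Q60.ED

variable {K : Type} [Field K] {ι : Type} [Fintype ι] [DecidableEq ι]

/-- Equivariance of contractions. -/
lemma tpow_contr {F : Type} [Field F] {g : Matrix ι ι F} (hg : g.det ≠ 0) (Q : Matrix ι ι F)
    {m n : ℕ} (s : (Fin m → ι) → F) (t : (Fin (m + n) → ι) → F) (L : Fin n → ι) :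
    tpow g n (fun J => ∑ I, ∑ I', s I * TP Q m I I' * t (Fin.append I' J)) L =
      ∑ I, ∑ I', tpow g m s I * TP ((g⁻¹).transpose * Q * g⁻¹) m I I' *
        tpow g (m + n) t (Fin.append I' L) := by
  let T : Matrix (Fin m → ι) (Fin n → ι) F := Matrix.of fun I J => t (Fin.append I J)
  have hT : t = tenM T := by
    funext w
    change t w = t _
    congr 1
    exact (Fin.append_castAdd_natAdd (f := w)).symm
  have h1 : ∀ J, ∑ I, ∑ I', s I * TP Q m I I' * t (Fin.append I' J) =
      Matrix.vecMul (Matrix.vecMul s (TP Q m)) T J := by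
    intro J
    rw [Matrix.vecMul_vecMul, Matrix.vecMul, dotProduct]
    refine Finset.sum_congr rfl fun I _ => ?_
    rw [Matrix.mul_apply, Finset.mul_sum]
    refine Finset.sum_congr rfl fun I' _ => ?_
    change s I * TP Q m I I' * t (Fin.append I' J) =
      s I * (TP Q m I I' * t (Fin.append I' J))
    ring
  have h2 : ∑ I, ∑ I', tpow g m s I * TP ((g⁻¹).transpose * Q * g⁻¹) m I I' *
        tpow g (m + n) t (Fin.append I' L) =
      Matrix.vecMul (Matrix.vecMul (Matrix.vecMul s (TP g m).transpose)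
        (TP ((g⁻¹).transpose * Q * g⁻¹) m)) (TP g m * T * (TP g n).transpose) L := by
    rw [Matrix.vecMul_vecMul _ (TP _ m), Matrix.vecMul, dotProduct]
    refine Finset.sum_congr rfl fun I _ => ?_
    rw [Matrix.mul_apply, Finset.mul_sum]
    refine Finset.sum_congr rfl fun I' _ => ?_
    have e1 : Matrix.vecMul s (TP g m).transpose I = tpow g m s I := by
      rw [Matrix.vecMul_transpose]
      rfl
    have e2 : (TP g m * T * (TP g n).transpose) I' L = tpow g (m + n) t (Fin.append I' L) := by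
      rw [hT, tpow_tenM, tenM]
      simp only [Fin.append_left, Fin.append_right]
    rw [e1, e2]
    ring
  rw [h2]
  simp only [h1]
  have h3 : (TP g m).transpose * TP ((g⁻¹).transpose * Q * g⁻¹) m * (TP g m * T *
      (TP g n).transpose) = TP Q m * T * (TP g n).transpose := by
    rw [TP_conj hg]
    have e1 : TP Q m * TP g⁻¹ m * (TP g m * T * (TP g n).transpose) =
        TP Q m * (TP g⁻¹ m * TP g m) * T * (TP g n).transpose := by
      simp only [Matrix.mul_assoc]
    rw [e1, (TP_det hg m).2, Matrix.mul_one]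
  have h5 : Matrix.vecMul (Matrix.vecMul (Matrix.vecMul s (TP g m).transpose)
        (TP ((g⁻¹).transpose * Q * g⁻¹) m)) (TP g m * T * (TP g n).transpose) =
      Matrix.vecMul (Matrix.vecMul (Matrix.vecMul s (TP Q m)) T) (TP g n).transpose := by
    rw [Matrix.vecMul_vecMul, Matrix.vecMul_vecMul, ← Matrix.mul_assoc, h3,
      Matrix.vecMul_vecMul, Matrix.vecMul_vecMul, ← Matrix.mul_assoc]
  rw [h5, tpow_eq, Matrix.vecMul_transpose]

namespace CSys

variable {Q : Matrix ι ι K} (C : CSys Q)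

/-- The tensors with coordinates in the algebra. -/
noncomputable def coordSys (hQ : Q.det ≠ 0) {M : ℕ} (hM : 2 ≤ M) : CSys Q where
  S n :=
    { carrier := {t | ∀ I, algebraMap (MvPolynomial (ι × ι) K) (FR K ι) (xt t I) ∈ C.A1 M}
      add_mem' := fun {a b} ha hb I => by
        have h1 : xt (a + b) I = xt a I + xt b I := by
          simp only [xt, Pi.add_apply, map_add, add_mul, Finset.sum_add_distrib]
        rw [h1, map_add]
        exact Subalgebra.add_mem _ (ha I) (hb I)
      zero_mem' := fun I => by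
        rw [xt_zero, map_zero]
        exact Subalgebra.zero_mem _
      smul_mem' := fun c a ha I => by
        have h1 : xt (c • a) I = MvPolynomial.C c * xt a I := by
          simp only [xt, Pi.smul_apply, smul_eq_mul, map_mul, Finset.mul_sum, mul_assoc]
        rw [h1, map_mul]
        refine Subalgebra.mul_mem _ ?_ (ha I)
        exact Subalgebra.algebraMap_mem (C.A1 M) c }
  one I := by
    rw [xt, Fintype.sum_unique, mon, Finset.univ_eq_empty, Finset.prod_empty, map_one, mul_one,
      map_one]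
    exact Subalgebra.one_mem _
  mul {m n s t} hs ht I := by
    obtain ⟨A, B, rfl⟩ : ∃ (A : Fin m → ι) (B : Fin n → ι), I = Fin.append A B :=
      ⟨fun k => I (Fin.castAdd n k), fun k => I (Fin.natAdd m k),
        (Fin.append_castAdd_natAdd (f := I)).symm⟩
    rw [← xt_mul_xt, map_mul]
    exact Subalgebra.mul_mem _ (hs A) (ht B)
  perm {n} σ t ht I := by
    have h1 : xt (fun J => t (J ∘ σ)) I = xt t (I ∘ σ) := by
      rw [xt, xt, ← (Equiv.arrowCongr σ (Equiv.refl ι)).sum_comp]
      refine Finset.sum_congr rfl fun J _ => ?_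
      have e3 : (Equiv.arrowCongr σ (Equiv.refl ι)) J = J ∘ σ.symm := rfl
      have e4 : (J ∘ σ.symm) ∘ σ = J := by funext x; simp
      rw [e3, e4, mon, mon]
      congr 1
      rw [← Equiv.prod_comp σ]
      refine Finset.prod_congr rfl fun k _ => ?_
      simp
    rw [h1]
    exact ht _
  contr {m n s t} hs ht L := by
    have hgd := XF_det_ne K ι
    set φ := algebraMap K (FR K ι) with hφ
    -- the coordinates of the form
    have hQx : ∀ i j, (((XF K ι)⁻¹).transpose * Q.map φ * (XF K ι)⁻¹) i j ∈ C.A1 M := by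
      have hgu := isUnit_iff_ne_zero.2 hgd
      have hQu := isUnit_iff_ne_zero.2 hQ
      have h1 : Q.map φ * (Q⁻¹).map φ = 1 := by
        have h2 := (Matrix.map_mul (L := Q) (M := Q⁻¹) (f := φ)).symm
        rw [Matrix.mul_nonsing_inv _ hQu] at h2
        rw [h2]
        exact Matrix.map_one _ (map_zero _) (map_one _)
      have hΩ : ∀ i j, (XF K ι * (Q⁻¹).map φ * (XF K ι).transpose) i j ∈ C.A1 M := by
        intro i j
        have h3 : algebraMap (MvPolynomial (ι × ι) K) (FR K ι)
            (xt (fun w : Fin 2 → ι => Q⁻¹ (w 0) (w 1)) ![i, j]) ∈ C.A1 M :=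
          A0_le (xt_mem_A0 hM C.om _)
        rw [xt_FR] at h3
        have h5 := tpow_two (XF K ι) (fun J => φ (Q⁻¹ (J 0) (J 1)))
        have h6 := congrFun (congrFun h5 i) j
        exact (show tpow (XF K ι) 2 (fun J => φ (Q⁻¹ (J 0) (J 1))) ![i, j] =
          (XF K ι * (Q⁻¹).map φ * (XF K ι).transpose) i j from h6) ▸ h3
      set ΩA := liftM (C.A1 M) _ hΩ with hΩA
      have e1 : ΩA.map ((C.A1 M).val : C.A1 M →+* FR K ι) =
        XF K ι * (Q⁻¹).map φ * (XF K ι).transpose := liftM_map _ _ _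
      have e2 : (((XF K ι)⁻¹).transpose * Q.map φ * (XF K ι)⁻¹) *
          (XF K ι * (Q⁻¹).map φ * (XF K ι).transpose) = 1 := by
        have h3 : ((XF K ι)⁻¹).transpose * Q.map φ * (XF K ι)⁻¹ *
            (XF K ι * (Q⁻¹).map φ * (XF K ι).transpose) =
            ((XF K ι)⁻¹).transpose * (Q.map φ * ((XF K ι)⁻¹ * XF K ι * (Q⁻¹).map φ)) *
              (XF K ι).transpose := by
          simp only [Matrix.mul_assoc]
        rw [h3, Matrix.nonsing_inv_mul _ hgu, Matrix.one_mul, h1, Matrix.mul_one,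
          ← Matrix.transpose_mul, Matrix.mul_nonsing_inv _ hgu, Matrix.transpose_one]
      have hdQI : ((Q⁻¹).map φ).det = (φ Q.det)⁻¹ := by
        have h3 := congrArg Matrix.det h1
        rw [det_mul, det_one] at h3
        have h4 : (Q.map φ).det = φ Q.det := by
          rw [RingHom.map_det]; rfl
        rw [h4] at h3
        exact (inv_eq_of_mul_eq_one_right h3).symm
      have h3 : (XF K ι * (Q⁻¹).map φ * (XF K ι).transpose).det =
          (XF K ι).det ^ 2 * (φ Q.det)⁻¹ := by
        rw [det_mul, det_mul, det_transpose, hdQI]; ring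
      have h5 : ((XF K ι)⁻¹).transpose * Q.map φ * (XF K ι)⁻¹ =
          (XF K ι * (Q⁻¹).map φ * (XF K ι).transpose)⁻¹ := (Matrix.inv_eq_left_inv e2).symm
      intro i j
      rw [h5, Matrix.inv_def, h3, Ring.inverse_eq_inv', mul_inv, inv_inv, ← inv_pow,
        Matrix.smul_apply, smul_eq_mul]
      refine Subalgebra.mul_mem _ (Subalgebra.mul_mem _ (dinv_mem M)
        (Subalgebra.algebraMap_mem _ _)) ?_
      have h6 : (XF K ι * (Q⁻¹).map φ * (XF K ι).transpose).adjugate =
          (ΩA.adjugate).map ((C.A1 M).val : C.A1 M →+* FR K ι) := by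
        rw [← e1]
        exact (((C.A1 M).val : C.A1 M →+* FR K ι).map_adjugate ΩA).symm
      rw [h6]
      exact (ΩA.adjugate i j).2
    rw [xt_FR]
    have h7 : (fun J => φ (∑ I, ∑ I', s I * TP Q m I I' * t (Fin.append I' J))) =
        fun J => ∑ I, ∑ I', φ (s I) * TP (Q.map φ) m I I' * φ (t (Fin.append I' J)) := by
      funext J
      simp only [map_sum, map_mul, TP_map', Matrix.map_apply]
    have h8 := tpow_contr hgd (Q.map φ) (fun I => φ (s I)) (fun I => φ (t I)) L
    rw [h7, h8]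
    refine Subalgebra.sum_mem _ fun I _ => Subalgebra.sum_mem _ fun I' _ => ?_
    refine Subalgebra.mul_mem _ (Subalgebra.mul_mem _ ?_ ?_) ?_
    · rw [← xt_FR]
      exact hs I
    · rw [TP_apply]
      exact Subalgebra.prod_mem _ fun k _ => hQx _ _
    · rw [← xt_FR]
      exact ht _
  om I := A0_le (xt_mem_A0 hM C.om I)

lemma mem_coordSys (hQ : Q.det ≠ 0) {M : ℕ} (hM : 2 ≤ M) {n : ℕ} {t : (Fin n → ι) → K} :
    t ∈ (C.coordSys hQ hM).S n ↔
      ∀ I, algebraMap (MvPolynomial (ι × ι) K) (FR K ι) (xt t I) ∈ C.A1 M := Iff.rfl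

/-- **The system generated by the tensors of degree at most `M`.** -/
def genS (M : ℕ) : CSys Q where
  S n := ⨅ D : {D : CSys Q // ∀ m ≤ M, C.S m ≤ D.S m}, D.1.S n
  one := (Submodule.mem_iInf _).2 fun D => D.1.one
  mul hs ht := (Submodule.mem_iInf _).2 fun D =>
    D.1.mul ((Submodule.mem_iInf _).1 hs D) ((Submodule.mem_iInf _).1 ht D)
  perm σ _ ht := (Submodule.mem_iInf _).2 fun D => D.1.perm σ ((Submodule.mem_iInf _).1 ht D)
  contr hs ht := (Submodule.mem_iInf _).2 fun D =>
    D.1.contr ((Submodule.mem_iInf _).1 hs D) ((Submodule.mem_iInf _).1 ht D)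
  om := (Submodule.mem_iInf _).2 fun D => D.1.om

variable {C}

lemma mem_genS {M n : ℕ} {t : (Fin n → ι) → K} : t ∈ (C.genS M).S n ↔
    ∀ D : CSys Q, (∀ m ≤ M, C.S m ≤ D.S m) → t ∈ D.S n := by
  constructor
  · intro h D hD
    exact (Submodule.mem_iInf _).1 h ⟨D, hD⟩
  · intro h
    exact (Submodule.mem_iInf _).2 fun D => h D.1 D.2

lemma genS_le (M n : ℕ) : (C.genS M).S n ≤ C.S n := fun _ ht => mem_genS.1 ht C fun _ _ => le_rfl

lemma le_genS {M n : ℕ} (h : n ≤ M) : C.S n ≤ (C.genS M).S n := fun _ ht =>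
  mem_genS.2 fun _ hD => hD n h ht

lemma genS_eq {M n : ℕ} (h : n ≤ M) : (C.genS M).S n = C.S n :=
  le_antisymm (genS_le M n) (le_genS h)

lemma genS_genBy (hQ : Q.det ≠ 0) {M : ℕ} (hM : 2 ≤ M) : (C.genS M).GenBy M := by
  intro n s hs I
  have h1 := mem_genS.1 hs ((C.genS M).coordSys hQ hM) (fun m hm t ht => by
    rw [mem_coordSys]
    exact fun I => A0_le (xt_mem_A0 hm (le_genS hm ht) I))
  exact ((C.genS M).mem_coordSys hQ hM).1 h1 I

/-- **The system generated by the tensors of low degree is nondegenerate.** -/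
theorem genS_nd [CharZero K] (hQ : Q.det ≠ 0) {M : ℕ} (hM : 2 ≤ M)
    (hnd : ∀ n ≤ M + 2, ∀ v ∈ C.S n, (∀ w ∈ C.S n, bf (TP Q n) v w = 0) → v = 0)
    (hst : ∀ A : Matrix ι ι K, (∀ m ≤ M, ∀ s ∈ C.S m, aop A s = 0) →
      ∀ m ≤ M + 2, ∀ s ∈ C.S m, aop A s = 0) (n : ℕ) :
    ∀ v ∈ (C.genS (M + 2)).S n, (∀ w ∈ (C.genS (M + 2)).S n, bf (TP Q n) v w = 0) → v = 0 := by
  refine nd_all hQ hM ?_ ?_ (genS_genBy hQ (by omega)) n
  · intro n hn v hv h
    rw [genS_eq hn] at hv
    exact hnd n hn v hv fun w hw => h w (le_genS hn hw)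
  · intro A hA m hm s hs
    exact hst A (fun m hm s hs => hA m hm s (le_genS (by omega) hs)) m hm s (genS_le _ _ hs)

/-- The system of tensors with projections. -/
theorem exists_tsys [CharZero K] (hQ : Q.det ≠ 0) {M : ℕ} (hM : 2 ≤ M)
    (hnd : ∀ n ≤ M + 2, ∀ v ∈ C.S n, (∀ w ∈ C.S n, bf (TP Q n) v w = 0) → v = 0)
    (hst : ∀ A : Matrix ι ι K, (∀ m ≤ M, ∀ s ∈ C.S m, aop A s = 0) →
      ∀ m ≤ M + 2, ∀ s ∈ C.S m, aop A s = 0) : ∃ T : TSys K ι, T.S = (C.genS (M + 2)).S :=
  Pool.Agent.Q60.TD.exists_tsysK Q _ (C.genS (M + 2)).one (fun hs ht => (C.genS (M + 2)).mul hs ht)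
    (fun σ _ ht => (C.genS (M + 2)).perm σ ht) (fun hs ht => (C.genS (M + 2)).contr hs ht)
    (genS_nd hQ hM hnd hst)

/-- The stabilisation of the infinitesimal stabilisers. -/
lemma exists_stable (C : CSys Q) (M : ℕ) : ∃ M', M ≤ M' ∧
    M' ≤ M + 2 * Fintype.card ι ^ 2 ∧ ∀ A : Matrix ι ι K,
      (∀ m ≤ M', ∀ s ∈ C.S m, aop A s = 0) → ∀ m ≤ M' + 2, ∀ s ∈ C.S m, aop A s = 0 := by
  classical
  let h : ℕ → Submodule K (Matrix ι ι K) := fun M =>
    { carrier := {A | ∀ m ≤ M, ∀ s ∈ C.S m, aop A s = 0}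
      add_mem' := fun {a b} ha hb m hm s hs => by
        funext I
        have h1 := (aopL s I).map_add a b
        rw [aopL_apply, aopL_apply, aopL_apply, ha m hm s hs, hb m hm s hs] at h1
        rw [h1]; simp
      zero_mem' := fun m hm s hs => by
        funext I
        exact (aopL s I).map_zero
      smul_mem' := fun c a ha m hm s hs => by
        funext I
        have h1 := (aopL s I).map_smul c a
        rw [aopL_apply, aopL_apply, ha m hm s hs] at h1
        rw [h1]; simp }
  have hle : ∀ {M M'}, M ≤ M' → h M' ≤ h M := fun hMM A hA m hm s hs =>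
    hA m (hm.trans hMM) s hs
  by_contra hcon
  push Not at hcon
  have hne : ∀ k < Fintype.card ι ^ 2 + 1, h (M + 2 * (k + 1)) < h (M + 2 * k) := by
    intro k hk
    refine lt_of_le_of_ne (hle (by omega)) fun heq => ?_
    obtain ⟨A, hA, m, hm, s, hs, hne⟩ := hcon (M + 2 * k) (by omega) (by omega)
    apply hne
    have h1 : A ∈ h (M + 2 * (k + 1)) := by rw [heq]; exact hA
    exact h1 m (by omega) s hs
  have hfin : ∀ k ≤ Fintype.card ι ^ 2 + 1, finrank K (h (M + 2 * k)) + k ≤
      Fintype.card ι ^ 2 := by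
    intro k
    induction k with
    | zero =>
      intro _
      have h1 := Submodule.finrank_le (h (M + 2 * 0))
      rw [Module.finrank_matrix, Module.finrank_self, mul_one, ← sq] at h1
      exact h1
    | succ k ih =>
      intro hk
      have h1 := ih (by omega)
      have h2 := Submodule.finrank_lt_finrank_of_lt (hne k (by omega))
      omega
  have h1 := hfin (Fintype.card ι ^ 2 + 1) le_rfl
  omega

end CSys

end Pool.Agent.Q60.NP
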