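import Pool.Agent.Q60.NP.PMain

/-!
# Homological and numerical equivalence for generated classes
-/

open CategoryTheory AlgebraicGeometry TensorProduct

set_option linter.unusedSectionVars false

universe u v w

namespace Pool.Agent.Q60.NP

open Module Matrix
open Pool.Agent.H914 Pool.Agent.H914.VarClass Pool.Agent.H914.VarClass.Obj
  Pool.Agent.H914.WeilCohomology
open Pool.Agent.Y133.Half Pool.Agent.Y121.AH Pool.Agent.H281R3.HT

variable {k : Type u} [Field k] {𝒱 : VarClass k} {ops : CycleOps 𝒱}
  {W : WeilCohomology.{u, 0} ops} {X : 𝒱.Obj}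

/-- The classes which become invariant after the extension of the coefficients. -/
noncomputable def fixFam (W : WeilCohomology.{u, 0} ops) (F : Type) [Field F] [Algebra W.K F]
    (X : 𝒱.Obj) (N n : ℕ) : Submodule W.K (W.H (pw X n)) where
  carrier := {c | ∀ A : PowAut (baseW W F) X, A.FixesCycles N → A.act n (em W F c) = em W F c}
  add_mem' {a b} ha hb A hA := by rw [em_add, map_add, ha A hA, hb A hA]
  zero_mem' A hA := by rw [em_zero, map_zero]
  smul_mem' r a ha A hA := by rw [em_smul, map_smul, ha A hA]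

lemma fixFam_closed (F : Type) [Field F] [Algebra W.K F] (X : 𝒱.Obj) (N : ℕ) :
    IsClosedFamily (W := W) (X := X) N (fixFam W F X N) where
  cycle j z hz A hA := by
    rw [← em_cl]
    exact hA j z hz
  mul n a ha b hb A hA := by rw [em_mul, map_mul, ha A hA, hb A hA]
  pull f hf a ha A hA := by
    change A.act _ (em W F (W.map f a)) = em W F (W.map f a)
    rw [← em_map, act_map A hf, ha A hA]
  push f hf a ha A hA := by rw [← em_push, act_push A hf, ha A hA]

lemma genCycles_le (F : Type) [Field F] [Algebra W.K F] (N n : ℕ) :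
    genCycles W X N n ≤ fixFam W F X N n := fun _ hc =>
  (Submodule.mem_iInf _).1 hc ⟨fixFam W F X N, fixFam_closed F X N⟩

/-- **Generated classes.** -/
theorem gen_main {D : X.Cycles} (hD : X.IsCyc 1 D) (hHL : HardLefschetz W X D) {L : ℕ}
    (hL : 4 ≤ L) (h : HomEqNum W (pw X (L + 2 * finrank W.K (W.H X) ^ 2 - 1))) (n : ℕ) :
    Pool.Agent.W552.HomEqNumOn W (pw X n) (genCycles W X (L - 1) n) := by
  let F := AlgebraicClosure W.K
  have hF : IsAlgClosed (baseW W F).K := (inferInstance : IsAlgClosed F)
  have hb : finrank (baseW W F).K ((baseW W F).H X) = finrank W.K (W.H X) :=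
    Module.finrank_baseChange (R := F) (S := W.K) (M' := W.H X)
  have h' : HomEqNum (baseW W F)
      (pw X (L + 2 * finrank (baseW W F).K ((baseW W F).H X) ^ 2 - 1)) := by
    rw [hb]
    exact Pool.Agent.Y129.homEqNum_base' F h
  obtain ⟨L', h1, -, h3⟩ := fixed_main (W := baseW W F) hD (base_hardLefschetz hD hHL) hL h'
  intro j hj z hz hmem hnum
  have h4 := genCycles_le F (L - 1) n hmem
  have h5 := (h3 n (em W F (W.cl _ z)) fun A hA => h4 A (FixesCycles.mono (by omega) hA)).2
  rw [← em_cl] at h5
  exact base_cl_eq_zero.1 (h5 (num_of_cycle hj hz hnum))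

end Pool.Agent.Q60.NP
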