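import Pool.Agent.Y133.Half.Growth

/-!
# Automorphisms of the cohomology of the powers of a variety, and generated classes: definitions
-/

open CategoryTheory AlgebraicGeometry

universe u v

namespace Pool.Agent.Q60.NP

open Pool.Agent.H914 Pool.Agent.H914.VarClass Pool.Agent.H914.VarClass.Obj
  Pool.Agent.H914.WeilCohomology
open Pool.Agent.Y133.Half (pw prj)

section Alg

variable {K : Type*} [Field K] {A : Type*} [Ring A] [Algebra K A] {B : Type*} [Ring B]
  [Algebra K B]

/-- The automorphisms `α` and `β` commute with the homomorphism `f`. -/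
def Intertwines (α : A ≃ₐ[K] A) (β : B ≃ₐ[K] B) (f : B →ₐ[K] A) : Prop := ∀ b, α (f b) = f (β b)

/-- The automorphism `α` preserves the linear form `t`. -/
def Preserves (α : A ≃ₐ[K] A) (t : A →ₗ[K] K) : Prop := ∀ a, t (α a) = t a

/-- The automorphism `α` fixes the element `c`. -/
def Fixes (α : A ≃ₐ[K] A) (c : A) : Prop := α c = c

/-- The subspace `V` is closed under multiplication. -/
def ClosedMul (V : Submodule K A) : Prop := ∀ a ∈ V, ∀ b ∈ V, a * b ∈ V

/-- The linear map `f` maps `V` to `V'`. -/
def MapsInto (f : A →ₗ[K] B) (V : Submodule K A) (V' : Submodule K B) : Prop := ∀ a ∈ V, f a ∈ V'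

end Alg

variable {k : Type u} [Field k] {𝒱 : VarClass k} {ops : CycleOps 𝒱}

/-- A compatible family of automorphisms of the cohomology algebras of the powers of `X`
(`pw X n` is the product of `n + 1` copies of `X`): they commute with the pull-backs along the
projections to `X`, and they preserve the orientations. -/
structure PowAut (W : WeilCohomology.{u, v} ops) (X : 𝒱.Obj) where
  /-- the automorphism of the cohomology of the power -/
  act : ∀ n, W.H (pw X n) ≃ₐ[W.K] W.H (pw X n)
  prj : ∀ n i, Intertwines (act n) (act 0 : W.H X ≃ₐ[W.K] W.H X) (W.map (prj X n i))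
  tr : ∀ n, Preserves (act n) (W.tr (pw X n))

/-- The automorphisms fix the classes of all cycles on `pw X n`. -/
def PowAut.FixesCycles {W : WeilCohomology.{u, v} ops} {X : 𝒱.Obj} (A : PowAut W X) (n : ℕ) :
    Prop :=
  ∀ j z, (pw X n).IsCyc j z → Fixes (A.act n) (W.cl (pw X n) z)

/-- The class `c` on `pw X n` is fixed by all compatible families of automorphisms which fix the
classes of all cycles on `pw X N`. -/
def IsFixed (W : WeilCohomology.{u, v} ops) (X : 𝒱.Obj) (N n : ℕ) (c : W.H (pw X n)) : Prop :=
  ∀ A : PowAut W X, A.FixesCycles N → Fixes (A.act n) c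

/-- The morphism between powers of `X` is of the form `x ↦ (x_(σ 0), x_(σ 1), …)`. -/
def IsCoordinate {X : 𝒱.Obj} {m n : ℕ} (f : pw X m ⟶ pw X n) : Prop :=
  ∃ σ : Fin (n + 1) → Fin (m + 1), ∀ i, f ≫ prj X n i = prj X m (σ i)

/-- A family of spaces of classes on the powers of `X`. -/
abbrev Family (W : WeilCohomology.{u, v} ops) (X : 𝒱.Obj) := ∀ n, Submodule W.K (W.H (pw X n))

/-- The family is closed under the pull-backs along the morphisms `x ↦ (x_(σ 0), x_(σ 1), …)`. -/
def ClosedPull {W : WeilCohomology.{u, v} ops} {X : 𝒱.Obj} (V : Family W X) : Prop :=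
  ∀ {m n} (f : pw X m ⟶ pw X n), IsCoordinate f → MapsInto (W.map f).toLinearMap (V n) (V m)

/-- The family is closed under the push-forwards along the morphisms `x ↦ (x_(σ 0), x_(σ 1), …)`. -/
def ClosedPush {W : WeilCohomology.{u, v} ops} {X : 𝒱.Obj} (V : Family W X) : Prop :=
  ∀ {m n} (f : pw X m ⟶ pw X n), IsCoordinate f → MapsInto (W.push f) (V m) (V n)

/-- The family contains the classes of the cycles on `pw X N`, and it is closed under cup products,
and under pull-backs and push-forwards along the morphisms `x ↦ (x_(σ 0), x_(σ 1), …)` (projections,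
permutations, diagonals). -/
structure IsClosedFamily {W : WeilCohomology.{u, v} ops} {X : 𝒱.Obj} (N : ℕ) (V : Family W X) :
    Prop where
  cycle : ∀ j z, (pw X N).IsCyc j z → W.cl (pw X N) z ∈ V N
  mul : ∀ n, ClosedMul (V n)
  pull : ClosedPull V
  push : ClosedPush V

/-- The classes on `pw X n` which are generated by the classes of the cycles on `pw X N`: they
belong to every closed family which contains the classes of the cycles on `pw X N`. -/
noncomputable def genCycles (W : WeilCohomology.{u, v} ops) (X : 𝒱.Obj) (N n : ℕ) :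
    Submodule W.K (W.H (pw X n)) :=
  ⨅ V : {V : Family W X // IsClosedFamily N V}, V.1 n

end Pool.Agent.Q60.NP
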