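import Pool.Agent.Q60.NP.Sub
import Pool.Agent.Q60.TD.MainK

/-!
# Virtually invariant tensors: the main theorem without nondegeneracy in all degrees
-/

set_option linter.unusedSectionVars false

namespace Pool.Agent.Q60.NP

open Module Matrix Pool.Agent.Q60.ED Pool.Agent.Q60.TD Pool.Agent.Q56.FD

variable {K : Type} [Field K] {ι : Type} [Fintype ι] [DecidableEq ι]

lemma aop_bc {L : Type} [Field L] [Algebra K L] (A : Matrix ι ι K) {n : ℕ}
    (t : (Fin n → ι) → K) : aop (A.map (algebraMap K L)) (bc L t) = bc L (aop A t) := by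
  funext I
  rw [aop_apply]
  change _ = algebraMap K L (aop A t I)
  rw [aop_apply, map_sum]
  refine Finset.sum_congr rfl fun k _ => ?_
  rw [map_sum]
  refine Finset.sum_congr rfl fun j _ => ?_
  rw [map_mul]
  rfl

lemma aop_bcS {L : Type} [Field L] [Algebra K L] {A : Matrix ι ι K} {n : ℕ}
    {U : Submodule K ((Fin n → ι) → K)} (h : ∀ s ∈ U, aop A s = 0) {t : (Fin n → ι) → L}
    (ht : t ∈ bcS L U) : aop (A.map (algebraMap K L)) t = 0 := by
  refine Submodule.span_induction (p := fun t _ => aop (A.map (algebraMap K L)) t = 0)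
    ?_ ?_ ?_ ?_ ht
  · rintro _ ⟨s, hs, rfl⟩
    rw [aop_bc, h s hs]
    funext I
    exact map_zero _
  · funext I
    rw [aop_apply]
    simp
  · intro a b _ _ ha hb
    funext I
    have h1 := congrFun ha I
    have h2 := congrFun hb I
    rw [aop_apply] at h1 h2 ⊢
    simp only [Pi.add_apply, mul_add, Finset.sum_add_distrib, Pi.zero_apply] at h1 h2 ⊢
    rw [h1, h2, add_zero]
  · intro c a _ ha
    funext I
    have h1 := congrFun ha I
    rw [aop_apply] at h1 ⊢
    simp only [Pi.smul_apply, smul_eq_mul, mul_left_comm _ c, ← Finset.mul_sum,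
      Pi.zero_apply] at h1 ⊢
    rw [h1, mul_zero]

variable {Γ : Type*} [Group Γ] [CharZero K] {b dX : ℕ}

/-- **The main theorem**, with nondegeneracy in low degrees only. -/
theorem mainC [TopologicalSpace Γ] [IsTopologicalGroup Γ]
    [TopologicalSpace K] [T2Space K] [IsTopologicalDivisionRing K]
    (R : MRep K ι Γ) (hM : R.M ≤ 2 * dX)
    (hA : ∀ i j, Continuous fun g => R.A g i j) (hχ : Continuous fun g => (R.χ g : K))
    (hW : Dense {g | R.IsWeil b g}) {D₀ : ℕ}
    (hD : (2 * (2 * ((dX + 1) * b.factorial)) + 1) ^ Fintype.card ι ^ 2 *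
      (Fintype.card ι ^ 2 + 1) ^ (Fintype.card ι ^ 2 + 1) ≤ D₀)
    (hss : ∀ n ≤ 2 * (2 * D₀ + 1), ∀ w, Even w → SSon (MO (NK R n)) (grw R K n w))
    {Q : Matrix ι ι K} (hQ : Q.det ≠ 0) (C : CSys Q)
    (hST : ∀ n, C.S n ≤ TK R n) (hTS : ∀ n ≤ 2 * (2 * D₀ + 1), TK R n ≤ C.S n)
    (hnd : ∀ n ≤ 2 * (2 * D₀ + 1) + 2, ∀ v ∈ C.S n,
      (∀ w ∈ C.S n, bf (TP Q n) v w = 0) → v = 0) :
    (∀ n, TK R n ≤ C.S n) ∧ (∀ n w, SSon (MO (NK R n)) (grw R K n w)) ∧
      ∀ n, ∀ v ∈ C.S n, (∀ w ∈ C.S n, bf (TP Q n) v w = 0) → v = 0 := by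
  let L := AlgebraicClosure K
  have : CharZero L := charZero_of_injective_algebraMap (algebraMap K L).injective
  set M := 2 * (2 * D₀ + 1) with hMdef
  have hssL := fun n (hn : n ≤ 2 * (2 * D₀ + 1)) => ss_even (L := L) (b := b) hM (hss n hn)
  let Ω : (Fin 2 → ι) → K := fun w => Q⁻¹ (w 0) (w 1)
  have hΩC : Ω ∈ C.S 2 := C.om
  have hmat : mat2 Ω = Q⁻¹ := by
    ext i j
    rfl
  have hΩd : (mat2 Ω).det ≠ 0 := by
    rw [hmat]
    exact (Matrix.isUnit_nonsing_inv_det _ (isUnit_iff_ne_zero.2 hQ)).ne_zero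
  have hΩd' : (mat2 (bc L Ω)).det ≠ 0 := by
    rw [mat2_bc]
    have h3 : ((mat2 Ω).map (algebraMap K L)).det = algebraMap K L (mat2 Ω).det :=
      ((algebraMap K L).map_det _).symm
    rw [h3]
    exact (map_ne_zero _).2 hΩd
  set R' := toT (b := b) R L hM with hR'
  -- the stabilisation of the infinitesimal stabilisers
  have hst : ∀ A : Matrix ι ι K, (∀ m ≤ M, ∀ s ∈ C.S m, aop A s = 0) →
      ∀ m, ∀ s ∈ C.S m, aop A s = 0 := by
    intro A hA0 m s hs
    let 𝒯 : ∀ n : ℕ, Submodule L ((Fin n → ι) → L) := fun n => if n ≤ M then R'.T n else ⊥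
    have hT : ∀ n ≤ M, 𝒯 n = R'.T n := fun n hn => if_pos hn
    have hT' : ∀ n, ¬ n ≤ M → 𝒯 n = ⊥ := fun n hn => if_neg hn
    have hLie : Lie 𝒯 (A.map (algebraMap K L)) := by
      intro n t ht
      by_cases hn : n ≤ M
      · rw [hT n hn] at ht
        exact aop_bcS (hA0 n hn) (T_le hM (hTS n hn) ht)
      · rw [hT' n hn, Submodule.mem_bot] at ht
        rw [ht]
        funext I
        rw [aop_apply]
        simp
    have h1 : aop (A.map (algebraMap K L)) (bc L s) = 0 := by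
      refine aop_eq_zero hLie fun h hh => ?_
      have h2 : ∀ n ≤ 2 * (2 * D₀ + 1), ∀ t ∈ R'.T n, tpow h n t = t := by
        intro n hn t ht
        exact hh n t (by rw [hT n hn]; exact ht)
      have h3 := TRep.mem_closure (R := R') hD (fun n hn => hssL n (by omega))
        (fun n hn => fin_T hM hA hχ hW (hssL n hn)) (bc_T hM (hST 2 hΩC)) hΩd' h2
      exact TRep.fix_closure (bc_T hM (hST m hs)) h3
    rw [aop_bc] at h1
    apply bc_inj (L := L)
    rw [h1]
    funext I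
    exact (map_zero _).symm
  have hst' : ∀ A : Matrix ι ι K, (∀ m ≤ M, ∀ s ∈ C.S m, aop A s = 0) →
      ∀ m ≤ M + 2, ∀ s ∈ C.S m, aop A s = 0 := fun A hA m _ s hs => hst A hA m s hs
  have hM2 : 2 ≤ M := by omega
  obtain ⟨T, hT⟩ := C.exists_tsys hQ hM2 hnd hst'
  have hTC : ∀ n, T.S n ≤ C.S n := fun n => by
    rw [hT]
    exact CSys.genS_le _ _
  obtain ⟨h1, h2⟩ := mainK (b := b) (dX := dX) R hM hA hχ hW hD hss T (Ω := Ω)
    (by rw [hT]; exact (C.genS (M + 2)).om) hΩd (fun n => (hTC n).trans (hST n))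
    (fun n hn => by
      rw [hT]
      exact (hTS n hn).trans (CSys.le_genS (by omega)))
  have h3 : ∀ n, (C.genS (M + 2)).S n = C.S n := by
    intro n
    refine le_antisymm (CSys.genS_le _ _) ?_
    have h4 := (hST n).trans (h1 n)
    rw [hT] at h4
    exact h4
  refine ⟨fun n => (h1 n).trans (hTC n), h2, fun n v hv h => ?_⟩
  refine CSys.genS_nd hQ hM2 hnd hst' n v (by rw [h3 n]; exact hv) fun w hw => h w ?_
  rw [h3 n] at hw
  exact hw

end Pool.Agent.Q60.NP
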