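import Pool.Agent.Q60.TD.KSys

/-!
# Closed systems of tensors
-/

set_option linter.unusedSectionVars false

namespace Pool.Agent.Q60.NP

open Module Matrix Pool.Agent.Q60.ED

variable {K : Type} [Field K] {ι : Type} [Fintype ι] [DecidableEq ι]

/-- A closed system of tensors. -/
structure CSys (Q : Matrix ι ι K) where
  /-- the tensors of the system -/
  S : ∀ n : ℕ, Submodule K ((Fin n → ι) → K)
  one : (fun _ => 1) ∈ S 0
  mul : ∀ {m n : ℕ} {s : (Fin m → ι) → K} {t : (Fin n → ι) → K}, s ∈ S m → t ∈ S n →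
    tmul s t ∈ S (m + n)
  perm : ∀ {n : ℕ} (σ : Equiv.Perm (Fin n)) {t : (Fin n → ι) → K}, t ∈ S n →
    (fun J => t (J ∘ σ)) ∈ S n
  contr : ∀ {m n : ℕ} {s : (Fin m → ι) → K} {t : (Fin (m + n) → ι) → K}, s ∈ S m →
    t ∈ S (m + n) → (fun J => ∑ I, ∑ I', s I * TP Q m I I' * t (Fin.append I' J)) ∈ S n
  om : (fun w : Fin 2 → ι => Q⁻¹ (w 0) (w 1)) ∈ S 2

namespace CSys

variable {Q : Matrix ι ι K} (C : CSys Q) {ρ σ τ : Type} [Fintype ρ] [Fintype σ] [Fintype τ]

/-- The tensors of the system with indices in a finite type. -/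
def In (t : (τ → ι) → K) : Prop :=
  ∀ (n : ℕ) (e : Fin n ≃ τ), (fun J : Fin n → ι => t (J ∘ e.symm)) ∈ C.S n

variable {C}

lemma In.of {t : (τ → ι) → K} {n : ℕ} (e : Fin n ≃ τ)
    (h : (fun J : Fin n → ι => t (J ∘ e.symm)) ∈ C.S n) : C.In t := by
  intro m f
  have hmn : m = n := by simpa using Fintype.card_congr (f.trans e.symm)
  subst hmn
  have h1 := C.perm (e.trans f.symm) h
  have h2 : (fun J : Fin m → ι => (fun J : Fin m → ι => t (J ∘ e.symm)) (J ∘ (e.trans f.symm))) =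
      fun J : Fin m → ι => t (J ∘ f.symm) := by
    funext J
    change t ((J ∘ (e.trans f.symm)) ∘ e.symm) = _
    congr 1
    funext k
    simp
  rwa [h2] at h1

lemma mem_iff {n : ℕ} {t : (Fin n → ι) → K} : t ∈ C.S n ↔ C.In t := by
  constructor
  · intro h
    exact In.of (Equiv.refl _) h
  · intro h
    exact h n (Equiv.refl _)

lemma In.add {s t : (τ → ι) → K} (hs : C.In s) (ht : C.In t) : C.In (s + t) := fun n e =>
  Submodule.add_mem _ (hs n e) (ht n e)

lemma In.zero : C.In (0 : (τ → ι) → K) := fun _ _ => Submodule.zero_mem _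

lemma In.smul (c : K) {t : (τ → ι) → K} (ht : C.In t) : C.In (c • t) := fun n e =>
  Submodule.smul_mem _ c (ht n e)

lemma In.sum {κ : Type} (u : Finset κ) {t : κ → (τ → ι) → K} (ht : ∀ k ∈ u, C.In (t k)) :
    C.In (fun w => ∑ k ∈ u, t k w) := by
  intro n e
  have h1 : (fun J : Fin n → ι => ∑ k ∈ u, t k (J ∘ e.symm)) =
      ∑ k ∈ u, fun J : Fin n → ι => t k (J ∘ e.symm) := by
    funext J
    rw [Finset.sum_apply]
  rw [h1]
  exact Submodule.sum_mem _ fun k hk => ht k hk n e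

lemma In.reindex (e : σ ≃ τ) {t : (σ → ι) → K} (ht : C.In t) :
    C.In (fun w : τ → ι => t (w ∘ e)) := by
  intro n f
  have h1 := ht n (f.trans e.symm)
  have h2 : ∀ J : Fin n → ι, (J ∘ f.symm) ∘ e = J ∘ (f.trans e.symm).symm := by
    intro J
    funext k
    simp
  simp only [h2]
  exact h1

lemma In.mul {s : (σ → ι) → K} {t : (τ → ι) → K} (hs : C.In s) (ht : C.In t) :
    C.In (fun w : σ ⊕ τ → ι => s (w ∘ Sum.inl) * t (w ∘ Sum.inr)) := by
  have e := (Fintype.equivFin σ).symm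
  have f := (Fintype.equivFin τ).symm
  have h1 := C.mul (hs _ e) (ht _ f)
  refine In.of (finSumFinEquiv.symm.trans (Equiv.sumCongr e f)) ?_
  have h2 : (tmul (fun J : Fin _ → ι => s (J ∘ e.symm)) fun J : Fin _ → ι => t (J ∘ f.symm)) =
      fun J => (fun w : σ ⊕ τ → ι => s (w ∘ Sum.inl) * t (w ∘ Sum.inr))
        (J ∘ (finSumFinEquiv.symm.trans (Equiv.sumCongr e f)).symm) := by
    funext J
    change s _ * t _ = s _ * t _
    congr 2
  rw [h2] at h1
  exact h1

/-- The product of two tensors of the system, with arbitrary positions of the indices. -/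
lemma In.mul' {f : σ → ρ} {g : τ → ρ} (h : Function.Bijective (Sum.elim f g))
    {s : (σ → ι) → K} {t : (τ → ι) → K} (hs : C.In s) (ht : C.In t) :
    C.In (fun w : ρ → ι => s (w ∘ f) * t (w ∘ g)) :=
  (In.mul hs ht).reindex (Equiv.ofBijective _ h)

lemma In.contr [DecidableEq σ] {s : (σ → ι) → K} {t : (σ ⊕ τ → ι) → K} (hs : C.In s) (ht : C.In t) :
    C.In (fun J : τ → ι => ∑ I : σ → ι, ∑ I' : σ → ι, s I * (∏ k, Q (I k) (I' k)) *
      t (Sum.elim I' J)) := by
  have e := (Fintype.equivFin σ).symm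
  have f := (Fintype.equivFin τ).symm
  have h1 := C.contr (hs _ e) (ht _ (finSumFinEquiv.symm.trans (Equiv.sumCongr e f)))
  refine In.of f ?_
  have h2 : (fun J : Fin (Fintype.card τ) → ι => ∑ I : Fin (Fintype.card σ) → ι,
      ∑ I' : Fin (Fintype.card σ) → ι, s (I ∘ e.symm) * TP Q (Fintype.card σ) I I' *
        t (Fin.append I' J ∘ (finSumFinEquiv.symm.trans (Equiv.sumCongr e f)).symm)) =
      fun J => ∑ I : σ → ι, ∑ I' : σ → ι, s I * (∏ k, Q (I k) (I' k)) *
        t (Sum.elim I' (J ∘ f.symm)) := by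
    funext J
    rw [← (Equiv.arrowCongr e (Equiv.refl ι)).sum_comp]
    refine Finset.sum_congr rfl fun I _ => ?_
    rw [← (Equiv.arrowCongr e (Equiv.refl ι)).sum_comp]
    refine Finset.sum_congr rfl fun I' _ => ?_
    have e1 : TP Q (Fintype.card σ) I I' = ∏ k, Q ((I ∘ e.symm) k) ((I' ∘ e.symm) k) := by
      rw [TP_apply]
      exact (Equiv.prod_comp e.symm fun k => Q (I k) (I' k)).symm
    have e2 : Fin.append I' J ∘ (finSumFinEquiv.symm.trans (Equiv.sumCongr e f)).symm =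
        Sum.elim (I' ∘ e.symm) (J ∘ f.symm) := by
      funext k
      rcases k with k | k
      · simp [finSumFinEquiv]
      · simp [finSumFinEquiv]
    rw [e1, e2]
    rfl
  rw [h2] at h1
  exact h1

lemma In.om1 : C.In (fun w : Fin 2 → ι => Q⁻¹ (w 0) (w 1)) := mem_iff.1 C.om

lemma In.om2 : C.In (fun w : Fin 2 → ι => Q⁻¹ (w 1) (w 0)) :=
  mem_iff.1 (C.perm (Equiv.swap 0 1) C.om)

lemma In.one : C.In (fun _ : Fin 0 → ι => (1 : K)) := mem_iff.1 C.one

/-- The tensor powers of the form. -/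
lemma In.om_prod (n : ℕ) :
    C.In (fun w : Fin n ⊕ Fin n → ι => ∏ k, Q⁻¹ (w (Sum.inr k)) (w (Sum.inl k))) := by
  induction n with
  | zero =>
    have h1 : C.In (fun w : Fin 0 ⊕ Fin 0 → ι => (1 : K)) :=
      (In.one (C := C)).reindex (Equiv.equivOfIsEmpty (Fin 0) (Fin 0 ⊕ Fin 0))
    convert h1 using 2
    rw [Finset.univ_eq_empty, Finset.prod_empty]
  | succ n ih =>
    have hb : Function.Bijective (Sum.elim (![Sum.inl 0, Sum.inr 0] :
        Fin 2 → Fin (n + 1) ⊕ Fin (n + 1)) (Sum.map Fin.succ Fin.succ)) := by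
      constructor
      · rintro (a | a | a) (b | b | b) h
        · fin_cases a <;> fin_cases b <;> simp_all
        · fin_cases a <;> simp at h
          exact absurd h.symm (Fin.succ_ne_zero _)
        · fin_cases a <;> simp at h
          exact absurd h.symm (Fin.succ_ne_zero _)
        · fin_cases b <;> simp at h
        · simpa using h
        · simp at h
        · fin_cases b <;> simp at h
        · simp at h
        · simpa using h
      · rintro (a | a)
        · rcases Fin.eq_zero_or_eq_succ a with rfl | ⟨b, rfl⟩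
          · exact ⟨Sum.inl 0, rfl⟩
          · exact ⟨Sum.inr (Sum.inl b), rfl⟩
        · rcases Fin.eq_zero_or_eq_succ a with rfl | ⟨b, rfl⟩
          · exact ⟨Sum.inl 1, rfl⟩
          · exact ⟨Sum.inr (Sum.inr b), rfl⟩
    have h1 := In.mul' hb (In.om2 (C := C)) ih
    convert h1 using 2 with w
    rw [Fin.prod_univ_succ]
    rfl

variable (C)

/-- The matrices whose tensors belong to the system. -/
def M (p q : ℕ) : Submodule K (Matrix (Fin p → ι) (Fin q → ι) K) where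
  carrier := {A | C.In (fun w : Fin p ⊕ Fin q → ι => A (w ∘ Sum.inl) (w ∘ Sum.inr))}
  add_mem' {a b} ha hb := In.add (C := C)
    (s := fun w : Fin p ⊕ Fin q → ι => a (w ∘ Sum.inl) (w ∘ Sum.inr))
    (t := fun w : Fin p ⊕ Fin q → ι => b (w ∘ Sum.inl) (w ∘ Sum.inr)) ha hb
  zero_mem' := In.zero
  smul_mem' c a ht := In.smul (C := C) c
    (t := fun w : Fin p ⊕ Fin q → ι => a (w ∘ Sum.inl) (w ∘ Sum.inr)) ht

variable {C}

lemma mem_M {p q : ℕ} {A : Matrix (Fin p → ι) (Fin q → ι) K} : A ∈ C.M p q ↔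
    C.In (fun w : Fin p ⊕ Fin q → ι => A (w ∘ Sum.inl) (w ∘ Sum.inr)) := Iff.rfl

lemma mem_M_iff {p q : ℕ} {A : Matrix (Fin p → ι) (Fin q → ι) K} :
    A ∈ C.M p q ↔ tenM A ∈ C.S (p + q) := by
  rw [mem_iff, mem_M]
  constructor
  · intro h
    have h1 := h.reindex finSumFinEquiv
    have h2 : tenM A = (fun w : Fin (p + q) → ι =>
        A ((w ∘ finSumFinEquiv) ∘ Sum.inl) ((w ∘ finSumFinEquiv) ∘ Sum.inr)) := by
      funext w
      rw [tenM]
      congr 1
    rw [h2]
    exact h1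
  · intro h
    have h1 := h.reindex finSumFinEquiv.symm
    have h2 : (fun w : Fin p ⊕ Fin q → ι => A (w ∘ Sum.inl) (w ∘ Sum.inr)) =
        (fun w : Fin p ⊕ Fin q → ι => tenM A (w ∘ finSumFinEquiv.symm)) := by
      funext w
      rw [tenM]
      congr 1
      · funext k; simp
      · funext k; simp
    rw [h2]
    exact h1

lemma M_transpose {p q : ℕ} {A : Matrix (Fin p → ι) (Fin q → ι) K} (h : A ∈ C.M p q) :
    A.transpose ∈ C.M q p :=
  In.reindex (Equiv.sumComm (Fin p) (Fin q)) (mem_M.1 h)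

lemma sum_sum {p q : ℕ} {N : Type} [AddCommMonoid N] (F : (Fin p ⊕ Fin q → ι) → N) :
    ∑ I, F I = ∑ I : Fin p → ι, ∑ J : Fin q → ι, F (Sum.elim I J) := by
  rw [← (Equiv.sumArrowEquivProdArrow (Fin p) (Fin q) ι).symm.sum_comp, Fintype.sum_prod_type]
  rfl

/-- The matrices of the system are stable under compositions. -/
lemma M_comp (hQ : Q.det ≠ 0) {p q r : ℕ} {A : Matrix (Fin p → ι) (Fin q → ι) K}
    {B : Matrix (Fin q → ι) (Fin r → ι) K} (hA : A ∈ C.M p q) (hB : B ∈ C.M q r) :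
    A * TP Q q * B ∈ C.M p r := by
  have hb : Function.Bijective (Sum.elim (Sum.elim (Sum.inr ∘ Sum.inl) (Sum.inl ∘ Sum.inl))
      (Sum.elim (Sum.inl ∘ Sum.inr) (Sum.inr ∘ Sum.inr)) :
      (Fin p ⊕ Fin q) ⊕ (Fin q ⊕ Fin r) → (Fin q ⊕ Fin q) ⊕ (Fin p ⊕ Fin r)) := by
    constructor
    · rintro ((a | a) | (a | a)) ((b | b) | (b | b)) h <;> simp_all
    · rintro ((a | a) | (a | a))
      · exact ⟨Sum.inl (Sum.inr a), rfl⟩
      · exact ⟨Sum.inr (Sum.inl a), rfl⟩
      · exact ⟨Sum.inl (Sum.inl a), rfl⟩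
      · exact ⟨Sum.inr (Sum.inr a), rfl⟩
  have h1 := In.contr (In.om_prod (C := C) q) (In.mul' hb (mem_M.1 hA) (mem_M.1 hB))
  have h2 : (fun w : Fin p ⊕ Fin r → ι => (A * TP Q q * B) (w ∘ Sum.inl) (w ∘ Sum.inr)) =
      (fun J : Fin p ⊕ Fin r → ι => ∑ I : Fin q ⊕ Fin q → ι, ∑ I' : Fin q ⊕ Fin q → ι,
        (∏ k, Q⁻¹ (I (Sum.inr k)) (I (Sum.inl k))) * (∏ k, Q (I k) (I' k)) *
        (A (J ∘ Sum.inl) (I' ∘ Sum.inl) * B (I' ∘ Sum.inr) (J ∘ Sum.inr))) := by
    funext J
    have key : ∀ I' : Fin q ⊕ Fin q → ι, ∑ I : Fin q ⊕ Fin q → ι,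
        (∏ k, Q⁻¹ (I (Sum.inr k)) (I (Sum.inl k))) * (∏ k, Q (I k) (I' k)) =
          TP Q q (I' ∘ Sum.inl) (I' ∘ Sum.inr) := by
      intro I'
      rw [sum_sum]
      have e1 : ∀ I J : Fin q → ι, (∏ k, Q⁻¹ ((Sum.elim I J : Fin q ⊕ Fin q → ι) (Sum.inr k))
          ((Sum.elim I J : Fin q ⊕ Fin q → ι) (Sum.inl k))) *
          (∏ k, Q ((Sum.elim I J : Fin q ⊕ Fin q → ι) k) (I' k)) =
          TP Q⁻¹ q J I * TP Q q I (I' ∘ Sum.inl) * TP Q q J (I' ∘ Sum.inr) := by
        intro I J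
        rw [Fintype.prod_sum_type]
        simp only [Sum.elim_inl, Sum.elim_inr, TP_apply, Function.comp_apply]
        ring
      simp only [e1]
      rw [Finset.sum_comm]
      have e2 : ∀ J : Fin q → ι, ∑ I : Fin q → ι, TP Q⁻¹ q J I * TP Q q I (I' ∘ Sum.inl) *
          TP Q q J (I' ∘ Sum.inr) = (TP Q⁻¹ q * TP Q q) J (I' ∘ Sum.inl) *
          TP Q q J (I' ∘ Sum.inr) := by
        intro J
        rw [Matrix.mul_apply, Finset.sum_mul]
      simp only [e2, (TP_det hQ q).2]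
      rw [Finset.sum_eq_single (I' ∘ Sum.inl)]
      · rw [Matrix.one_apply_eq, one_mul]
      · intro J _ hJ
        rw [Matrix.one_apply_ne hJ, zero_mul]
      · intro h; exact absurd (Finset.mem_univ _) h
    rw [Finset.sum_comm]
    simp only [← Finset.sum_mul, key]
    rw [sum_sum, Matrix.mul_apply, Finset.sum_comm]
    refine Finset.sum_congr rfl fun L _ => ?_
    rw [Matrix.mul_apply, Finset.sum_mul]
    refine Finset.sum_congr rfl fun L' _ => ?_
    simp only [Sum.elim_comp_inl, Sum.elim_comp_inr]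
    ring
  rw [mem_M, h2]
  exact h1

lemma M_one (n : ℕ) : TP Q⁻¹ n ∈ C.M n n := by
  have h1 := M_transpose (C := C) (p := n) (q := n)
    (A := Matrix.of fun I J : Fin n → ι => ∏ k, Q⁻¹ (J k) (I k)) (In.om_prod n)
  exact h1

/-- The other composition. -/
lemma M_comp' (hQ : Q.det ≠ 0) {p q r : ℕ} {A : Matrix (Fin p → ι) (Fin q → ι) K}
    {B : Matrix (Fin q → ι) (Fin r → ι) K} (hA : A ∈ C.M p q) (hB : B ∈ C.M q r) :
    A * (TP Q q).transpose * B ∈ C.M p r := by
  have h1 := M_transpose (M_comp hQ (M_transpose hB) (M_transpose hA))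
  rw [Matrix.transpose_mul, Matrix.transpose_mul, Matrix.transpose_transpose,
    Matrix.transpose_transpose, ← Matrix.mul_assoc] at h1
  exact h1

/-- The form on the tensors in terms of traces. -/
lemma bf_tenM {p q : ℕ} (A B : Matrix (Fin p → ι) (Fin q → ι) K) :
    bf (TP Q (p + q)) (tenM A) (tenM B) =
      (A * TP Q q * B.transpose * (TP Q p).transpose).trace := by
  rw [bf, sum_append, Matrix.trace]
  refine Finset.sum_congr rfl fun I _ => ?_
  rw [Matrix.diag_apply, Matrix.mul_apply]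
  have h1 : ∀ J : Fin q → ι, ∑ w : Fin (p + q) → ι, tenM A (Fin.append I J) *
      TP Q (p + q) (Fin.append I J) w * tenM B w = ∑ I' : Fin p → ι, ∑ J' : Fin q → ι,
        A I J * TP Q q J J' * B I' J' * TP Q p I I' := by
    intro J
    rw [sum_append]
    refine Finset.sum_congr rfl fun I' _ => Finset.sum_congr rfl fun J' _ => ?_
    rw [TP_apply, Fin.prod_univ_add]
    simp only [tenM, Fin.append_left, Fin.append_right, TP_apply]
    ring
  simp only [h1]
  rw [Finset.sum_comm]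
  refine Finset.sum_congr rfl fun I' _ => ?_
  rw [Matrix.mul_apply, Finset.sum_mul, Finset.sum_comm]
  refine Finset.sum_congr rfl fun J' _ => ?_
  rw [Matrix.mul_apply, Finset.sum_mul, Finset.sum_mul]
  refine Finset.sum_congr rfl fun J _ => ?_
  rw [Matrix.transpose_apply, Matrix.transpose_apply]

/-- Nondegeneracy in terms of traces. -/
lemma eq_zero_of_trace (hQ : Q.det ≠ 0) {p q : ℕ}
    (hnd : ∀ v ∈ C.S (p + q), (∀ w ∈ C.S (p + q), bf (TP Q (p + q)) v w = 0) → v = 0)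
    {A : Matrix (Fin p → ι) (Fin q → ι) K} (hA : A ∈ C.M p q)
    (h : ∀ B ∈ C.M q p, (A * TP Q q * B * TP Q p).trace = 0) : A = 0 := by
  have h1 : tenM A = 0 := by
    apply hnd _ (mem_M_iff.1 hA)
    intro w hw
    obtain ⟨B, rfl⟩ : ∃ B : Matrix (Fin p → ι) (Fin q → ι) K, w = tenM B := by
      refine ⟨Matrix.of fun I J => w (Fin.append I J), ?_⟩
      funext L
      rw [tenM, Matrix.of_apply]
      congr 1
      exact (Fin.append_castAdd_natAdd (f := L)).symm
    rw [bf_tenM]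
    have hB := mem_M_iff.2 hw
    have h2 := h _ (M_comp' hQ (M_transpose hB) (M_one p))
    rw [← h2]
    congr 1
    rw [Matrix.mul_assoc _ _ (TP Q p), Matrix.mul_assoc _ _ (TP Q p), (TP_det hQ p).2,
      Matrix.mul_one, Matrix.mul_assoc, Matrix.mul_assoc]
  apply tenM_inj
  rw [h1]
  rfl

end CSys

end Pool.Agent.Q60.NP
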