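import Pool.Agent.Q60.NP.Sys

/-!
# The idempotent of the infinitesimal stabiliser
-/

set_option linter.unusedSectionVars false

namespace Pool.Agent.Q60.NP

open Module Matrix Pool.Agent.Q60.ED

section Abs

variable {K : Type} [Field K] {N : Type} [Fintype N] [DecidableEq N]

/-- Left ideals of an algebra of matrices with nondegenerate trace form are generated by
idempotents. -/
theorem exists_idem (B : Subalgebra K (Matrix N N K))
    (hB : ∀ b ∈ B, (∀ c ∈ B, (b * c).trace = 0) → b = 0) (J : Submodule K (Matrix N N K))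
    (hJB : J ≤ Subalgebra.toSubmodule B) (hJ : ∀ b ∈ B, ∀ x ∈ J, b * x ∈ J) :
    ∃ e ∈ J, ∀ x ∈ J, x * e = x := by
  have h0 : IsArtinianRing B := IsArtinianRing.of_finite K B
  have h1 : IsSemisimpleRing B := by
    rw [IsArtinianRing.isSemisimpleRing_iff_jacobson, eq_bot_iff]
    intro j hj
    obtain ⟨n, hn⟩ := IsArtinianRing.isNilpotent_jacobson_bot (R := B)
    rw [Ideal.mem_bot]
    apply Subtype.ext
    apply hB _ j.2
    intro c hc
    have h2 : (⟨c, hc⟩ : B) * j ∈ Ring.jacobson B := Ideal.mul_mem_left _ _ hj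
    have h3 : ((⟨c, hc⟩ : B) * j) ^ n = 0 := by
      have h4 : ((⟨c, hc⟩ : B) * j) ^ n ∈ (Ideal.jacobson (⊥ : Ideal B)) ^ n := by
        apply Ideal.pow_mem_pow
        rw [Ideal.jacobson_bot]
        exact h2
      rw [hn] at h4
      exact h4
    have h4 : IsNilpotent (c * (j : Matrix N N K)) := ⟨n, by
      have := congrArg (fun x : B => (x : Matrix N N K)) h3
      simpa using this⟩
    have h5 := (Matrix.isNilpotent_trace_of_isNilpotent h4).eq_zero
    rw [Matrix.trace_mul_comm]
    exact h5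
  let I : Ideal B :=
    { carrier := {x | (x : Matrix N N K) ∈ J}
      add_mem' := fun ha hb => Submodule.add_mem _ ha hb
      zero_mem' := Submodule.zero_mem _
      smul_mem' := fun b x hx => hJ _ b.2 _ hx }
  obtain ⟨e, he, hI⟩ := IsSemisimpleRing.ideal_eq_span_idempotent I
  have heI : e ∈ I := by rw [hI]; exact Ideal.mem_span_singleton_self e
  refine ⟨e, heI, fun x hx => ?_⟩
  have hxB : x ∈ B := hJB hx
  have hxI : (⟨x, hxB⟩ : B) ∈ I := hx
  rw [hI, Ideal.mem_span_singleton'] at hxI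
  obtain ⟨a, ha⟩ := hxI
  have h2 : (⟨x, hxB⟩ : B) * e = ⟨x, hxB⟩ := by
    rw [← ha, mul_assoc, he.eq]
  have := congrArg (fun x : B => (x : Matrix N N K)) h2
  simpa using this

/-- The rank of an idempotent matrix is its trace. -/
lemma finrank_ker_of_idem [CharZero K] {e : Matrix N N K} (he : e * e = e) {r : ℕ}
    (hr : e.trace = r) : finrank K (LinearMap.ker (Matrix.toLin' e)) + r = Fintype.card N := by
  have h1 : IsIdempotentElem (Matrix.toLin' e) := by
    rw [IsIdempotentElem]
    change Matrix.toLin' e ∘ₗ Matrix.toLin' e = _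
    rw [← Matrix.toLin'_mul, he]
  have h2 := (LinearMap.IsIdempotentElem.isProj_range _ h1).trace
  have h3 : LinearMap.trace K _ (Matrix.toLin' e) = e.trace := by
    rw [LinearMap.trace_eq_matrix_trace K (Pi.basisFun K N), LinearMap.toMatrix_eq_toMatrix',
      LinearMap.toMatrix'_toLin']
  rw [h3, hr] at h2
  have h4 : r = finrank K (LinearMap.range (Matrix.toLin' e)) := by exact_mod_cast h2
  have h5 := LinearMap.finrank_range_add_finrank_ker (Matrix.toLin' e)
  rw [Module.finrank_fintype_fun_eq_card] at h5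
  omega

lemma exists_trace_idem [CharZero K] {e : Matrix N N K} (he : e * e = e) :
    ∃ r : ℕ, e.trace = r := by
  have h1 : IsIdempotentElem (Matrix.toLin' e) := by
    rw [IsIdempotentElem]
    change Matrix.toLin' e ∘ₗ Matrix.toLin' e = _
    rw [← Matrix.toLin'_mul, he]
  have h2 := (LinearMap.IsIdempotentElem.isProj_range _ h1).trace
  have h3 : LinearMap.trace K _ (Matrix.toLin' e) = e.trace := by
    rw [LinearMap.trace_eq_matrix_trace K (Pi.basisFun K N), LinearMap.toMatrix_eq_toMatrix',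
      LinearMap.toMatrix'_toLin']
  exact ⟨_, h3 ▸ h2⟩

end Abs

section Bs

variable {R : Type} [CommRing R] {ι : Type} [Fintype ι] [DecidableEq ι]

/-- The matrix which computes the infinitesimal action on a tensor. -/
def bs (Ω : Matrix ι ι R) {m : ℕ} (s : (Fin m → ι) → R) : Matrix (Fin m → ι) (Fin 2 → ι) R :=
  Matrix.of fun L P => ∑ k, Ω (L k) (P 0) * s (Function.update L k (P 1))

lemma bs_map {R' : Type} [CommRing R'] (φ : R →+* R') (Ω : Matrix ι ι R) {m : ℕ}
    (s : (Fin m → ι) → R) : (bs Ω s).map φ = bs (Ω.map φ) fun L => φ (s L) := by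
  ext L P
  simp [bs]

/-- The vector of a matrix. -/
def vec (Y : Matrix ι ι R) : (Fin 2 → ι) → R := fun w => Y (w 0) (w 1)

lemma vec_inj {Y Y' : Matrix ι ι R} (h : vec Y = vec Y') : Y = Y' := by
  ext i j
  exact congrFun h ![i, j]

lemma aop_apply {K : Type} [Field K] (A : Matrix ι ι K) {n : ℕ} (t : (Fin n → ι) → K)
    (L : Fin n → ι) : aop A t L = ∑ k, ∑ j, A (L k) j * t (Function.update L k j) := by
  rw [aop, Finset.sum_comm]
  refine Finset.sum_congr rfl fun k _ => ?_
  rw [Finset.sum_comm]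
  rw [Finset.sum_eq_single (L k)]
  · rw [← Finset.sum_filter]
    refine Finset.sum_bij' (fun J _ => J k) (fun j _ => Function.update L k j) ?_ ?_ ?_ ?_ ?_
    · intro J _; exact Finset.mem_univ _
    · intro j _
      rw [Finset.mem_filter]
      refine ⟨Finset.mem_univ _, ?_⟩
      rw [Function.update_idem, Function.update_eq_self]
    · intro J hJ
      rw [Finset.mem_filter] at hJ
      rw [← hJ.2, Function.update_idem, Function.update_eq_self]
    · intro j _
      rw [Function.update_self]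
    · intro J hJ
      rw [Finset.mem_filter] at hJ
      have h1 : Function.update L k (J k) = J := by
        rw [← hJ.2, Function.update_idem, Function.update_eq_self]
      rw [h1]
  · intro c _ hc
    refine Finset.sum_eq_zero fun J _ => if_neg fun h => hc ?_
    rw [← h, Function.update_self]
  · intro h; exact absurd (Finset.mem_univ _) h

lemma TP_two_vec (Q Y : Matrix ι ι R) : (TP Q 2).mulVec (vec Y) = vec (Q * Y * Q.transpose) := by
  funext w
  rw [Matrix.mulVec, dotProduct, Pool.Agent.Q60.TD.sum_fin2, vec, Matrix.mul_apply]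
  rw [Finset.sum_comm]
  refine Finset.sum_congr rfl fun j _ => ?_
  rw [Matrix.mul_apply, Finset.sum_mul]
  refine Finset.sum_congr rfl fun i _ => ?_
  rw [TP_apply, Fin.prod_univ_two, Matrix.transpose_apply, vec]
  simp
  ring

/-- The infinitesimal action in terms of contractions. -/
lemma bs_mulVec {K : Type} [Field K] (Ω Q Y : Matrix ι ι K) {m : ℕ} (s : (Fin m → ι) → K) :
    (bs Ω s * TP Q 2).mulVec (vec Y) = aop (Ω * (Q * Y * Q.transpose)) s := by
  rw [← Matrix.mulVec_mulVec, TP_two_vec]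
  funext L
  rw [aop_apply, Matrix.mulVec, dotProduct, Pool.Agent.Q60.TD.sum_fin2]
  simp only [bs, Matrix.of_apply, Finset.sum_mul, vec, Matrix.cons_val_zero, Matrix.cons_val_one]
  rw [Finset.sum_comm]
  have h1 : ∀ (k : Fin m) (j : ι), (Ω * (Q * Y * Q.transpose)) (L k) j *
      s (Function.update L k j) = ∑ i, Ω (L k) i * s (Function.update L k j) *
        (Q * Y * Q.transpose) i j := by
    intro k j
    rw [Matrix.mul_apply, Finset.sum_mul]
    exact Finset.sum_congr rfl fun i _ => by ring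
  simp only [h1]
  conv_rhs => rw [Finset.sum_comm]
  refine Finset.sum_congr rfl fun j _ => ?_
  rw [Finset.sum_comm]

end Bs

namespace CSys

variable {K : Type} [Field K] {ι : Type} [Fintype ι] [DecidableEq ι] {Q : Matrix ι ι K}
  {C : CSys Q}

lemma bs_mem {m : ℕ} {s : (Fin m → ι) → K} (hs : s ∈ C.S m) : bs Q⁻¹ s ∈ C.M m 2 := by
  have h1 : ∀ k : Fin m, C.In (fun w : Fin m ⊕ Fin 2 → ι =>
      Q⁻¹ (w (Sum.inl k)) (w (Sum.inr 0)) * s (Function.update (w ∘ Sum.inl) k (w (Sum.inr 1)))) := by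
    intro k
    have hb : Function.Bijective (Sum.elim (![Sum.inl k, Sum.inr 0] : Fin 2 → Fin m ⊕ Fin 2)
        (fun l => if l = k then Sum.inr 1 else Sum.inl l : Fin m → Fin m ⊕ Fin 2)) := by
      constructor
      · rintro (a | a) (b | b) h
        · fin_cases a <;> fin_cases b <;> simp_all
        · fin_cases a
          · simp only [Sum.elim_inl, Sum.elim_inr] at h
            by_cases hb : b = k
            · simp [hb] at h
            · simp [hb] at h
              exact absurd h.symm hb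
          · simp only [Sum.elim_inl, Sum.elim_inr] at h
            by_cases hb : b = k
            · simp [hb] at h
            · simp [hb] at h
        · fin_cases b
          · simp only [Sum.elim_inl, Sum.elim_inr] at h
            by_cases hb : a = k
            · simp [hb] at h
            · simp [hb] at h
          · simp only [Sum.elim_inl, Sum.elim_inr] at h
            by_cases hb : a = k
            · simp [hb] at h
            · simp [hb] at h
        · simp only [Sum.elim_inr] at h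
          by_cases ha : a = k <;> by_cases hb : b = k
          · rw [ha, hb]
          · simp [ha, hb] at h
          · simp [ha, hb] at h
          · simp [ha, hb] at h
            rw [h]
      · rintro (a | a)
        · by_cases ha : a = k
          · exact ⟨Sum.inl 0, by rw [ha]; rfl⟩
          · exact ⟨Sum.inr a, by simp [ha]⟩
        · fin_cases a
          · exact ⟨Sum.inl 1, rfl⟩
          · exact ⟨Sum.inr k, by simp⟩
    have h2 := In.mul' hb (In.om1 (C := C)) (mem_iff.1 hs)
    convert h2 using 2 with w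
    congr 2
    funext l
    rw [Function.comp_apply, Function.update_apply]
    split_ifs with hl
    · rfl
    · rfl
  rw [mem_M]
  exact In.sum Finset.univ fun k _ => h1 k

variable (C)

/-- The operators on the tensors of degree two. -/
def opAlg (hQ : Q.det ≠ 0) : Subalgebra K (Matrix (Fin 2 → ι) (Fin 2 → ι) K) where
  carrier := {B | B * TP Q⁻¹ 2 ∈ C.M 2 2}
  mul_mem' {a b} ha hb := by
    have h1 := M_comp hQ ha hb
    have h2 : a * TP Q⁻¹ 2 * TP Q 2 * (b * TP Q⁻¹ 2) = a * b * TP Q⁻¹ 2 := by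
      rw [Matrix.mul_assoc a, (TP_det hQ 2).2, Matrix.mul_one, Matrix.mul_assoc]
    rw [h2] at h1
    exact h1
  add_mem' {a b} ha hb := by
    have h1 := Submodule.add_mem (C.M 2 2) (x := a * TP Q⁻¹ 2) (y := b * TP Q⁻¹ 2) ha hb
    rw [← Matrix.add_mul] at h1
    exact h1
  algebraMap_mem' c := by
    have h1 := Submodule.smul_mem _ c (M_one (C := C) 2)
    have h2 : algebraMap K (Matrix (Fin 2 → ι) (Fin 2 → ι) K) c * TP Q⁻¹ 2 = c • TP Q⁻¹ 2 := by
      rw [← Algebra.smul_def]
    change algebraMap K (Matrix (Fin 2 → ι) (Fin 2 → ι) K) c * TP Q⁻¹ 2 ∈ C.M 2 2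
    rw [h2]
    exact h1

variable {C}

lemma mem_opAlg (hQ : Q.det ≠ 0) {B : Matrix (Fin 2 → ι) (Fin 2 → ι) K} :
    B ∈ C.opAlg hQ ↔ B * TP Q⁻¹ 2 ∈ C.M 2 2 := Iff.rfl

lemma mul_mem_opAlg (hQ : Q.det ≠ 0) {A : Matrix (Fin 2 → ι) (Fin 2 → ι) K} (hA : A ∈ C.M 2 2) :
    A * TP Q 2 ∈ C.opAlg hQ := by
  rw [mem_opAlg, Matrix.mul_assoc, (TP_det hQ 2).1, Matrix.mul_one]
  exact hA

variable (C)

/-- The generators of the left ideal. -/
def gens (M : ℕ) : Set (Matrix (Fin 2 → ι) (Fin 2 → ι) K) :=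
  {x | ∃ m ≤ M, ∃ s ∈ C.S m, ∃ u ∈ C.M 2 m, x = u * TP Q m * bs Q⁻¹ s * TP Q 2}

variable {C}

/-- **The idempotent.** -/
theorem exists_e (hQ : Q.det ≠ 0) {M : ℕ} (hM : 2 ≤ M)
    (hnd : ∀ n ≤ M + 2, ∀ v ∈ C.S n, (∀ w ∈ C.S n, bf (TP Q n) v w = 0) → v = 0) :
    ∃ e ∈ Submodule.span K (C.gens M), e * e = e ∧
      ∀ m ≤ M, ∀ s ∈ C.S m, bs Q⁻¹ s * TP Q 2 * e = bs Q⁻¹ s * TP Q 2 := by
  have hsub : C.gens M ⊆ (C.opAlg hQ : Set _) := by
    rintro _ ⟨m, hm, s, hs, u, hu, rfl⟩
    exact mul_mem_opAlg hQ (M_comp hQ hu (bs_mem hs))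
  have hJB : Submodule.span K (C.gens M) ≤ Subalgebra.toSubmodule (C.opAlg hQ) :=
    Submodule.span_le.2 hsub
  have hJ : ∀ b ∈ C.opAlg hQ, ∀ x ∈ Submodule.span K (C.gens M),
      b * x ∈ Submodule.span K (C.gens M) := by
    intro b hb x hx
    induction hx using Submodule.span_induction with
    | mem x hx =>
      obtain ⟨m, hm, s, hs, u, hu, rfl⟩ := hx
      have h1 : b * (u * TP Q m * bs Q⁻¹ s * TP Q 2) =
          (b * TP Q⁻¹ 2 * TP Q 2 * u) * TP Q m * bs Q⁻¹ s * TP Q 2 := by
        rw [Matrix.mul_assoc b (TP Q⁻¹ 2), (TP_det hQ 2).2, Matrix.mul_one]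
        simp only [Matrix.mul_assoc]
      rw [h1]
      exact Submodule.subset_span ⟨m, hm, s, hs, _, M_comp hQ ((mem_opAlg hQ).1 hb) hu, rfl⟩
    | zero => rw [Matrix.mul_zero]; exact Submodule.zero_mem _
    | add x y _ _ hx hy => rw [Matrix.mul_add]; exact Submodule.add_mem _ hx hy
    | smul c x _ hx => rw [Matrix.mul_smul]; exact Submodule.smul_mem _ c hx
  obtain ⟨e, he, hxe⟩ := exists_idem (C.opAlg hQ) (fun b hb h => by
    have h1 : b * TP Q⁻¹ 2 = 0 := by
      refine eq_zero_of_trace hQ (hnd (2 + 2) (by omega)) hb fun B hB => ?_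
      have h2 := h _ (mul_mem_opAlg hQ hB)
      rw [Matrix.mul_assoc b, (TP_det hQ 2).2, Matrix.mul_one, Matrix.mul_assoc]
      exact h2
    have h3 := congrArg (fun A => A * TP Q 2) h1
    simp only [Matrix.mul_assoc, (TP_det hQ 2).2, Matrix.mul_one, Matrix.zero_mul] at h3
    exact h3) _ hJB hJ
  refine ⟨e, he, hxe e he, fun m hm s hs => ?_⟩
  have he' := hJB he
  have h1 : bs Q⁻¹ s * TP Q 2 * (1 - e) * TP Q⁻¹ 2 = 0 := by
    have h2 : bs Q⁻¹ s * TP Q 2 * (1 - e) * TP Q⁻¹ 2 ∈ C.M m 2 := by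
      have h3 := M_comp hQ (bs_mem hs) ((mem_opAlg hQ).1
        ((C.opAlg hQ).sub_mem (C.opAlg hQ).one_mem he'))
      rw [← Matrix.mul_assoc] at h3
      exact h3
    refine eq_zero_of_trace hQ (hnd (m + 2) (by omega)) h2 fun B hB => ?_
    have h4 : B * TP Q m * bs Q⁻¹ s * TP Q 2 * e = B * TP Q m * bs Q⁻¹ s * TP Q 2 :=
      hxe _ (Submodule.subset_span ⟨m, hm, s, hs, B, hB, rfl⟩)
    have h5 : bs Q⁻¹ s * TP Q 2 * (1 - e) * TP Q⁻¹ 2 * TP Q 2 =
        bs Q⁻¹ s * TP Q 2 * (1 - e) := by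
      rw [Matrix.mul_assoc, (TP_det hQ 2).2, Matrix.mul_one]
    rw [h5, Matrix.mul_assoc _ B, Matrix.trace_mul_comm]
    have h6 : B * TP Q m * (bs Q⁻¹ s * TP Q 2 * (1 - e)) = 0 := by
      rw [Matrix.mul_sub, Matrix.mul_one, Matrix.mul_sub]
      rw [sub_eq_zero]
      simp only [← Matrix.mul_assoc]
      exact h4.symm
    rw [h6, Matrix.trace_zero]
  have h7 := congrArg (fun A => A * TP Q 2) h1
  simp only [Matrix.zero_mul] at h7
  rw [Matrix.mul_assoc, (TP_det hQ 2).2, Matrix.mul_one, Matrix.mul_sub, Matrix.mul_one,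
    sub_eq_zero] at h7
  exact h7.symm

end CSys

end Pool.Agent.Q60.NP
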