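import Pool.Agent.Q60.NP.Gen5

/-!
# The powers of the square of the determinant are not in the ideal of the radical
-/

set_option linter.unusedSectionVars false

namespace Pool.Agent.Q60.NP

open MvPolynomial Module Matrix Pool.Agent.Q60.ED

section Vol

variable {R : Type} [CommRing R] {ι : Type} [Fintype ι] [DecidableEq ι]

/-- The volume tensor. -/
def vl (R : Type) [CommRing R] (w : ι → ι) : R :=
  (Matrix.of fun i j => if w i = j then (1 : R) else 0).det

lemma vl_map {R' : Type} [CommRing R'] (φ : R →+* R') (w : ι → ι) : φ (vl R w) = vl R' w := by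
  rw [vl, vl, RingHom.map_det]
  congr 1
  ext i j
  simp only [RingHom.mapMatrix_apply, Matrix.map_apply, Matrix.of_apply]
  split_ifs
  · exact map_one _
  · exact map_zero _

lemma vl_id : vl R (id : ι → ι) = 1 := by
  rw [vl]
  have h : (Matrix.of fun i j => if (id i : ι) = j then (1 : R) else 0) = (1 : Matrix ι ι R) := by
    ext i j
    rw [Matrix.of_apply, Matrix.one_apply]
    rfl
  rw [h, det_one]

lemma det_rows (g : Matrix ι ι R) (w : ι → ι) :
    (Matrix.of fun i j => g (w i) j).det = vl R w * g.det := by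
  rw [vl, ← det_mul]
  congr 1
  ext i j
  rw [Matrix.mul_apply, Matrix.of_apply, Finset.sum_eq_single (w i)]
  · rw [Matrix.of_apply, if_pos rfl, one_mul]
  · intro k _ hk
    rw [Matrix.of_apply, if_neg (Ne.symm hk), zero_mul]
  · intro h; exact absurd (Finset.mem_univ _) h

lemma sum_vl (g : Matrix ι ι R) (w : ι → ι) :
    ∑ J : ι → ι, (∏ i, g (w i) (J i)) * vl R J = g.det * vl R w := by
  rw [mul_comm, ← det_rows]
  have h1 : (Matrix.of fun i j => g (w i) j).det =
      Matrix.detRowAlternating (fun i => ∑ j, g (w i) j • (Pi.single j 1 : ι → R)) := by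
    have h2 : (Matrix.of fun i j => g (w i) j) =
        (fun i => ∑ j, g (w i) j • (Pi.single j 1 : ι → R)) := by
      ext i j
      rw [Matrix.of_apply, Finset.sum_apply, Finset.sum_eq_single j]
      · simp
      · intro k _ hk
        rw [Pi.smul_apply, Pi.single_eq_of_ne (Ne.symm hk), smul_zero]
      · intro h; exact absurd (Finset.mem_univ _) h
    rw [h2]
    rfl
  rw [h1]
  have h3 := (Matrix.detRowAlternating (n := ι) (R := R)).toMultilinearMap.map_sum
    (fun i j => g (w i) j • (Pi.single j 1 : ι → R))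
  refine Eq.trans ?_ h3.symm
  refine Finset.sum_congr rfl fun J _ => ?_
  have h4 := (Matrix.detRowAlternating (n := ι) (R := R)).toMultilinearMap.map_smul_univ
    (fun i => g (w i) (J i)) (fun i => (Pi.single (J i) 1 : ι → R))
  refine Eq.trans ?_ h4.symm
  rw [smul_eq_mul]
  congr 1
  change _ = Matrix.det _
  rw [vl]
  congr 1
  ext i j
  rw [Matrix.of_apply, Pi.single_apply]
  by_cases h : J i = j
  · rw [if_pos h, if_pos h.symm]
  · rw [if_neg h, if_neg (Ne.symm h)]

lemma sum_sum' {N : Type} [AddCommMonoid N] {α β : Type} [Fintype α] [Fintype β] [DecidableEq α]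
    [DecidableEq β] (F : (α ⊕ β → ι) → N) :
    ∑ I, F I = ∑ I : α → ι, ∑ J : β → ι, F (Sum.elim I J) := by
  rw [← (Equiv.sumArrowEquivProdArrow α β ι).symm.sum_comp, Fintype.sum_prod_type]
  rfl

/-- The square of the volume tensor. -/
def vl2 (R : Type) [CommRing R] (w : ι ⊕ ι → ι) : R := vl R (w ∘ Sum.inl) * vl R (w ∘ Sum.inr)

lemma sum_vl2 (g : Matrix ι ι R) (w : ι ⊕ ι → ι) :
    ∑ J : ι ⊕ ι → ι, (∏ i, g (w i) (J i)) * vl2 R J = g.det ^ 2 * vl2 R w := by
  rw [sum_sum']
  have h1 : ∀ I J : ι → ι, (∏ i, g (w i) ((Sum.elim I J : ι ⊕ ι → ι) i)) *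
      vl2 R (Sum.elim I J) = ((∏ i, g ((w ∘ Sum.inl) i) (I i)) * vl R I) *
        ((∏ i, g ((w ∘ Sum.inr) i) (J i)) * vl R J) := by
    intro I J
    rw [Fintype.prod_sum_type, vl2, Sum.elim_comp_inl, Sum.elim_comp_inr]
    simp only [Sum.elim_inl, Sum.elim_inr, Function.comp_apply]
    ring
  simp only [h1]
  rw [← Finset.sum_mul_sum, sum_vl, sum_vl, vl2]
  ring

end Vol

namespace CSys

variable {K : Type} [Field K] {ι : Type} [Fintype ι] [DecidableEq ι] {Q : Matrix ι ι K}
  {C : CSys Q}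

lemma vl2_In (hQ : Q.det ≠ 0) : C.In (vl2 K : (ι ⊕ ι → ι) → K) := by
  have h1 : ∀ σ : Equiv.Perm ι, C.In (fun w : ι ⊕ ι → ι =>
      ∏ i, Q⁻¹ (w (Sum.inl (σ i))) (w (Sum.inr i))) := by
    intro σ
    let f := (Fintype.equivFin ι).symm
    have h2 := (In.om_prod (C := C) (Fintype.card ι)).reindex
      ((Equiv.sumComm _ _).trans (Equiv.sumCongr (f.trans σ) f))
    convert h2 using 2 with w
    rw [← Equiv.prod_comp f]
    rfl
  have h2 : (vl2 K : (ι ⊕ ι → ι) → K) = Q.det • fun w : ι ⊕ ι → ι => ∑ σ ∈ Finset.univ,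
      ((Equiv.Perm.sign σ : ℤ) : K) • ∏ i, Q⁻¹ (w (Sum.inl (σ i))) (w (Sum.inr i)) := by
    funext w
    have h3 : (Matrix.of fun i j => Q⁻¹ (w (Sum.inl i)) (w (Sum.inr j))).det =
        vl K (w ∘ Sum.inl) * (Q⁻¹.det * vl K (w ∘ Sum.inr)) := by
      have h4 := det_rows (Matrix.of fun i j => Q⁻¹ i (w (Sum.inr j))) (w ∘ Sum.inl)
      have h5 : (Matrix.of fun i j => Q⁻¹ i (w (Sum.inr j))).det =
          Q⁻¹.det * vl K (w ∘ Sum.inr) := by
        have h6 := det_rows (Q⁻¹).transpose (w ∘ Sum.inr)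
        rw [det_transpose] at h6
        rw [mul_comm, ← h6, ← det_transpose]
        rfl
      rw [h5] at h4
      exact h4
    rw [Pi.smul_apply, smul_eq_mul]
    have h7 : ∑ σ ∈ Finset.univ, ((Equiv.Perm.sign σ : ℤ) : K) •
        ∏ i, Q⁻¹ (w (Sum.inl (σ i))) (w (Sum.inr i)) =
        (Matrix.of fun i j => Q⁻¹ (w (Sum.inl i)) (w (Sum.inr j))).det := by
      rw [Matrix.det_apply]
      refine Finset.sum_congr rfl fun σ _ => ?_
      rw [Units.smul_def, zsmul_eq_mul, smul_eq_mul]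
      rfl
    rw [h7, h3, Matrix.det_nonsing_inv, Ring.inverse_eq_inv']
    rw [mul_left_comm, ← mul_assoc Q.det, mul_inv_cancel₀ hQ, one_mul]
    rfl
  rw [h2]
  exact (In.sum Finset.univ fun σ _ => (h1 σ).smul _).smul _

/-- The powers of the square of the volume tensor. -/
lemma exists_vpow (hQ : Q.det ≠ 0) (k : ℕ) : ∃ (N : ℕ) (t : (Fin N → ι) → K) (I0 : Fin N → ι),
    t ∈ C.S N ∧ t I0 = 1 ∧ (∀ J, ∃ z : ℤ, t J = z) ∧
    ∀ (R : Type) [CommRing R] [Algebra K R] (g : Matrix ι ι R) (I : Fin N → ι),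
      ∑ J, (∏ l, g (I l) (J l)) * algebraMap K R (t J) =
        (g.det ^ 2) ^ k * algebraMap K R (t I) := by
  induction k with
  | zero =>
    refine ⟨0, fun _ => 1, Fin.elim0, C.one, rfl, fun _ => ⟨1, by simp⟩, ?_⟩
    intro R _ _ g I
    rw [Fintype.sum_unique, Finset.univ_eq_empty, Finset.prod_empty, pow_zero]
  | succ k ih =>
    obtain ⟨N, t, I0, h1, h2, h3, h4⟩ := ih
    let e := (Fintype.equivFin (ι ⊕ ι)).symm
    let n := Fintype.card (ι ⊕ ι)
    let t0 : (Fin n → ι) → K := fun J => vl2 K (J ∘ e.symm)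
    have h1' : t0 ∈ C.S n := vl2_In hQ n e
    have h2' : t0 ((Sum.elim id id : ι ⊕ ι → ι) ∘ e) = 1 := by
      have e1 : ((Sum.elim id id : ι ⊕ ι → ι) ∘ e) ∘ e.symm = Sum.elim id id := by
        funext x; simp
      change vl2 K (((Sum.elim id id : ι ⊕ ι → ι) ∘ e) ∘ e.symm) = 1
      rw [e1, vl2, Sum.elim_comp_inl, Sum.elim_comp_inr, vl_id, mul_one]
    have h3' : ∀ J, ∃ z : ℤ, t0 J = z := by
      intro J
      refine ⟨vl2 ℤ (J ∘ e.symm), ?_⟩
      change vl2 K (J ∘ e.symm) = _
      rw [vl2, vl2, Int.cast_mul]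
      congr 1
      · exact (vl_map (Int.castRingHom K) _).symm
      · exact (vl_map (Int.castRingHom K) _).symm
    have h4' : ∀ (R : Type) [CommRing R] [Algebra K R] (g : Matrix ι ι R) (I : Fin n → ι),
        ∑ J, (∏ l, g (I l) (J l)) * algebraMap K R (t0 J) =
          g.det ^ 2 * algebraMap K R (t0 I) := by
      intro R _ _ g I
      have e1 : ∀ w, algebraMap K R (vl2 K w) = vl2 R (w : ι ⊕ ι → ι) := by
        intro w
        rw [vl2, vl2, map_mul]
        congr 1
        · exact vl_map (algebraMap K R) _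
        · exact vl_map (algebraMap K R) _
      change ∑ J : Fin n → ι, (∏ l, g (I l) (J l)) * algebraMap K R (vl2 K (J ∘ e.symm)) =
        g.det ^ 2 * algebraMap K R (vl2 K (I ∘ e.symm))
      rw [e1, ← sum_vl2, ← (Equiv.arrowCongr e.symm (Equiv.refl ι)).sum_comp]
      refine Finset.sum_congr rfl fun w _ => ?_
      have e2 : (Equiv.arrowCongr e.symm (Equiv.refl ι)) w = w ∘ e := rfl
      have e3 : (w ∘ e) ∘ e.symm = w := by funext x; simp
      rw [e2, e3, e1]
      congr 1
      rw [← Equiv.prod_comp e]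
      refine Finset.prod_congr rfl fun l _ => ?_
      simp
    refine ⟨N + n, tmul t t0, Fin.append I0 ((Sum.elim id id : ι ⊕ ι → ι) ∘ e), C.mul h1 h1',
      ?_, ?_, ?_⟩
    · rw [ED.tmul]
      simp only [Fin.append_left, Fin.append_right]
      change t I0 * t0 ((Sum.elim id id : ι ⊕ ι → ι) ∘ e) = 1
      rw [h2, h2', mul_one]
    · intro J
      obtain ⟨z, hz⟩ := h3 fun k => J (Fin.castAdd n k)
      obtain ⟨z', hz'⟩ := h3' fun k => J (Fin.natAdd N k)
      refine ⟨z * z', ?_⟩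
      rw [ED.tmul, hz, hz', Int.cast_mul]
    · intro R _ _ g I
      have e1 := h4 R g fun k => I (Fin.castAdd n k)
      have e2 := h4' R g fun k => I (Fin.natAdd N k)
      rw [ED.sum_append]
      have e3 : ∀ (A : Fin N → ι) (B : Fin n → ι), (∏ l, g (I l) (Fin.append A B l)) *
          algebraMap K R (tmul t t0 (Fin.append A B)) =
          ((∏ l, g (I (Fin.castAdd n l)) (A l)) * algebraMap K R (t A)) *
          ((∏ l, g (I (Fin.natAdd N l)) (B l)) * algebraMap K R (t0 B)) := by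
        intro A B
        rw [Fin.prod_univ_add, ED.tmul]
        simp only [Fin.append_left, Fin.append_right, map_mul]
        ring
      simp only [e3]
      rw [← Finset.sum_mul_sum, e1, e2, ED.tmul, map_mul, pow_succ]
      ring

end CSys

end Pool.Agent.Q60.NP
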