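import Mathlib

/-!
# Derivations and algebraic independence
-/

namespace Pool.Agent.Q60.NP

open MvPolynomial Module

variable {L R : Type} [Field L] [CommRing R] [Algebra L R]

/-- The chain rule. -/
lemma der_aeval {σ : Type} [Fintype σ] (D : Derivation L R R) (f : σ → R) (p : MvPolynomial σ L) :
    D (aeval f p) = ∑ j, aeval f (pderiv j p) * D (f j) := by
  classical
  induction p using MvPolynomial.induction_on with
  | C a =>
    rw [aeval_C, D.map_algebraMap]
    exact (Finset.sum_eq_zero fun j _ => by rw [pderiv_C, map_zero, zero_mul]).symm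
  | add p q hp hq =>
    rw [map_add, map_add, hp, hq, ← Finset.sum_add_distrib]
    exact Finset.sum_congr rfl fun j _ => by rw [map_add, map_add, add_mul]
  | mul_X p i hp =>
    rw [map_mul, aeval_X, D.leibniz, hp, smul_eq_mul, smul_eq_mul]
    have h1 : ∀ j, aeval f (pderiv j (p * X i)) * D (f j) =
        f i * (aeval f (pderiv j p) * D (f j)) + if j = i then aeval f p * D (f j) else 0 := by
      intro j
      rw [Derivation.leibniz, smul_eq_mul, smul_eq_mul, map_add, map_mul, map_mul, aeval_X,
        pderiv_X]
      split_ifs with h
      · subst h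
        rw [Pi.single_eq_same, map_one]
        ring
      · rw [Pi.single_eq_of_ne (Ne.symm h), map_zero]
        ring
    simp only [h1]
    rw [Finset.sum_add_distrib, ← Finset.mul_sum, Finset.sum_ite_eq', if_pos (Finset.mem_univ _),
      add_comm]

/-- A polynomial whose partial derivatives vanish is constant. -/
lemma eq_C_of_pderiv [CharZero L] {σ : Type} (p : MvPolynomial σ L) (h : ∀ j, pderiv j p = 0) :
    p = C (coeff 0 p) := by
  classical
  ext m
  rw [coeff_C]
  split_ifs with hm
  · rw [hm]
  · obtain ⟨j, hj⟩ : ∃ j, m j ≠ 0 := by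
      by_contra hcon
      push Not at hcon
      exact hm (Finsupp.ext fun j => (hcon j).symm)
    have h1 : coeff (m - Finsupp.single j 1) (pderiv j p) = 0 := by rw [h j, coeff_zero]
    rw [coeff_pderiv] at h1
    have h2 : m - Finsupp.single j 1 + Finsupp.single j 1 = m := by
      apply tsub_add_cancel_of_le
      rw [Finsupp.single_le_iff]
      exact Nat.one_le_iff_ne_zero.2 hj
    rw [h2] at h1
    have h3 : (((m - Finsupp.single j 1 : σ →₀ ℕ) j : ℕ) : L) + 1 ≠ 0 := by
      exact Nat.cast_add_one_ne_zero _
    rcases mul_eq_zero.1 h1 with h4 | h4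
    · exact h4
    · exact absurd h4 h3

lemma totalDegree_pderiv_lt [CharZero L] {σ : Type} {p : MvPolynomial σ L} {j : σ}
    (h : pderiv j p ≠ 0) : (pderiv j p).totalDegree < p.totalDegree := by
  classical
  rw [totalDegree, Finset.sup_lt_iff]
  · intro m hm
    rw [MvPolynomial.mem_support_iff, coeff_pderiv] at hm
    have h1 : m + Finsupp.single j 1 ∈ p.support := by
      rw [MvPolynomial.mem_support_iff]
      intro h0
      rw [h0, zero_mul] at hm
      exact hm rfl
    have h2 := le_totalDegree h1
    rw [Finsupp.sum_add_index' (fun _ => rfl) (fun _ _ _ => rfl), Finsupp.sum_single_index rfl]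
      at h2
    omega
  · rw [bot_eq_zero]
    by_contra h0
    have h1 : p.totalDegree = 0 := by omega
    rw [totalDegree_eq_zero_iff_eq_C] at h1
    rw [h1, pderiv_C] at h
    exact h rfl

/-- **The easy part of the Jacobian criterion.** -/
theorem algIndep_of_det [CharZero L] [IsDomain R] {r : ℕ} (D : Fin r → Derivation L R R)
    (f : Fin r → R) (h : (Matrix.of fun a j => D a (f j)).det ≠ 0) : AlgebraicIndependent L f := by
  rw [algebraicIndependent_iff]
  intro p
  induction hn : p.totalDegree using Nat.strong_induction_on generalizing p with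
  | _ n ih =>
    intro hp
    by_contra hne
    have h1 : ∀ a, ∑ j, D a (f j) * aeval f (pderiv j p) = 0 := by
      intro a
      have h2 := der_aeval (D a) f p
      rw [hp, map_zero] at h2
      rw [h2]
      exact Finset.sum_congr rfl fun j _ => mul_comm _ _
    have h2 : (Matrix.of fun a j => D a (f j)).mulVec (fun j => aeval f (pderiv j p)) = 0 := by
      funext a
      exact h1 a
    have h3 : (fun j => aeval f (pderiv j p)) = 0 := Matrix.eq_zero_of_mulVec_eq_zero h h2
    have h4 : ∀ j, pderiv j p = 0 := by
      intro j
      by_contra hj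
      have h5 := totalDegree_pderiv_lt hj
      exact hj (ih _ (hn ▸ h5) _ rfl (congrFun h3 j))
    have h5 := eq_C_of_pderiv p h4
    rw [h5, aeval_C] at hp
    have h6 : coeff 0 p = 0 := (map_eq_zero_iff _ (algebraMap L R).injective).1 hp
    rw [h6, map_zero] at h5
    exact hne h5

/-- A derivation vanishes on the elements which are algebraic over a subring on which it
vanishes. -/
lemma der_eq_zero_of_isAlgebraic [CharZero L] [IsDomain R] (D : Derivation L R R)
    (B : Subalgebra L R) (hB : ∀ x ∈ B, D x = 0) {a : R} (ha : IsAlgebraic B a) : D a = 0 := by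
  obtain ⟨P, hP0, hP⟩ := ha
  induction hn : P.natDegree using Nat.strong_induction_on generalizing P with
  | _ n ih =>
    -- differentiate the equation
    have key : ∀ Q : Polynomial B, D (Polynomial.aeval a Q) =
        Polynomial.aeval a (Polynomial.derivative Q) * D a := by
      intro Q
      induction Q using Polynomial.induction_on' with
      | add p q hp hq => simp only [map_add, hp, hq, add_mul]
      | monomial m b =>
        rw [Polynomial.aeval_monomial, Polynomial.derivative_monomial, Polynomial.aeval_monomial,
          D.leibniz, D.leibniz_pow, smul_eq_mul, smul_eq_mul, smul_eq_mul]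
        have h1 : D (algebraMap B R b) = 0 := hB _ b.2
        rw [h1, mul_zero, add_zero, map_mul, map_natCast, nsmul_eq_mul]
        ring
    have h1 := key P
    rw [hP, map_zero] at h1
    rcases mul_eq_zero.1 h1.symm with h2 | h2
    · -- the derivative has smaller degree
      have hB0 : CharZero B := charZero_of_injective_algebraMap (algebraMap L B).injective
      have h3 : P.natDegree ≠ 0 := by
        intro h0
        rw [Polynomial.eq_C_of_natDegree_eq_zero h0, Polynomial.aeval_C] at hP
        have h4 : P.coeff 0 = 0 := Subtype.ext hP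
        rw [Polynomial.eq_C_of_natDegree_eq_zero h0, h4, map_zero] at hP0
        exact hP0 rfl
      have h4 : (Polynomial.derivative P).natDegree < P.natDegree :=
        Polynomial.natDegree_derivative_lt h3
      have h5 : Polynomial.derivative P ≠ 0 := by
        intro h0
        exact h3 (Polynomial.derivative_eq_zero.1 h0)
      exact ih _ (hn ▸ h4) _ h5 h2 rfl
    · exact h2

/-- **Upper bound for the transcendence degree.** A subalgebra which is killed by `q` independent
derivations has corank at least `q`. -/
theorem le_trdeg [CharZero L] [IsDomain R] (A : Subalgebra L R) {q : ℕ}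
    (D : Fin q → Derivation L R R) (hD : ∀ a, ∀ x ∈ A, D a x = 0)
    (hind : ∀ c : Fin q → R, (∀ x, ∑ a, c a * D a x = 0) → c = 0) :
    (q : Cardinal) ≤ Algebra.trdeg A R := by
  classical
  by_contra hcon
  rw [not_le] at hcon
  obtain ⟨s, hs⟩ := exists_isTranscendenceBasis A R
  rw [← hs.cardinalMk_eq_trdeg] at hcon
  have hfin : Finite s := Cardinal.lt_aleph0_iff_finite.1 (hcon.trans (Cardinal.natCast_lt_aleph0))
  have _ : Fintype s := Fintype.ofFinite s
  rw [Cardinal.mk_fintype, Nat.cast_lt] at hcon
  -- a combination which vanishes on the transcendence basis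
  obtain ⟨c, hc0, hc⟩ : ∃ c : Fin q → R, c ≠ 0 ∧ ∀ t : s, ∑ a, c a * D a t = 0 := by
    by_contra hno
    push Not at hno
    let f : (Fin q → R) →ₗ[R] (s → R) := Matrix.mulVecLin (Matrix.of fun (t : s) a => D a t)
    have hinj : Function.Injective f := by
      rw [injective_iff_map_eq_zero]
      intro c hc
      by_contra hne
      obtain ⟨t, ht⟩ := hno c hne
      apply ht
      have h1 := congrFun hc t
      rw [Pi.zero_apply] at h1
      rw [← h1]
      exact Finset.sum_congr rfl fun a _ => mul_comm _ _
    have h1 := card_le_of_injective R f hinj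
    rw [Fintype.card_fin] at h1
    exact absurd h1 (not_le.2 hcon)
  let D' : Derivation L R R := ∑ a, c a • D a
  have hD' : ∀ x, D' x = ∑ a, c a * D a x := by
    intro x
    have h1 : ∀ u : Finset (Fin q), (∑ a ∈ u, c a • D a) x = ∑ a ∈ u, c a * D a x := by
      intro u
      induction u using Finset.induction_on with
      | empty => simp
      | insert a u ha ih =>
        rw [Finset.sum_insert ha, Finset.sum_insert ha, Derivation.add_apply, ih,
          Derivation.smul_apply, smul_eq_mul]
    exact h1 _
  let B : Subalgebra L R := (Algebra.adjoin A (s : Set R)).restrictScalars L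
  have hB : ∀ x ∈ B, D' x = 0 := by
    intro x hx
    change x ∈ Algebra.adjoin A (s : Set R) at hx
    induction hx using Algebra.adjoin_induction with
    | mem x hx => rw [hD']; exact hc ⟨x, hx⟩
    | algebraMap r =>
      rw [hD']
      exact Finset.sum_eq_zero fun a _ => by
        rw [show D a (algebraMap A R r) = 0 from hD a _ r.2, mul_zero]
    | add x y hx hy h1 h2 => rw [map_add, h1, h2, add_zero]
    | mul x y hx hy h1 h2 => rw [D'.leibniz, h1, h2, smul_zero, smul_zero, add_zero]
  have hall : ∀ x, D' x = 0 := by
    intro x
    refine der_eq_zero_of_isAlgebraic D' B hB ?_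
    have h1 := hs.isAlgebraic.isAlgebraic x
    rw [Subtype.range_coe] at h1
    exact h1
  exact hc0 (hind c fun x => by rw [← hD']; exact hall x)

end Pool.Agent.Q60.NP
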