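import Pool.Agent.Q60.NP.Alg
import Pool.Agent.Q60.NP.Jac

/-!
# The generic point of the orbit of a closed system of tensors
-/

set_option linter.unusedSectionVars false

namespace Pool.Agent.Q60.NP

open MvPolynomial Module Matrix Pool.Agent.Q60.ED

section TPR

variable {R R' : Type} [CommRing R] [CommRing R'] {ι : Type} [Fintype ι] [DecidableEq ι]

lemma TP_map' (φ : R →+* R') (g : Matrix ι ι R) (n : ℕ) :
    TP (g.map φ) n = (TP g n).map φ := by
  ext I J
  rw [Matrix.map_apply, TP_apply, TP_apply, map_prod]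
  rfl

end TPR

variable {K : Type} [Field K] {ι : Type} [Fintype ι] [DecidableEq ι]

/-- Equivariance of the matrices of the infinitesimal action. -/
lemma bs_tpow (g Ω : Matrix ι ι K) {m : ℕ} (s : (Fin m → ι) → K) :
    TP g m * bs Ω s * (TP g 2).transpose = bs (g * Ω * g.transpose) (tpow g m s) := by
  ext L P
  have hsw : ∀ k : Fin m, ∀ F : (Fin m → ι) → ι → K, ∑ L' : Fin m → ι, ∑ c : ι, F L' c =
      ∑ J : Fin m → ι, ∑ a : ι, F (Function.update J k a) (J k) := by
    intro k F
    rw [← Fintype.sum_prod_type', ← Fintype.sum_prod_type']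
    refine Finset.sum_bij' (fun p _ => (Function.update p.1 k p.2, p.1 k))
      (fun p _ => (Function.update p.1 k p.2, p.1 k)) ?_ ?_ ?_ ?_ ?_
    · intro p _; exact Finset.mem_univ _
    · intro p _; exact Finset.mem_univ _
    · intro p _
      ext
      · simp
      · simp
    · intro p _
      ext
      · simp
      · simp
    · intro p _
      simp
  have hl : (TP g m * bs Ω s * (TP g 2).transpose) L P =
      ∑ k, ∑ J : Fin m → ι, ∑ a : ι, ∑ b : ι, (∏ l ∈ Finset.univ.erase k, g (L l) (J l)) *
        g (L k) a * Ω a b * g (P 0) b * g (P 1) (J k) * s J := by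
    rw [Matrix.mul_apply, Pool.Agent.Q60.TD.sum_fin2]
    simp only [Matrix.mul_apply, bs, Matrix.of_apply, Matrix.transpose_apply, TP_apply,
      Fin.prod_univ_two, Finset.mul_sum, Finset.sum_mul, Matrix.cons_val_zero,
      Matrix.cons_val_one]
    have e1 : ∀ b c : ι, ∑ L' : Fin m → ι, ∑ k : Fin m, (∏ l, g (L l) (L' l)) *
        (Ω (L' k) b * s (Function.update L' k c)) * (g (P 0) b * g (P 1) c) =
        ∑ k : Fin m, ∑ L' : Fin m → ι, (∏ l, g (L l) (L' l)) *
        (Ω (L' k) b * s (Function.update L' k c)) * (g (P 0) b * g (P 1) c) := by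
      intro b c
      rw [Finset.sum_comm]
    simp only [e1]
    have e2 : ∀ b : ι, ∑ c : ι, ∑ k : Fin m, ∑ L' : Fin m → ι, (∏ l, g (L l) (L' l)) *
        (Ω (L' k) b * s (Function.update L' k c)) * (g (P 0) b * g (P 1) c) =
        ∑ k : Fin m, ∑ L' : Fin m → ι, ∑ c : ι, (∏ l, g (L l) (L' l)) *
        (Ω (L' k) b * s (Function.update L' k c)) * (g (P 0) b * g (P 1) c) := by
      intro b
      rw [Finset.sum_comm]
      refine Finset.sum_congr rfl fun k _ => ?_
      rw [Finset.sum_comm]
    simp only [e2]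
    rw [Finset.sum_comm]
    refine Finset.sum_congr rfl fun k _ => ?_
    have e3 : ∀ b : ι, ∑ L' : Fin m → ι, ∑ c : ι, (∏ l, g (L l) (L' l)) *
        (Ω (L' k) b * s (Function.update L' k c)) * (g (P 0) b * g (P 1) c) =
        ∑ J : Fin m → ι, ∑ a : ι, (∏ l ∈ Finset.univ.erase k, g (L l) (J l)) *
        g (L k) a * Ω a b * g (P 0) b * g (P 1) (J k) * s J := by
      intro b
      rw [hsw k]
      refine Finset.sum_congr rfl fun J _ => Finset.sum_congr rfl fun a _ => ?_
      have e4 : ∏ l, g (L l) (Function.update J k a l) =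
          g (L k) a * ∏ l ∈ Finset.univ.erase k, g (L l) (J l) := by
        rw [← Finset.mul_prod_erase _ _ (Finset.mem_univ k), Function.update_self]
        congr 1
        refine Finset.prod_congr rfl fun l hl => ?_
        rw [Function.update_of_ne (Finset.ne_of_mem_erase hl)]
      rw [e4, Function.update_self, Function.update_idem, Function.update_eq_self]
      ring
    rw [Finset.sum_congr rfl fun b _ => e3 b, Finset.sum_comm]
    refine Finset.sum_congr rfl fun J _ => ?_
    rw [Finset.sum_comm]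
  rw [hl]
  simp only [bs, Matrix.of_apply, tpow_apply, Matrix.mul_apply, Matrix.transpose_apply,
    Finset.sum_mul, Finset.mul_sum]
  refine Finset.sum_congr rfl fun k _ => ?_
  refine Finset.sum_congr rfl fun J _ => ?_
  rw [Finset.sum_comm]
  refine Finset.sum_congr rfl fun b _ => Finset.sum_congr rfl fun a _ => ?_
  have e5 : ∏ l, g (Function.update L k (P 1) l) (J l) =
      g (P 1) (J k) * ∏ l ∈ Finset.univ.erase k, g (L l) (J l) := by
    rw [← Finset.mul_prod_erase _ _ (Finset.mem_univ k), Function.update_self]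
    congr 1
    refine Finset.prod_congr rfl fun l hl => ?_
    rw [Function.update_of_ne (Finset.ne_of_mem_erase hl)]
  rw [e5]
  ring

variable (K ι)

/-- The field of rational functions of a matrix. -/
abbrev FR := FractionRing (MvPolynomial (ι × ι) K)

/-- The generic matrix over the field of rational functions. -/
noncomputable def XF : Matrix ι ι (FR K ι) :=
  (Matrix.mvPolynomialX ι ι K).map (algebraMap (MvPolynomial (ι × ι) K) (FR K ι))

lemma XF_det : (XF K ι).det = algebraMap (MvPolynomial (ι × ι) K) (FR K ι)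
    (Matrix.mvPolynomialX ι ι K).det := by
  rw [XF, RingHom.map_det]
  rfl

lemma XF_det_ne : (XF K ι).det ≠ 0 := by
  rw [XF_det, map_ne_zero_iff _ (IsFractionRing.injective (MvPolynomial (ι × ι) K) (FR K ι))]
  exact Matrix.det_mvPolynomialX_ne_zero ι K

variable {K ι}

/-- The coordinates of the generic point. -/
lemma xt_FR {n : ℕ} (t : (Fin n → ι) → K) (I : Fin n → ι) :
    algebraMap (MvPolynomial (ι × ι) K) (FR K ι) (xt t I) =
      tpow (XF K ι) n (fun J => algebraMap K (FR K ι) (t J)) I := by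
  rw [xt, map_sum, tpow_apply]
  refine Finset.sum_congr rfl fun J _ => ?_
  rw [map_mul, mul_comm, mon, map_prod]
  rfl

namespace CSys

variable {Q : Matrix ι ι K} (C : CSys Q)

/-- The coordinates of the generic point in degree at most `M`. -/
def crd (M : ℕ) : Set (MvPolynomial (ι × ι) K) := {f | ∃ m ≤ M, ∃ s ∈ C.S m, ∃ I, f = xt s I}

/-- The algebra of the coordinates. -/
noncomputable def A0 (M : ℕ) : Subalgebra K (MvPolynomial (ι × ι) K) :=
  Algebra.adjoin K (C.crd M)

/-- The algebra of the coordinates and the inverse of the square of the determinant. -/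
noncomputable def A1 (M : ℕ) : Subalgebra K (FR K ι) :=
  Algebra.adjoin K ((algebraMap (MvPolynomial (ι × ι) K) (FR K ι)) '' C.crd M ∪
    {(((XF K ι).det)⁻¹) ^ 2})

/-- The system is generated in degree at most `M`, in a weak sense. -/
def GenBy (M : ℕ) : Prop := ∀ n, ∀ s ∈ C.S n, ∀ I,
  algebraMap (MvPolynomial (ι × ι) K) (FR K ι) (xt s I) ∈ C.A1 M

variable {C}

lemma xt_mem_A0 {M m : ℕ} (hm : m ≤ M) {s : (Fin m → ι) → K} (hs : s ∈ C.S m) (I : Fin m → ι) :
    xt s I ∈ C.A0 M := Algebra.subset_adjoin ⟨m, hm, s, hs, I, rfl⟩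

lemma A0_le {M : ℕ} {f : MvPolynomial (ι × ι) K} (hf : f ∈ C.A0 M) :
    algebraMap (MvPolynomial (ι × ι) K) (FR K ι) f ∈ C.A1 M := by
  have h1 : C.A0 M ≤ (C.A1 M).comap (IsScalarTower.toAlgHom K (MvPolynomial (ι × ι) K)
      (FR K ι)) := by
    refine Algebra.adjoin_le fun g hg => ?_
    exact Algebra.subset_adjoin (Or.inl ⟨g, hg, rfl⟩)
  exact h1 hf

lemma dinv_mem (M : ℕ) : (((XF K ι).det)⁻¹) ^ 2 ∈ C.A1 M :=
  Algebra.subset_adjoin (Or.inr rfl)

end CSys

end Pool.Agent.Q60.NP
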