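import Pool.Agent.Q60.NP.Gen

/-!
# The idempotent at the generic point
-/

set_option linter.unusedSectionVars false

namespace Pool.Agent.Q60.NP

open MvPolynomial Module Matrix Pool.Agent.Q60.ED

section Lift

variable {K F : Type} [Field K] [Field F] [Algebra K F] {α β : Type}

/-- The lift of a matrix to a subalgebra. -/
def liftM (A : Subalgebra K F) (B : Matrix α β F) (h : ∀ i j, B i j ∈ A) : Matrix α β A :=
  Matrix.of fun i j => ⟨B i j, h i j⟩

lemma liftM_map (A : Subalgebra K F) (B : Matrix α β F) (h : ∀ i j, B i j ∈ A) :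
    (liftM A B h).map (A.val : A →+* F) = B := by
  ext i j; rfl

lemma map_val_inj {A : Subalgebra K F} {B B' : Matrix α β A}
    (h : B.map (A.val : A →+* F) = B'.map (A.val : A →+* F)) : B = B' := by
  ext i j
  exact congrFun (congrFun h i) j

end Lift

variable {K : Type} [Field K] {ι : Type} [Fintype ι] [DecidableEq ι]

lemma TP_conj {F : Type} [Field F] {g : Matrix ι ι F} (hg : g.det ≠ 0) (Q : Matrix ι ι F) (m : ℕ) :
    (TP g m).transpose * TP ((g⁻¹).transpose * Q * g⁻¹) m = TP Q m * TP g⁻¹ m := by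
  rw [TP_mul, TP_mul, TP_transpose, ← Matrix.mul_assoc, ← Matrix.mul_assoc,
    ← Matrix.transpose_mul, (TP_det hg m).2, Matrix.transpose_one, Matrix.one_mul]

namespace CSys

variable {Q : Matrix ι ι K} {C : CSys Q} {M : ℕ}

/-- The coordinates of the generic point in the subalgebra. -/
noncomputable def lt (hgen : C.GenBy M) {m : ℕ} {s : (Fin m → ι) → K} (hs : s ∈ C.S m) :
    (Fin m → ι) → C.A1 M :=
  fun I => ⟨algebraMap (MvPolynomial (ι × ι) K) (FR K ι) (xt s I), hgen m s hs I⟩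

lemma lt_val (hgen : C.GenBy M) {m : ℕ} {s : (Fin m → ι) → K} (hs : s ∈ C.S m) (I : Fin m → ι) :
    ((C.A1 M).val : C.A1 M →+* FR K ι) (lt hgen hs I) =
      tpow (XF K ι) m (fun J => algebraMap K (FR K ι) (s J)) I := xt_FR s I

/-- The lifts of the form and of its inverse. -/
lemma exists_QA (hgen : C.GenBy M) (hQ : Q.det ≠ 0) : ∃ ΩA QA : Matrix ι ι (C.A1 M),
    ΩA.map ((C.A1 M).val : C.A1 M →+* FR K ι) =
      XF K ι * (Q⁻¹).map (algebraMap K (FR K ι)) * (XF K ι).transpose ∧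
    QA.map ((C.A1 M).val : C.A1 M →+* FR K ι) =
      ((XF K ι)⁻¹).transpose * Q.map (algebraMap K (FR K ι)) * (XF K ι)⁻¹ ∧
    QA * ΩA = 1 ∧ ΩA * QA = 1 := by
  set φ : C.A1 M →+* FR K ι := ((C.A1 M).val : C.A1 M →+* FR K ι) with hφ
  set g := XF K ι with hg
  have hgd : g.det ≠ 0 := XF_det_ne K ι
  have hgu := isUnit_iff_ne_zero.2 hgd
  have hQu := isUnit_iff_ne_zero.2 hQ
  set QF : Matrix ι ι (FR K ι) := Q.map (algebraMap K (FR K ι)) with hQF
  set QI : Matrix ι ι (FR K ι) := (Q⁻¹).map (algebraMap K (FR K ι)) with hQI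
  have h1 : QF * QI = 1 := by
    have h2 := (Matrix.map_mul (L := Q) (M := Q⁻¹) (f := algebraMap K (FR K ι))).symm
    rw [Matrix.mul_nonsing_inv _ hQu] at h2
    rw [hQF, hQI, h2]
    exact Matrix.map_one _ (map_zero _) (map_one _)
  have hΩ : ∀ i j, (g * QI * g.transpose) i j ∈ C.A1 M := by
    intro i j
    have h3 := hgen 2 _ C.om ![i, j]
    rw [xt_FR] at h3
    have h4 : tpow g 2 (fun J => algebraMap K (FR K ι) (Q⁻¹ (J 0) (J 1))) ![i, j] =
        (g * QI * g.transpose) i j := by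
      have h5 := tpow_two g (fun J => algebraMap K (FR K ι) (Q⁻¹ (J 0) (J 1)))
      have h6 := congrFun (congrFun h5 i) j
      exact h6
    rw [← h4]
    exact h3
  set ΩA := liftM (C.A1 M) _ hΩ with hΩA
  have e1 : ΩA.map φ = g * QI * g.transpose := liftM_map _ _ _
  have e2 : ((g⁻¹).transpose * QF * g⁻¹) * (g * QI * g.transpose) = 1 := by
    have h3 : (g⁻¹).transpose * QF * g⁻¹ * (g * QI * g.transpose) =
        (g⁻¹).transpose * (QF * (g⁻¹ * g * QI)) * g.transpose := by
      simp only [Matrix.mul_assoc]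
    rw [h3, Matrix.nonsing_inv_mul _ hgu, Matrix.one_mul, h1, Matrix.mul_one,
      ← Matrix.transpose_mul, Matrix.mul_nonsing_inv _ hgu, Matrix.transpose_one]
  have hdQI : QI.det = (algebraMap K (FR K ι) Q.det)⁻¹ := by
    have h3 := congrArg Matrix.det h1
    rw [det_mul, det_one] at h3
    have h4 : QF.det = algebraMap K (FR K ι) Q.det := by
      rw [RingHom.map_det]; rfl
    rw [h4] at h3
    exact (inv_eq_of_mul_eq_one_right h3).symm
  have e3 : (g⁻¹).transpose * QF * g⁻¹ =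
      ((g.det⁻¹) ^ 2 * algebraMap K (FR K ι) Q.det) • (g * QI * g.transpose).adjugate := by
    have h3 : (g * QI * g.transpose).det = g.det ^ 2 * (algebraMap K (FR K ι) Q.det)⁻¹ := by
      rw [det_mul, det_mul, det_transpose, hdQI]; ring
    have h4 : (g * QI * g.transpose).det ≠ 0 := by
      rw [h3]
      exact mul_ne_zero (pow_ne_zero _ hgd) (inv_ne_zero ((map_ne_zero _).2 hQ))
    have h5 : (g⁻¹).transpose * QF * g⁻¹ = (g * QI * g.transpose)⁻¹ :=
      (Matrix.inv_eq_left_inv e2).symm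
    rw [h5, Matrix.inv_def, h3, Ring.inverse_eq_inv', mul_inv, inv_inv, inv_pow]
  have hQA : ∀ i j, ((g⁻¹).transpose * QF * g⁻¹) i j ∈ C.A1 M := by
    intro i j
    rw [e3, Matrix.smul_apply, smul_eq_mul]
    refine Subalgebra.mul_mem _ (Subalgebra.mul_mem _ (dinv_mem M)
      (Subalgebra.algebraMap_mem _ _)) ?_
    have h3 : (g * QI * g.transpose).adjugate = (ΩA.adjugate).map φ := by
      rw [← e1]
      exact (φ.map_adjugate ΩA).symm
    rw [h3]
    exact (ΩA.adjugate i j).2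
  have e4 : (liftM (C.A1 M) _ hQA).map φ = (g⁻¹).transpose * QF * g⁻¹ := liftM_map _ _ _
  have e5 : liftM (C.A1 M) _ hQA * ΩA = 1 := by
    apply map_val_inj
    rw [Matrix.map_mul, e4, e1, e2]
    exact (Matrix.map_one _ (map_zero _) (map_one _)).symm
  exact ⟨ΩA, liftM (C.A1 M) _ hQA, e1, e4, e5, mul_eq_one_comm.1 e5⟩

/-- Lifts of the matrices of the system. -/
lemma exists_lift (hgen : C.GenBy M) {p q : ℕ} {B : Matrix (Fin p → ι) (Fin q → ι) K}
    (hB : B ∈ C.M p q) : ∃ BA : Matrix (Fin p → ι) (Fin q → ι) (C.A1 M),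
      BA.map ((C.A1 M).val : C.A1 M →+* FR K ι) =
        TP (XF K ι) p * B.map (algebraMap K (FR K ι)) * (TP (XF K ι) q).transpose := by
  have h : ∀ I J, (TP (XF K ι) p * B.map (algebraMap K (FR K ι)) *
      (TP (XF K ι) q).transpose) I J ∈ C.A1 M := by
    intro I J
    have h1 := hgen (p + q) _ (mem_M_iff.1 hB) (Fin.append I J)
    rw [xt_FR] at h1
    have h2 := congrFun (tpow_tenM (XF K ι) (B.map (algebraMap K (FR K ι)))) (Fin.append I J)
    have h3 : tenM (TP (XF K ι) p * B.map (algebraMap K (FR K ι)) *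
        (TP (XF K ι) q).transpose) (Fin.append I J) = (TP (XF K ι) p *
          B.map (algebraMap K (FR K ι)) * (TP (XF K ι) q).transpose) I J := by
      rw [tenM]
      simp only [Fin.append_left, Fin.append_right]
    rw [h3] at h2
    rw [← h2]
    exact h1
  exact ⟨liftM _ _ h, liftM_map _ _ _⟩

/-- **Operators at the generic point.** -/
lemma exists_EA (hgen : C.GenBy M) {M' : ℕ} {ΩA QA : Matrix ι ι (C.A1 M)}
    (hΩA : ΩA.map ((C.A1 M).val : C.A1 M →+* FR K ι) =
      XF K ι * (Q⁻¹).map (algebraMap K (FR K ι)) * (XF K ι).transpose)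
    (hQA : QA.map ((C.A1 M).val : C.A1 M →+* FR K ι) =
      ((XF K ι)⁻¹).transpose * Q.map (algebraMap K (FR K ι)) * (XF K ι)⁻¹)
    {L : Type} [Field L] (χ : C.A1 M →+* L) {x : Matrix (Fin 2 → ι) (Fin 2 → ι) K}
    (hx : x ∈ Submodule.span K (C.gens M')) :
    ∃ EA : Matrix (Fin 2 → ι) (Fin 2 → ι) (C.A1 M),
      EA.map ((C.A1 M).val : C.A1 M →+* FR K ι) =
        TP (XF K ι) 2 * x.map (algebraMap K (FR K ι)) * TP (XF K ι)⁻¹ 2 ∧
      ∀ Y : Matrix ι ι L, (∀ m ≤ M', ∀ (s : (Fin m → ι) → K) (hs : s ∈ C.S m),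
        (bs (ΩA.map χ) (fun I => χ (lt hgen hs I)) * TP (QA.map χ) 2).mulVec (vec Y) = 0) →
        (EA.map χ).mulVec (vec Y) = 0 := by
  have hgd : (XF K ι).det ≠ 0 := XF_det_ne K ι
  induction hx using Submodule.span_induction with
  | mem x hx =>
    obtain ⟨m, hm, s, hs, u, hu, rfl⟩ := hx
    obtain ⟨uA, huA⟩ := exists_lift hgen hu
    refine ⟨uA * TP QA m * bs ΩA (lt hgen hs) * TP QA 2, ?_, ?_⟩
    · rw [Matrix.map_mul, Matrix.map_mul, Matrix.map_mul, huA, bs_map, hΩA, ← TP_map', ← TP_map',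
        hQA]
      simp only [lt_val]
      rw [← bs_tpow]
      have e1 : bs ((Q⁻¹).map (algebraMap K (FR K ι))) (fun J => algebraMap K (FR K ι) (s J)) =
          (bs Q⁻¹ s).map (algebraMap K (FR K ι)) := (bs_map _ _ _).symm
      rw [e1]
      have e2 := TP_conj hgd (Q.map (algebraMap K (FR K ι))) m
      have e3 := TP_conj hgd (Q.map (algebraMap K (FR K ι))) 2
      have e4 : TP (XF K ι) 2 * u.map (algebraMap K (FR K ι)) * (TP (XF K ι) m).transpose *
          TP (((XF K ι)⁻¹).transpose * Q.map (algebraMap K (FR K ι)) * (XF K ι)⁻¹) m *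
          (TP (XF K ι) m * (bs Q⁻¹ s).map (algebraMap K (FR K ι)) *
            (TP (XF K ι) 2).transpose) *
          TP (((XF K ι)⁻¹).transpose * Q.map (algebraMap K (FR K ι)) * (XF K ι)⁻¹) 2 =
          TP (XF K ι) 2 * u.map (algebraMap K (FR K ι)) * ((TP (XF K ι) m).transpose *
          TP (((XF K ι)⁻¹).transpose * Q.map (algebraMap K (FR K ι)) * (XF K ι)⁻¹) m) *
          TP (XF K ι) m * (bs Q⁻¹ s).map (algebraMap K (FR K ι)) *
            ((TP (XF K ι) 2).transpose *
          TP (((XF K ι)⁻¹).transpose * Q.map (algebraMap K (FR K ι)) * (XF K ι)⁻¹) 2) := by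
        simp only [Matrix.mul_assoc]
      rw [e4, e2, e3]
      have e5 : TP (XF K ι) 2 * u.map (algebraMap K (FR K ι)) *
          (TP (Q.map (algebraMap K (FR K ι))) m * TP (XF K ι)⁻¹ m) * TP (XF K ι) m *
          (bs Q⁻¹ s).map (algebraMap K (FR K ι)) *
          (TP (Q.map (algebraMap K (FR K ι))) 2 * TP (XF K ι)⁻¹ 2) =
          TP (XF K ι) 2 * (u.map (algebraMap K (FR K ι)) *
          TP (Q.map (algebraMap K (FR K ι))) m * (TP (XF K ι)⁻¹ m * TP (XF K ι) m) *
          (bs Q⁻¹ s).map (algebraMap K (FR K ι)) *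
          TP (Q.map (algebraMap K (FR K ι))) 2) * TP (XF K ι)⁻¹ 2 := by
        simp only [Matrix.mul_assoc]
      rw [e5, (TP_det hgd m).2, Matrix.mul_one, TP_map', TP_map', Matrix.map_mul, Matrix.map_mul,
        Matrix.map_mul]
    · intro Y hY
      have h1 := hY m hm s hs
      rw [Matrix.mul_assoc, Matrix.map_mul, ← Matrix.mulVec_mulVec]
      have h2 : (bs ΩA (lt hgen hs) * TP QA 2).map χ =
          bs (ΩA.map χ) (fun I => χ (lt hgen hs I)) * TP (QA.map χ) 2 := by
        rw [Matrix.map_mul, bs_map, ← TP_map']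
      rw [h2, h1, Matrix.mulVec_zero]
  | zero =>
    refine ⟨0, ?_, fun Y _ => ?_⟩
    · rw [Matrix.map_zero _ (map_zero _), Matrix.map_zero _ (map_zero _), Matrix.mul_zero,
        Matrix.zero_mul]
    · rw [Matrix.map_zero _ (map_zero _), Matrix.zero_mulVec]
  | add x y _ _ hx hy =>
    obtain ⟨EA, h1, h2⟩ := hx
    obtain ⟨EB, h3, h4⟩ := hy
    refine ⟨EA + EB, ?_, fun Y hY => ?_⟩
    · rw [Matrix.map_add _ (map_add _), Matrix.map_add _ (map_add _), h1, h3, Matrix.mul_add,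
        Matrix.add_mul]
    · rw [Matrix.map_add _ (map_add _), Matrix.add_mulVec, h2 Y hY, h4 Y hY, add_zero]
  | smul c x _ hx =>
    obtain ⟨EA, h1, h2⟩ := hx
    have e1 : ∀ {R : Type} [CommRing R] (φ : C.A1 M →+* R), (algebraMap K (C.A1 M) c • EA).map φ =
        φ (algebraMap K (C.A1 M) c) • EA.map φ := by
      intro R _ φ
      ext i j
      rw [Matrix.map_apply, Matrix.smul_apply, Matrix.smul_apply, Matrix.map_apply, smul_eq_mul,
        smul_eq_mul, map_mul]
    refine ⟨algebraMap K (C.A1 M) c • EA, ?_, fun Y hY => ?_⟩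
    · rw [e1, h1]
      have e2 : (c • x).map (algebraMap K (FR K ι)) =
          algebraMap K (FR K ι) c • x.map (algebraMap K (FR K ι)) := by
        ext i j
        simp
      rw [e2, Matrix.mul_smul, Matrix.smul_mul]
      rfl
    · rw [e1, Matrix.smul_mulVec, h2 Y hY, smul_zero]

end CSys

end Pool.Agent.Q60.NP
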