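import Pool.Agent.Q60.NP.Gen2
import Pool.Agent.Q60.ED.Trd

/-!
# Dimensions of orbits
-/

set_option linter.unusedSectionVars false

namespace Pool.Agent.Q60.NP

open MvPolynomial Module Matrix Pool.Agent.Q60.ED

variable {K : Type} [Field K] {ι : Type} [Fintype ι] [DecidableEq ι]

lemma card_fun2 : Fintype.card (Fin 2 → ι) = Fintype.card (ι × ι) := by
  rw [Fintype.card_fun, Fintype.card_fin, Fintype.card_prod, sq]

namespace CSys

variable {Q : Matrix ι ι K} {C : CSys Q}

/-- **Upper bound for the dimension of the orbit.** -/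
theorem trdeg_A0_le [CharZero K] (hQ : Q.det ≠ 0) {M : ℕ}
    {e : Matrix (Fin 2 → ι) (Fin 2 → ι) K} (he : e * e = e)
    (hbs : ∀ m ≤ M, ∀ s ∈ C.S m, bs Q⁻¹ s * TP Q 2 * e = bs Q⁻¹ s * TP Q 2)
    (hst : ∀ A : Matrix ι ι K, (∀ m ≤ M, ∀ s ∈ C.S m, aop A s = 0) →
      ∀ m ≤ M + 2, ∀ s ∈ C.S m, aop A s = 0) {r : ℕ} (hr : e.trace = r) :
    Algebra.trdeg K (C.A0 (M + 2)) ≤ r := by
  classical
  have hQu := isUnit_iff_ne_zero.2 hQ
  set q := finrank K (LinearMap.ker (Matrix.toLin' e)) with hq
  have hqr : q + r = Fintype.card (ι × ι) := by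
    rw [← card_fun2]
    exact finrank_ker_of_idem he hr
  let b := Module.finBasis K (LinearMap.ker (Matrix.toLin' e))
  let Y : Fin q → Matrix ι ι K := fun a => Matrix.of fun i j => (b a : (Fin 2 → ι) → K) ![i, j]
  have hY : ∀ a, vec (Y a) = (b a : (Fin 2 → ι) → K) := by
    intro a
    funext w
    have h0 : (![w 0, w 1] : Fin 2 → ι) = w := by
      funext k
      fin_cases k <;> rfl
    change (b a : (Fin 2 → ι) → K) ![w 0, w 1] = _
    rw [h0]
  let A : Fin q → Matrix ι ι K := fun a => Q⁻¹ * (Q * Y a * Q.transpose)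
  have hA : ∀ a, ∀ m ≤ M, ∀ s ∈ C.S m, aop (A a) s = 0 := by
    intro a m hm s hs
    rw [← bs_mulVec, ← hbs m hm s hs, ← Matrix.mulVec_mulVec, hY]
    have h1 : e.mulVec (b a : (Fin 2 → ι) → K) = 0 := (b a).2
    rw [h1, Matrix.mulVec_zero]
  have hind : LinearIndependent K A := by
    rw [Fintype.linearIndependent_iff]
    intro g hg
    have h1 : ∑ a, g a • Y a = 0 := by
      have h2 : ∑ a, g a • A a = (∑ a, g a • Y a) * Q.transpose := by
        rw [Finset.sum_mul]
        refine Finset.sum_congr rfl fun a _ => ?_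
        change g a • (Q⁻¹ * (Q * Y a * Q.transpose)) = _
        rw [Matrix.mul_assoc Q, ← Matrix.mul_assoc Q⁻¹, Matrix.nonsing_inv_mul _ hQu,
          Matrix.one_mul, Matrix.smul_mul]
      rw [hg] at h2
      have h3 := congrArg (fun B => B * (Q.transpose)⁻¹) h2
      simp only [Matrix.zero_mul] at h3
      rw [Matrix.mul_assoc, Matrix.mul_nonsing_inv _ (by rw [det_transpose]; exact hQu),
        Matrix.mul_one] at h3
      exact h3.symm
    have h2 : ∑ a, g a • b a = 0 := by
      apply Subtype.ext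
      rw [Submodule.coe_sum, Submodule.coe_zero]
      have h3 : vec (∑ a, g a • Y a) = ∑ a, g a • (b a : (Fin 2 → ι) → K) := by
        simp only [← hY]
        funext w
        simp [vec, Matrix.sum_apply]
      rw [h1] at h3
      have h4 : ∑ a, ((g a • b a : LinearMap.ker (Matrix.toLin' e)) : (Fin 2 → ι) → K) =
          ∑ a, g a • (b a : (Fin 2 → ι) → K) := rfl
      rw [h4, ← h3]
      rfl
    exact Fintype.linearIndependent_iff.1 b.linearIndependent g h2
  have hD : ∀ a, ∀ x ∈ C.A0 (M + 2), dA (A a) x = 0 := by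
    intro a x hx
    rw [A0] at hx
    induction hx using Algebra.adjoin_induction with
    | mem x hx =>
      obtain ⟨m, hm, s, hs, I, rfl⟩ := hx
      rw [dA_xt, hst (A a) (hA a) m hm s hs, xt_zero]
    | algebraMap r => exact (dA (A a)).map_algebraMap r
    | add x y _ _ h1 h2 => rw [map_add, h1, h2, add_zero]
    | mul x y _ _ h1 h2 => rw [Derivation.leibniz, h1, h2, smul_zero, smul_zero, add_zero]
  have h1 := le_trdeg (C.A0 (M + 2)) (fun a => dA (A a)) hD (by
    intro c hc
    -- the combination of the matrices vanishes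
    have h2 : ∀ k j, ∑ a, c a * MvPolynomial.C (A a k j) = 0 := by
      let N : Matrix ι ι (MvPolynomial (ι × ι) K) := Matrix.of fun k j => ∑ a, c a * MvPolynomial.C (A a k j)
      have h3 : Matrix.mvPolynomialX ι ι K * N = 0 := by
        ext1 i j
        have h4 := hc (X (i, j))
        simp only [dA_X] at h4
        rw [Matrix.mul_apply, Matrix.zero_apply, ← h4]
        simp only [N, Matrix.of_apply, Finset.mul_sum, Matrix.mvPolynomialX_apply]
        rw [Finset.sum_comm]
        refine Finset.sum_congr rfl fun a _ => Finset.sum_congr rfl fun k _ => ?_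
        ring
      have h4 : (Matrix.mvPolynomialX ι ι K).det • N = 0 := by
        have h5 := congrArg (fun B => (Matrix.mvPolynomialX ι ι K).adjugate * B) h3
        simp only [Matrix.mul_zero] at h5
        rw [← Matrix.mul_assoc, Matrix.adjugate_mul, Matrix.smul_mul, Matrix.one_mul] at h5
        exact h5
      intro k j
      have h5 := congrFun (congrFun h4 k) j
      rw [Matrix.smul_apply, smul_eq_mul, Matrix.zero_apply] at h5
      exact (mul_eq_zero.1 h5).resolve_left (Matrix.det_mvPolynomialX_ne_zero ι K)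
    funext a
    ext m
    rw [Pi.zero_apply, coeff_zero]
    have h3 : ∑ a, coeff m (c a) • A a = 0 := by
      ext1 k j
      have h4 := congrArg (coeff m) (h2 k j)
      rw [coeff_sum, coeff_zero] at h4
      rw [Matrix.sum_apply, Matrix.zero_apply, ← h4]
      refine Finset.sum_congr rfl fun a _ => ?_
      rw [mul_comm, MvPolynomial.coeff_C_mul, Matrix.smul_apply, smul_eq_mul, mul_comm]
    exact Fintype.linearIndependent_iff.1 hind _ h3 a)
  have hf1 : FaithfulSMul K (C.A0 (M + 2)) :=
    (faithfulSMul_iff_algebraMap_injective K _).2 (algebraMap K (C.A0 (M + 2))).injective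
  have hf2 : FaithfulSMul (C.A0 (M + 2)) (MvPolynomial (ι × ι) K) :=
    (faithfulSMul_iff_algebraMap_injective _ _).2 Subtype.val_injective
  have h2 := trdeg_add_eq K (C.A0 (M + 2)) (A := MvPolynomial (ι × ι) K)
  rw [MvPolynomial.trdeg_of_isDomain] at h2
  have h3 : Cardinal.lift.{0} (Cardinal.mk (ι × ι)) = ((q + r : ℕ) : Cardinal) := by
    rw [hqr, Cardinal.lift_id, Cardinal.mk_fintype]
  have h4 : Algebra.trdeg K (C.A0 (M + 2)) + q ≤ ((q + r : ℕ) : Cardinal) := by
    calc Algebra.trdeg K (C.A0 (M + 2)) + q ≤ Algebra.trdeg K (C.A0 (M + 2)) +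
          Algebra.trdeg (C.A0 (M + 2)) (MvPolynomial (ι × ι) K) := by gcongr
      _ = ((q + r : ℕ) : Cardinal) := by
        rw [h2]
        exact h3
  have h5 : Algebra.trdeg K (C.A0 (M + 2)) < Cardinal.aleph0 :=
    (le_self_add.trans h4).trans_lt (Cardinal.natCast_lt_aleph0)
  obtain ⟨t, ht⟩ := Cardinal.lt_aleph0.1 h5
  rw [ht] at h4 ⊢
  have h6 : t + q ≤ q + r := by exact_mod_cast h4
  have h7 : t ≤ r := by omega
  exact_mod_cast h7

end CSys

end Pool.Agent.Q60.NP
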