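import Pool.Agent.Q60.NP.Gen3

/-!
# The comorphism of the orbit of a point
-/

set_option linter.unusedSectionVars false

namespace Pool.Agent.Q60.NP

open MvPolynomial Module Matrix Pool.Agent.Q60.ED

variable {K : Type} [Field K] {ι : Type} [Fintype ι] [DecidableEq ι]

section XtR

variable {R R' : Type} [CommRing R] [CommRing R']

/-- The tensor multiplied by the generic matrix, over a ring. -/
noncomputable def xtR {n : ℕ} (t : (Fin n → ι) → R) (I : Fin n → ι) : MvPolynomial (ι × ι) R :=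
  ∑ J, MvPolynomial.C (t J) * ∏ k, X (I k, J k)

lemma xtR_eq {n : ℕ} (t : (Fin n → ι) → K) (I : Fin n → ι) : xtR t I = xt t I := rfl

lemma map_xtR (φ : R →+* R') {n : ℕ} (t : (Fin n → ι) → R) (I : Fin n → ι) :
    MvPolynomial.map φ (xtR t I) = xtR (fun J => φ (t J)) I := by
  rw [xtR, map_sum, xtR]
  refine Finset.sum_congr rfl fun J _ => ?_
  rw [map_mul, map_C, map_prod]
  simp only [map_X]

lemma mapAlg_xtR [Algebra K R] [Algebra K R'] (φ : R →ₐ[K] R') {n : ℕ} (t : (Fin n → ι) → R)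
    (I : Fin n → ι) : MvPolynomial.mapAlgHom φ (xtR t I) = xtR (fun J => φ (t J)) I := by
  have h := MvPolynomial.mapAlgHom_coe_ringHom (σ := ι × ι) φ
  have h1 := map_xtR (ι := ι) (φ : R →+* R') t I
  rw [← h] at h1
  exact h1

lemma xtR_zero {n : ℕ} (I : Fin n → ι) : xtR (0 : (Fin n → ι) → R) I = 0 := by
  rw [xtR]
  refine Finset.sum_eq_zero fun J _ => ?_
  rw [Pi.zero_apply, map_zero, zero_mul]

end XtR

/-- The left translation of the generic point. -/
noncomputable def Dl (K ι : Type) [Field K] [Fintype ι] [DecidableEq ι] :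
    MvPolynomial (ι × ι) K →ₐ[K] MvPolynomial (ι × ι) (FR K ι) :=
  ((rho (XF K ι)).restrictScalars K).comp (MvPolynomial.mapAlgHom (Algebra.ofId K (FR K ι)))

lemma Dl_xt {n : ℕ} (t : (Fin n → ι) → K) (I : Fin n → ι) :
    Dl K ι (xt t I) =
      xt (tpow (XF K ι) n (fun J => algebraMap K (FR K ι) (t J))) I := by
  have h1 : MvPolynomial.mapAlgHom (Algebra.ofId K (FR K ι)) (xt t I) =
      xt (fun J => algebraMap K (FR K ι) (t J)) I := by
    have h2 := mapAlg_xtR (ι := ι) (Algebra.ofId K (FR K ι)) t I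
    exact h2
  have h3 := rho_xt (XF K ι) (fun J => algebraMap K (FR K ι) (t J)) I
  rw [Dl, AlgHom.comp_apply, h1]
  exact h3

namespace CSys

variable {Q : Matrix ι ι K} {C : CSys Q} {M : ℕ}

/-- The inclusion of the polynomials with coefficients in the algebra. -/
noncomputable def jA (C : CSys Q) (M : ℕ) :
    MvPolynomial (ι × ι) (C.A1 M) →ₐ[K] MvPolynomial (ι × ι) (FR K ι) :=
  MvPolynomial.mapAlgHom (C.A1 M).val

lemma jA_inj : Function.Injective (jA C M) :=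
  MvPolynomial.map_injective ((C.A1 M).val : C.A1 M →+* FR K ι) Subtype.val_injective

lemma jA_xtR (hgen : C.GenBy M) {m : ℕ} {s : (Fin m → ι) → K} (hs : s ∈ C.S m) (I : Fin m → ι) :
    jA C M (xtR (lt hgen hs) I) = Dl K ι (xt s I) := by
  rw [Dl_xt, jA, mapAlg_xtR, ← xtR_eq]
  congr 1
  funext J
  exact lt_val hgen hs J

lemma Dl_mem (hgen : C.GenBy M) {f : MvPolynomial (ι × ι) K} (hf : f ∈ C.A0 M) :
    Dl K ι f ∈ (jA C M).range := by
  have h1 : C.A0 M ≤ (jA C M).range.comap (Dl K ι) := by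
    refine Algebra.adjoin_le ?_
    rintro _ ⟨m, hm, s, hs, I, rfl⟩
    exact ⟨_, jA_xtR hgen hs I⟩
  exact h1 hf

/-- **The comorphism of the orbit map of a point.** -/
lemma exists_psi (hgen : C.GenBy M) {L : Type} [Field L] [Algebra K L] (χ : C.A1 M →ₐ[K] L) :
    ∃ ψ : C.A0 M →ₐ[K] MvPolynomial (ι × ι) L, ∀ (f : C.A0 M)
      (g : MvPolynomial (ι × ι) (C.A1 M)), jA C M g = Dl K ι f →
        ψ f = MvPolynomial.mapAlgHom χ g := by
  let e := AlgEquiv.ofInjective (jA C M) jA_inj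
  let ψ0 : C.A0 M →ₐ[K] (jA C M).range :=
    ((Dl K ι).comp (C.A0 M).val).codRestrict (jA C M).range fun f => Dl_mem hgen f.2
  refine ⟨(MvPolynomial.mapAlgHom χ).comp ((e.symm : (jA C M).range →ₐ[K] _).comp ψ0), ?_⟩
  intro f g hg
  rw [AlgHom.comp_apply, AlgHom.comp_apply]
  congr 1
  have h1 : ψ0 f = e g := by
    apply Subtype.ext
    exact hg.symm
  rw [h1]
  exact e.symm_apply_apply g

lemma psi_xt (hgen : C.GenBy M) {L : Type} [Field L] [Algebra K L] (χ : C.A1 M →ₐ[K] L)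
    {ψ : C.A0 M →ₐ[K] MvPolynomial (ι × ι) L} (hψ : ∀ (f : C.A0 M)
      (g : MvPolynomial (ι × ι) (C.A1 M)), jA C M g = Dl K ι f →
        ψ f = MvPolynomial.mapAlgHom χ g) {m : ℕ} (hm : m ≤ M) {s : (Fin m → ι) → K}
    (hs : s ∈ C.S m) (I : Fin m → ι) :
    ψ ⟨xt s I, xt_mem_A0 hm hs I⟩ = xt (fun J => χ (lt hgen hs J)) I := by
  rw [hψ ⟨xt s I, xt_mem_A0 hm hs I⟩ (xtR (lt hgen hs) I) (jA_xtR hgen hs I), mapAlg_xtR]
  rfl

/-- The square of the determinant belongs to the algebra. -/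
lemma det_sq_mem (hQ : Q.det ≠ 0) (hM : 2 ≤ M) :
    (Matrix.mvPolynomialX ι ι K).det ^ 2 ∈ C.A0 M := by
  set N : Matrix ι ι (MvPolynomial (ι × ι) K) := Matrix.mvPolynomialX ι ι K *
    (Q⁻¹).map MvPolynomial.C * (Matrix.mvPolynomialX ι ι K).transpose with hN
  have h1 : ∀ i j, N i j ∈ C.A0 M := by
    intro i j
    have h2 := xt_mem_A0 (C := C) hM C.om ![i, j]
    have h3 : xt (fun w : Fin 2 → ι => Q⁻¹ (w 0) (w 1)) ![i, j] = N i j := by
      rw [xt, sum_fin_two, hN, Matrix.mul_apply, Finset.sum_comm]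
      refine Finset.sum_congr rfl fun d _ => ?_
      rw [Matrix.mul_apply, Finset.sum_mul]
      refine Finset.sum_congr rfl fun c _ => ?_
      rw [mon, Fin.prod_univ_two]
      simp only [Matrix.cons_val_zero, Matrix.cons_val_one, Matrix.transpose_apply,
        Matrix.map_apply, Matrix.mvPolynomialX_apply]
      ring
    rw [← h3]
    exact h2
  have h2 : N.det ∈ C.A0 M := by
    rw [Matrix.det_apply]
    refine Subalgebra.sum_mem _ fun σ _ => ?_
    rw [Units.smul_def, zsmul_eq_mul]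
    refine Subalgebra.mul_mem _ (Subalgebra.intCast_mem _ _) ?_
    exact Subalgebra.prod_mem _ fun i _ => h1 _ _
  have h3 : ((Q⁻¹).map (MvPolynomial.C : K →+* MvPolynomial (ι × ι) K)).det =
      MvPolynomial.C (Q.det⁻¹) := by
    have h4 := (MvPolynomial.C : K →+* MvPolynomial (ι × ι) K).map_det Q⁻¹
    rw [Matrix.det_nonsing_inv, Ring.inverse_eq_inv'] at h4
    exact h4.symm
  rw [hN, Matrix.det_mul, Matrix.det_mul, Matrix.det_transpose, h3] at h2
  have h4 := Subalgebra.mul_mem _ (Subalgebra.algebraMap_mem (C.A0 M) Q.det) h2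
  have h5 : algebraMap K (MvPolynomial (ι × ι) K) Q.det *
      ((Matrix.mvPolynomialX ι ι K).det * MvPolynomial.C Q.det⁻¹ *
        (Matrix.mvPolynomialX ι ι K).det) = (Matrix.mvPolynomialX ι ι K).det ^ 2 := by
    have h6 : algebraMap K (MvPolynomial (ι × ι) K) Q.det * MvPolynomial.C Q.det⁻¹ = 1 := by
      rw [MvPolynomial.algebraMap_eq, ← map_mul, mul_inv_cancel₀ hQ, map_one]
    calc _ = (algebraMap K (MvPolynomial (ι × ι) K) Q.det * MvPolynomial.C Q.det⁻¹) *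
        (Matrix.mvPolynomialX ι ι K).det ^ 2 := by ring
      _ = _ := by rw [h6, one_mul]
  rw [h5] at h4
  exact h4

/-- Clearing of denominators. -/
lemma exists_den (hQ : Q.det ≠ 0) (hM : 2 ≤ M) {a : FR K ι} (ha : a ∈ C.A1 M) :
    ∃ k, ∃ f ∈ C.A0 M, algebraMap (MvPolynomial (ι × ι) K) (FR K ι) f =
      algebraMap (MvPolynomial (ι × ι) K) (FR K ι)
        (((Matrix.mvPolynomialX ι ι K).det ^ 2) ^ k) * a := by
  set d := (Matrix.mvPolynomialX ι ι K).det ^ 2 with hd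
  have hdm : d ∈ C.A0 M := det_sq_mem hQ hM
  rw [A1] at ha
  induction ha using Algebra.adjoin_induction with
  | mem x hx =>
    rcases hx with ⟨f, hf, rfl⟩ | hx
    · exact ⟨0, f, Algebra.subset_adjoin hf, by rw [pow_zero, map_one, one_mul]⟩
    · rw [Set.mem_singleton_iff] at hx
      refine ⟨1, 1, Subalgebra.one_mem _, ?_⟩
      rw [hx, pow_one, map_one, hd, map_pow, ← XF_det, ← mul_pow,
        mul_inv_cancel₀ (XF_det_ne K ι), one_pow]
  | algebraMap r =>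
    refine ⟨0, algebraMap K _ r, Subalgebra.algebraMap_mem _ _, ?_⟩
    rw [pow_zero, map_one, one_mul, ← IsScalarTower.algebraMap_apply]
  | add x y _ _ hx hy =>
    obtain ⟨k, f, hf, h1⟩ := hx
    obtain ⟨l, g, hg, h2⟩ := hy
    refine ⟨k + l, d ^ l * f + d ^ k * g, Subalgebra.add_mem _
      (Subalgebra.mul_mem _ (Subalgebra.pow_mem _ hdm _) hf)
      (Subalgebra.mul_mem _ (Subalgebra.pow_mem _ hdm _) hg), ?_⟩
    rw [map_add, map_mul, map_mul, h1, h2, pow_add, map_mul]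
    ring
  | mul x y _ _ hx hy =>
    obtain ⟨k, f, hf, h1⟩ := hx
    obtain ⟨l, g, hg, h2⟩ := hy
    refine ⟨k + l, f * g, Subalgebra.mul_mem _ hf hg, ?_⟩
    rw [map_mul, h1, h2, pow_add, map_mul]
    ring

lemma exists_den' (hQ : Q.det ≠ 0) (hM : 2 ≤ M) {f : MvPolynomial (ι × ι) K}
    (hf : algebraMap (MvPolynomial (ι × ι) K) (FR K ι) f ∈ C.A1 M) :
    ∃ k, ((Matrix.mvPolynomialX ι ι K).det ^ 2) ^ k * f ∈ C.A0 M := by
  obtain ⟨k, g, hg, h⟩ := exists_den hQ hM hf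
  refine ⟨k, ?_⟩
  rw [← map_mul] at h
  rw [← IsFractionRing.injective (MvPolynomial (ι × ι) K) (FR K ι) h]
  exact hg

/-- **A point which annihilates a tensor has an orbit of smaller dimension.** -/
lemma trdeg_lt (hQ : Q.det ≠ 0) (hM : 2 ≤ M) (hgen : C.GenBy M) {L : Type} [Field L]
    [Algebra K L] (χ : C.A1 M →ₐ[K] L)
    {ψ : C.A0 M →ₐ[K] MvPolynomial (ι × ι) L} (hψ : ∀ (f : C.A0 M)
      (g : MvPolynomial (ι × ι) (C.A1 M)), jA C M g = Dl K ι f →
        ψ f = MvPolynomial.mapAlgHom χ g) {n : ℕ} {s : (Fin n → ι) → K} (hs : s ∈ C.S n)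
    (hs0 : s ≠ 0) (hχ : ∀ J, χ (lt hgen hs J) = 0)
    (hfin : Algebra.trdeg K (C.A0 M) < Cardinal.aleph0) :
    Algebra.trdeg K ψ.range < Algebra.trdeg K (C.A0 M) := by
  obtain ⟨I, hI⟩ := Function.ne_iff.1 hs0
  rw [Pi.zero_apply] at hI
  have h1 : xt s I ≠ 0 := by
    intro h
    apply hI
    rw [← evM_one_xt s I, h, map_zero]
  set d := (Matrix.mvPolynomialX ι ι K).det ^ 2 with hd
  have hdm : d ∈ C.A0 M := det_sq_mem hQ hM
  have hd0 : d ≠ 0 := pow_ne_zero _ (Matrix.det_mvPolynomialX_ne_zero ι K)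
  obtain ⟨k, hk⟩ := exists_den' hQ hM (hgen n s hs I)
  have hf0 : (⟨d ^ k * xt s I, hk⟩ : C.A0 M) ≠ 0 := by
    intro h
    have h' : d ^ k * xt s I = 0 := congrArg Subtype.val h
    exact mul_ne_zero (pow_ne_zero _ hd0) h1 h'
  refine trdeg_lt_of_surjective ψ.rangeRestrict ψ.rangeRestrict_surjective hf0 ?_ hfin
  apply Subtype.ext
  change ψ ⟨d ^ k * xt s I, hk⟩ = 0
  obtain ⟨g0, hg0⟩ := Dl_mem hgen (Subalgebra.pow_mem _ hdm k)
  have hg0' : jA C M g0 = Dl K ι (d ^ k) := hg0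
  have h2 : jA C M (g0 * xtR (lt hgen hs) I) = Dl K ι (d ^ k * xt s I) := by
    rw [map_mul, map_mul, hg0', jA_xtR hgen hs I]
  rw [hψ ⟨d ^ k * xt s I, hk⟩ _ h2, map_mul]
  have h3 : MvPolynomial.mapAlgHom (σ := ι × ι) χ (xtR (lt hgen hs) I) = 0 := by
    have h5 : (fun J => χ (lt hgen hs J)) = 0 := funext fun J => hχ J
    rw [mapAlg_xtR, h5, xtR_zero]
  rw [h3, mul_zero]

end CSys

end Pool.Agent.Q60.NP
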