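import Pool.Agent.Q60.NP.Gen4

/-!
# The orbit of a closed system of tensors is closed
-/

set_option linter.unusedSectionVars false

namespace Pool.Agent.Q60.NP

open MvPolynomial Module Matrix Pool.Agent.Q60.ED

section Dual

variable {L : Type} [Field L]

lemma exists_dual_family {V : Type} [AddCommGroup V] [Module L V] {r : ℕ}
    (φ : Fin r → Module.Dual L V) (h : LinearIndependent L φ) :
    ∃ v : Fin r → V, ∀ a j, φ j (v a) = (1 : Matrix (Fin r) (Fin r) L) a j := by
  let T : V →ₗ[L] (Fin r → L) := LinearMap.pi φ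
  have hT : LinearMap.range T = ⊤ := by
    by_contra hne
    obtain ⟨f, hf0, hf⟩ := Submodule.exists_le_ker_of_lt_top _ (lt_top_iff_ne_top.2 hne)
    apply hf0
    have h1 : ∀ x : Fin r → L, f x = ∑ j, f (Pi.single j 1) * x j := by
      intro x
      have h2 : x = ∑ j, x j • (Pi.single j 1 : Fin r → L) := by
        funext i
        rw [Finset.sum_apply, Finset.sum_eq_single i]
        · simp
        · intro j _ hj
          rw [Pi.smul_apply, Pi.single_eq_of_ne (Ne.symm hj), smul_zero]
        · intro h; exact absurd (Finset.mem_univ _) h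
      conv_lhs => rw [h2, map_sum]
      exact Finset.sum_congr rfl fun j _ => by rw [map_smul, smul_eq_mul, mul_comm]
    have h2 : ∑ j, f (Pi.single j 1) • φ j = 0 := by
      ext v
      have h3 : f (T v) = 0 := hf ⟨v, rfl⟩
      rw [h1] at h3
      rw [LinearMap.sum_apply, LinearMap.zero_apply, ← h3]
      rfl
    have h3 := Fintype.linearIndependent_iff.1 h _ h2
    ext x
    rw [LinearMap.comp_apply, h1]
    simp [h3]
  have hsur := LinearMap.range_eq_top.1 hT
  choose v hv using fun a : Fin r => hsur (Pi.single a 1)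
  refine ⟨v, fun a j => ?_⟩
  have h1 := congrFun (hv a) j
  rw [Matrix.one_apply]
  have h2 : T (v a) j = φ j (v a) := rfl
  rw [h2] at h1
  rw [h1, Pi.single_apply]
  by_cases h3 : j = a
  · rw [if_pos h3, if_pos h3.symm]
  · rw [if_neg h3, if_neg (Ne.symm h3)]

variable {ι : Type} [Fintype ι] [DecidableEq ι]

/-- The infinitesimal action as a functional. -/
noncomputable def aopL {n : ℕ} (t : (Fin n → ι) → L) (I : Fin n → ι) :
    Module.Dual L (Matrix ι ι L) where
  toFun A := aop A t I
  map_add' A B := by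
    simp only [aop_apply, Matrix.add_apply, add_mul, Finset.sum_add_distrib]
  map_smul' c A := by
    simp only [aop_apply, Matrix.smul_apply, smul_eq_mul, RingHom.id_apply, Finset.mul_sum,
      mul_assoc]

lemma aopL_apply {n : ℕ} (t : (Fin n → ι) → L) (I : Fin n → ι) (A : Matrix ι ι L) :
    aopL t I A = aop A t I := rfl

end Dual

variable {K : Type} [Field K] {ι : Type} [Fintype ι] [DecidableEq ι]

namespace CSys

variable {Q : Matrix ι ι K} {C : CSys Q} {M : ℕ}

/-- **Lower bound for the dimension of the orbit of a point.** -/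
theorem le_trdeg_range [CharZero K] (hQ : Q.det ≠ 0) (hgen : C.GenBy (M + 2))
    {e : Matrix (Fin 2 → ι) (Fin 2 → ι) K} (he : e * e = e)
    (hes : e ∈ Submodule.span K (C.gens M)) {r : ℕ} (hr : e.trace = r)
    {L : Type} [Field L] [Algebra K L] (χ : C.A1 (M + 2) →ₐ[K] L)
    {ψ : C.A0 (M + 2) →ₐ[K] MvPolynomial (ι × ι) L} (hψ : ∀ (f : C.A0 (M + 2))
      (g : MvPolynomial (ι × ι) (C.A1 (M + 2))), jA C (M + 2) g = Dl K ι f →
        ψ f = MvPolynomial.mapAlgHom χ g) :
    (r : Cardinal) ≤ Algebra.trdeg K ψ.range := by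
  classical
  have hL : CharZero L := charZero_of_injective_algebraMap (algebraMap K L).injective
  have hgd : (XF K ι).det ≠ 0 := XF_det_ne K ι
  obtain ⟨ΩA, QA, hΩA, hQA, h1, h2⟩ := exists_QA hgen hQ
  obtain ⟨EA, hEA, hker⟩ := exists_EA hgen hΩA hQA (χ : C.A1 (M + 2) →+* L) hes
  -- the idempotent
  have hEE : EA * EA = EA := by
    apply map_val_inj
    rw [Matrix.map_mul, hEA]
    have e1 : TP (XF K ι) 2 * e.map (algebraMap K (FR K ι)) * TP (XF K ι)⁻¹ 2 *
        (TP (XF K ι) 2 * e.map (algebraMap K (FR K ι)) * TP (XF K ι)⁻¹ 2) =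
        TP (XF K ι) 2 * (e.map (algebraMap K (FR K ι)) * (TP (XF K ι)⁻¹ 2 *
        TP (XF K ι) 2) * e.map (algebraMap K (FR K ι))) * TP (XF K ι)⁻¹ 2 := by
      simp only [Matrix.mul_assoc]
    rw [e1, (TP_det hgd 2).2, Matrix.mul_one, ← Matrix.map_mul, he]
  have htr : EA.trace = (r : C.A1 (M + 2)) := by
    apply Subtype.ext
    have e1 : ((EA.trace : C.A1 (M + 2)) : FR K ι) =
        (EA.map ((C.A1 (M + 2)).val : C.A1 (M + 2) →+* FR K ι)).trace := by
      rw [Matrix.trace, Matrix.trace]
      exact map_sum ((C.A1 (M + 2)).val : C.A1 (M + 2) →+* FR K ι) _ _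
    rw [e1, hEA, Matrix.trace_mul_comm, ← Matrix.mul_assoc, (TP_det hgd 2).2, Matrix.one_mul]
    have e2 : (e.map (algebraMap K (FR K ι))).trace = algebraMap K (FR K ι) e.trace := by
      rw [Matrix.trace, Matrix.trace, map_sum]
      rfl
    rw [e2, hr, map_natCast]
    rfl
  set E' := EA.map (χ : C.A1 (M + 2) →+* L) with hE'
  have hEE' : E' * E' = E' := by
    rw [hE', ← Matrix.map_mul, hEE]
  have htr' : E'.trace = (r : L) := by
    have e1 : E'.trace = (χ : C.A1 (M + 2) →+* L) EA.trace := by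
      rw [Matrix.trace, Matrix.trace, map_sum]
      rfl
    rw [e1, htr, map_natCast]
  have hrank := finrank_ker_of_idem hEE' htr'
  set Ω' := ΩA.map (χ : C.A1 (M + 2) →+* L) with hΩ'
  set Q' := QA.map (χ : C.A1 (M + 2) →+* L) with hQ'
  have h1' : Q' * Ω' = 1 := by
    rw [hQ', hΩ', ← Matrix.map_mul, h1]
    exact Matrix.map_one _ (map_zero _) (map_one _)
  have h2' : Ω' * Q' = 1 := mul_eq_one_comm.1 h1'
  -- the functionals
  let Φ : Set (Module.Dual L (Matrix ι ι L)) := {φ | ∃ m, ∃ _ : m ≤ M, ∃ (s : (Fin m → ι) → K)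
    (hs : s ∈ C.S m) (I : Fin m → ι), φ = aopL (fun J => χ (lt hgen hs J)) I}
  set H := (Submodule.span L Φ).dualCoannihilator with hH
  have hdim : finrank L H ≤ finrank L (LinearMap.ker (Matrix.toLin' E')) := by
    let T0 : Matrix ι ι L →ₗ[L] ((Fin 2 → ι) → L) :=
      { toFun := fun A => vec (A * Ω'.transpose)
        map_add' := fun A B => by
          rw [Matrix.add_mul]
          rfl
        map_smul' := fun c A => by
          rw [Matrix.smul_mul]
          rfl }
    have hT0 : ∀ A ∈ H, T0 A ∈ LinearMap.ker (Matrix.toLin' E') := by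
      intro A hA
      rw [LinearMap.mem_ker, Matrix.toLin'_apply]
      apply hker (A * Ω'.transpose)
      intro m hm s hs
      rw [bs_mulVec]
      have e1 : Ω' * (Q' * (A * Ω'.transpose) * Q'.transpose) = A := by
        rw [Matrix.mul_assoc Q', ← Matrix.mul_assoc Ω', h2', Matrix.one_mul, Matrix.mul_assoc,
          ← Matrix.transpose_mul, h1', Matrix.transpose_one, Matrix.mul_one]
      rw [e1]
      funext I
      rw [hH, Submodule.mem_dualCoannihilator] at hA
      exact hA _ (Submodule.subset_span ⟨m, hm, s, hs, I, rfl⟩)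
    let T : H →ₗ[L] LinearMap.ker (Matrix.toLin' E') := T0.restrict hT0
    apply LinearMap.finrank_le_finrank_of_injective (f := T)
    intro A B hAB
    apply Subtype.ext
    have e1 : vec ((A : Matrix ι ι L) * Ω'.transpose) = vec ((B : Matrix ι ι L) * Ω'.transpose) :=
      congrArg Subtype.val hAB
    have e2 := congrArg (fun N => N * Q'.transpose) (vec_inj e1)
    simp only [Matrix.mul_assoc, ← Matrix.transpose_mul, h1', Matrix.transpose_one,
      Matrix.mul_one] at e2
    exact e2
  have hsum := Subspace.finrank_add_finrank_dualCoannihilator_eq (Submodule.span L Φ)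
  rw [← hH, Module.finrank_matrix, Module.finrank_self, mul_one] at hsum
  rw [card_fun2, Fintype.card_prod] at hrank
  have hr2 : r ≤ finrank L (Submodule.span L Φ) := by omega
  obtain ⟨φ, hφ, -, hφi⟩ := Submodule.exists_fun_fin_finrank_span_eq L Φ
  let φ' : Fin r → Module.Dual L (Matrix ι ι L) := φ ∘ Fin.castLE hr2
  have hφ'i : LinearIndependent L φ' := hφi.comp _ (Fin.castLE_injective hr2)
  obtain ⟨v, hv⟩ := exists_dual_family φ' hφ'i
  have hφ' : ∀ j, φ' j ∈ Φ := fun j => hφ _
  choose m hm s hs I hI using hφ'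
  let f : Fin r → MvPolynomial (ι × ι) L := fun j => xt (fun J => χ (lt hgen (hs j) J)) (I j)
  have hf : AlgebraicIndependent L f := by
    refine algIndep_of_det (fun a => dA (v a)) f ?_
    intro h0
    have e1 := congrArg (evM (1 : Matrix ι ι L)) h0
    rw [map_zero] at e1
    have e2 : evM (1 : Matrix ι ι L) (Matrix.of fun a j => dA (v a) (f j)).det =
        ((Matrix.of fun a j => dA (v a) (f j)).map (evM (1 : Matrix ι ι L))).det := by
      have := ((evM (1 : Matrix ι ι L)) : MvPolynomial (ι × ι) L →+* L).map_det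
        (Matrix.of fun a j => dA (v a) (f j))
      exact this
    have e3 : (Matrix.of fun a j => dA (v a) (f j)).map (evM (1 : Matrix ι ι L)) = 1 := by
      ext a j
      rw [Matrix.map_apply, Matrix.of_apply]
      change evM (1 : Matrix ι ι L) (dA (v a) (xt _ (I j))) = _
      rw [dA_xt, evM_one_xt, ← hv, hI j]
      rfl
    rw [e2, e3, det_one] at e1
    exact one_ne_zero e1
  have hf' : AlgebraicIndependent K f := hf.restrictScalars (algebraMap K L).injective
  have hm' : ∀ j, m j ≤ M + 2 := fun j => (hm j).trans (Nat.le_add_right _ _)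
  let g : Fin r → ψ.range := fun j => ⟨f j, ⟨⟨xt (s j) (I j), xt_mem_A0 (hm' j) (hs j) (I j)⟩,
    psi_xt hgen χ hψ (hm' j) (hs j) (I j)⟩⟩
  have hg : AlgebraicIndependent K g := by
    apply AlgebraicIndependent.of_comp ψ.range.val
    exact hf'
  have := hg.cardinalMk_le_trdeg
  rw [Cardinal.mk_fin] at this
  exact this

/-- **The orbit of a closed system is closed**: no point of its closure annihilates a nonzero
tensor. -/
theorem exists_ne_zero [CharZero K] (hQ : Q.det ≠ 0) (hM : 2 ≤ M)
    (hnd : ∀ n ≤ M + 2, ∀ v ∈ C.S n, (∀ w ∈ C.S n, bf (TP Q n) v w = 0) → v = 0)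
    (hst : ∀ A : Matrix ι ι K, (∀ m ≤ M, ∀ s ∈ C.S m, aop A s = 0) →
      ∀ m ≤ M + 2, ∀ s ∈ C.S m, aop A s = 0)
    (hgen : C.GenBy (M + 2)) {L : Type} [Field L] [Algebra K L] (χ : C.A1 (M + 2) →ₐ[K] L)
    {n : ℕ} {s : (Fin n → ι) → K} (hs : s ∈ C.S n) (hs0 : s ≠ 0) :
    ∃ J, χ (lt hgen hs J) ≠ 0 := by
  by_contra hcon
  push Not at hcon
  obtain ⟨e, hes, he, hbs⟩ := exists_e hQ hM hnd
  obtain ⟨r, hr⟩ := exists_trace_idem he
  obtain ⟨ψ, hψ⟩ := exists_psi hgen χ
  have h1 := trdeg_A0_le hQ he hbs hst hr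
  have h2 := le_trdeg_range hQ hgen he hes hr χ hψ
  have h3 := trdeg_lt hQ (by omega) hgen χ hψ hs hs0 hcon
    (h1.trans_lt (Cardinal.natCast_lt_aleph0))
  exact absurd (h3.trans_le h1) (not_lt.2 h2)

end CSys

end Pool.Agent.Q60.NP
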