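import Pool.Agent.Q60.NP.Det

/-!
# Closed systems of tensors which are nondegenerate in low degrees
-/

set_option linter.unusedSectionVars false

namespace Pool.Agent.Q60.NP

open MvPolynomial Module Matrix Pool.Agent.Q60.ED

variable {K : Type} [Field K] {ι : Type} [Fintype ι] [DecidableEq ι]

section Functional

variable {N : ℕ} (v : (Fin N → ι) → K) (I0 : Fin N → ι)

/-- The value of the functional on a product of coordinates. -/
noncomputable def fval {n : ℕ} (q : Fin n → ι × ι) : K :=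
  ∑ σ : Fin N ≃ Fin n, if (fun k => (q (σ k)).1) = I0 then v (fun k => (q (σ k)).2) else 0

lemma fval_eq {n n' : ℕ} (q : Fin n → ι × ι) (q' : Fin n' → ι × ι)
    (h : ∑ k, Finsupp.single (q k) 1 = ∑ k, Finsupp.single (q' k) (1 : ℕ)) :
    fval v I0 q = fval v I0 q' := by
  obtain ⟨e, he⟩ := exists_equiv q q' h
  rw [fval, fval]
  refine Fintype.sum_equiv (Equiv.equivCongr (Equiv.refl (Fin N)) e) _ _ fun σ => ?_
  have h1 : ∀ k, q' ((Equiv.equivCongr (Equiv.refl (Fin N)) e) σ k) = q (σ k) := by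
    intro k
    rw [← he (σ k)]
    rfl
  simp only [h1]

/-- The functional. -/
noncomputable def flam : MvPolynomial (ι × ι) K →ₗ[K] K :=
  (basisMonomials (ι × ι) K).constr K fun m =>
    fval v I0 (exists_seq m).choose_spec.choose

lemma flam_mon {n : ℕ} (I J : Fin n → ι) :
    flam v I0 (mon I J) = ∑ σ : Fin N ≃ Fin n, if I ∘ σ = I0 then v (J ∘ σ) else 0 := by
  have h1 : flam v I0 (monomial (∑ k, Finsupp.single (I k, J k) 1) 1) =
      fval v I0 (exists_seq (∑ k, Finsupp.single (I k, J k) 1)).choose_spec.choose := by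
    have h2 := (basisMonomials (ι × ι) K).constr_basis K (fun m =>
      fval v I0 (exists_seq m).choose_spec.choose)
      (∑ k, Finsupp.single (I k, J k) 1)
    rw [coe_basisMonomials] at h2
    exact h2
  rw [TSys.mon_eq, h1, fval_eq v I0 _ (fun k => (I k, J k))
    (exists_seq _).choose_spec.choose_spec]
  rfl

lemma flam_xt {n : ℕ} (w : (Fin n → ι) → K) (I : Fin n → ι) :
    flam v I0 (xt w I) = ∑ σ : Fin N ≃ Fin n, if I ∘ σ = I0 then ∑ J, w J * v (J ∘ σ) else 0 := by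
  rw [xt, map_sum]
  have h1 : ∀ J, flam v I0 (MvPolynomial.C (w J) * mon I J) =
      ∑ σ : Fin N ≃ Fin n, if I ∘ σ = I0 then w J * v (J ∘ σ) else 0 := by
    intro J
    rw [← MvPolynomial.smul_eq_C_mul, map_smul, flam_mon, smul_eq_mul, Finset.mul_sum]
    refine Finset.sum_congr rfl fun σ _ => ?_
    rw [mul_ite, mul_zero]
  simp only [h1]
  rw [Finset.sum_comm]
  refine Finset.sum_congr rfl fun σ _ => ?_
  split_ifs
  · rfl
  · exact Finset.sum_const_zero

/-- The functional of an integral tensor is not zero on its polynomial. -/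
lemma flam_self [CharZero K] (hv : ∀ J, ∃ z : ℤ, v J = z) (h1 : v I0 = 1) :
    flam v I0 (xt v I0) ≠ 0 := by
  classical
  intro h0
  rw [flam_xt] at h0
  let H : Finset (Equiv.Perm (Fin N)) := Finset.univ.filter fun σ => I0 ∘ σ = I0
  have hH : ∀ {σ}, σ ∈ H ↔ I0 ∘ σ = I0 := by
    intro σ
    simp [H]
  rw [← Finset.sum_filter] at h0
  change ∑ σ ∈ H, ∑ J, v J * v (J ∘ σ) = 0 at h0
  let u : (Fin N → ι) → K := fun J => ∑ σ ∈ H, v (J ∘ σ)
  have hsq : ∑ J, u J * u J = 0 := by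
    have e1 : ∀ J, u J * u J = ∑ σ ∈ H, ∑ τ ∈ H, v (J ∘ σ) * v (J ∘ τ) := by
      intro J
      rw [Finset.sum_mul_sum]
    simp only [e1]
    rw [Finset.sum_comm]
    refine Finset.sum_eq_zero fun σ hσ => ?_
    rw [Finset.sum_comm]
    have e2 : ∀ τ : Equiv.Perm (Fin N), ∑ J, v (J ∘ σ) * v (J ∘ τ) =
        ∑ J, v J * v (J ∘ ((σ⁻¹ * τ : Equiv.Perm (Fin N)) : Fin N → Fin N)) := by
      intro τ
      rw [← (Equiv.arrowCongr σ (Equiv.refl ι)).sum_comp]
      refine Finset.sum_congr rfl fun J _ => ?_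
      have e3 : (Equiv.arrowCongr σ (Equiv.refl ι)) J = J ∘ σ.symm := rfl
      have e4 : (J ∘ σ.symm) ∘ σ = J := by funext x; simp
      rw [e3, e4]
      rfl
    simp only [e2]
    rw [← h0]
    refine Finset.sum_bij' (fun τ _ => σ⁻¹ * τ) (fun τ _ => σ * τ) ?_ ?_ ?_ ?_ ?_
    · intro τ hτ
      rw [hH] at hσ hτ ⊢
      have e5 : I0 ∘ (σ⁻¹ : Equiv.Perm (Fin N)) = I0 := by
        conv_lhs => rw [← hσ]
        funext x
        simp
      rw [Equiv.Perm.coe_mul, ← Function.comp_assoc, e5, hτ]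
    · intro τ hτ
      rw [hH] at hσ hτ ⊢
      rw [Equiv.Perm.coe_mul, ← Function.comp_assoc, hσ, hτ]
    · intro τ _
      exact mul_inv_cancel_left σ τ
    · intro τ _
      exact inv_mul_cancel_left σ τ
    · intro τ _
      rfl
  choose z hz using hv
  let y : (Fin N → ι) → ℤ := fun J => ∑ σ ∈ H, z (J ∘ σ)
  have hy : ∀ J, u J = (y J : K) := by
    intro J
    change ∑ σ ∈ H, v (J ∘ σ) = ((∑ σ ∈ H, z (J ∘ σ) : ℤ) : K)
    rw [Int.cast_sum]
    exact Finset.sum_congr rfl fun σ _ => hz _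
  simp only [hy] at hsq
  have h2 : ∑ J, y J * y J = 0 := by exact_mod_cast hsq
  rw [Finset.sum_eq_zero_iff_of_nonneg fun J _ => mul_self_nonneg _] at h2
  have h3 := mul_self_eq_zero.1 (h2 I0 (Finset.mem_univ _))
  have h4 : u I0 = 0 := by rw [hy, h3, Int.cast_zero]
  have h5 : u I0 = (H.card : K) := by
    change ∑ σ ∈ H, v (I0 ∘ σ) = _
    rw [Finset.sum_congr rfl fun σ hσ => by rw [hH.1 hσ, h1], Finset.sum_const, nsmul_eq_mul,
      mul_one]
  rw [h5, Nat.cast_eq_zero, Finset.card_eq_zero] at h4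
  have h6 : (1 : Equiv.Perm (Fin N)) ∈ H := hH.2 rfl
  rw [h4] at h6
  exact absurd h6 (Finset.notMem_empty _)

end Functional

namespace CSys

variable {Q : Matrix ι ι K} (C : CSys Q)

/-- The radical of the form on the tensors of the system. -/
noncomputable def rad (n : ℕ) : Submodule K ((Fin n → ι) → K) where
  carrier := {v | v ∈ C.S n ∧ ∀ w ∈ C.S n, bf (TP Q n) v w = 0}
  add_mem' {a b} ha hb := ⟨Submodule.add_mem _ ha.1 hb.1, fun w hw => by
    rw [bf_add_left, ha.2 w hw, hb.2 w hw, add_zero]⟩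
  zero_mem' := ⟨Submodule.zero_mem _, fun w _ => bf_zero_left _ w⟩
  smul_mem' c a ha := ⟨Submodule.smul_mem _ c ha.1, fun w hw => by
    rw [bf_smul_left, ha.2 w hw, mul_zero]⟩

variable {C}

lemma mem_rad {n : ℕ} {v : (Fin n → ι) → K} :
    v ∈ C.rad n ↔ v ∈ C.S n ∧ ∀ w ∈ C.S n, bf (TP Q n) v w = 0 := Iff.rfl

lemma rad_mul {m n : ℕ} {s : (Fin m → ι) → K} {t : (Fin n → ι) → K} (hs : s ∈ C.S m)
    (ht : t ∈ C.rad n) : tmul s t ∈ C.rad (m + n) := by
  refine ⟨C.mul hs ht.1, fun w hw => ?_⟩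
  rw [Pool.Agent.Q60.TD.bf_tmulK]
  exact ht.2 _ (C.contr hs hw)

lemma rad_perm {n : ℕ} (σ : Equiv.Perm (Fin n)) {t : (Fin n → ι) → K} (ht : t ∈ C.rad n) :
    (fun J => t (J ∘ σ)) ∈ C.rad n := by
  refine ⟨C.perm σ ht.1, fun w hw => ?_⟩
  rw [Pool.Agent.Q60.TD.bf_permK]
  exact ht.2 _ (C.perm σ.symm hw)

/-- The polynomials of the radical are annihilated by the functionals. -/
lemma flam_rad (hQ : Q.det ≠ 0) {N k : ℕ} {t : (Fin N → ι) → K} {I0 : Fin N → ι}
    (ht : t ∈ C.S N) (h : ∀ (R : Type) [CommRing R] [Algebra K R] (g : Matrix ι ι R)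
      (I : Fin N → ι), ∑ J, (∏ l, g (I l) (J l)) * algebraMap K R (t J) =
        (g.det ^ 2) ^ k * algebraMap K R (t I)) {n : ℕ} {w : (Fin n → ι) → K}
    (hw : w ∈ C.rad n) (I : Fin n → ι) : flam t I0 (xt w I) = 0 := by
  rw [flam_xt]
  refine Finset.sum_eq_zero fun σ _ => ?_
  split_ifs with hσ
  · have hn : N = n := by simpa using Fintype.card_congr σ
    subst hn
    have h1 : ∑ J, w J * t (J ∘ σ) = ∑ J, w (J ∘ σ.symm) * t J := by
      rw [← (Equiv.arrowCongr σ (Equiv.refl ι)).sum_comp]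
      refine Finset.sum_congr rfl fun J _ => ?_
      have e3 : (Equiv.arrowCongr σ (Equiv.refl ι)) J = J ∘ σ.symm := rfl
      have e4 : (J ∘ σ.symm) ∘ σ = J := by funext x; simp
      rw [e3, e4]
    have h2 := (rad_perm σ.symm hw).2 t ht
    rw [bf] at h2
    have h3 : ∀ I : Fin N → ι, ∑ J, w (I ∘ σ.symm) * TP Q N I J * t J =
        (Q.det ^ 2) ^ k * (w (I ∘ σ.symm) * t I) := by
      intro I
      have h4 := h K Q I
      simp only [Algebra.algebraMap_self, RingHom.id_apply] at h4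
      rw [mul_left_comm, ← h4, Finset.mul_sum]
      exact Finset.sum_congr rfl fun J _ => by rw [TP_apply, mul_assoc]
    simp only [h3] at h2
    rw [← Finset.mul_sum] at h2
    rw [h1]
    exact (mul_eq_zero.1 h2).resolve_left (pow_ne_zero _ (pow_ne_zero _ hQ))
  · rfl

lemma xt_mul_xt {m n : ℕ} (s : (Fin m → ι) → K) (t : (Fin n → ι) → K) (I : Fin m → ι)
    (J : Fin n → ι) : xt s I * xt t J = xt (tmul s t) (Fin.append I J) := by
  rw [xt, xt, xt, Finset.sum_mul_sum, ED.sum_append]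
  refine Finset.sum_congr rfl fun A _ => Finset.sum_congr rfl fun B _ => ?_
  rw [mon_append, ED.tmul]
  simp only [Fin.append_left, Fin.append_right, map_mul]
  ring

/-- The elements of the algebra are combinations of coordinates. -/
lemma A0_span {M : ℕ} {f : MvPolynomial (ι × ι) K} (hf : f ∈ C.A0 M) :
    f ∈ Submodule.span K {g | ∃ m, ∃ s ∈ C.S m, ∃ I, g = xt s I} := by
  rw [A0] at hf
  induction hf using Algebra.adjoin_induction with
  | mem x hx =>
    obtain ⟨m, _, s, hs, I, rfl⟩ := hx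
    exact Submodule.subset_span ⟨m, s, hs, I, rfl⟩
  | algebraMap r =>
    have h1 : (algebraMap K (MvPolynomial (ι × ι) K) r) =
        r • xt (fun _ => 1 : (Fin 0 → ι) → K) Fin.elim0 := by
      rw [xt, Fintype.sum_unique, mon, Finset.univ_eq_empty, Finset.prod_empty, map_one, mul_one,
        Algebra.algebraMap_eq_smul_one]
    rw [h1]
    exact Submodule.smul_mem _ r (Submodule.subset_span ⟨0, _, C.one, _, rfl⟩)
  | add x y _ _ hx hy => exact Submodule.add_mem _ hx hy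
  | mul x y _ _ hx hy =>
    have h1 := Submodule.mul_mem_mul hx hy
    rw [Submodule.span_mul_span] at h1
    refine Submodule.span_mono ?_ h1
    rintro _ ⟨_, ⟨m, s, hs, I, rfl⟩, _, ⟨n, t, ht, J, rfl⟩, rfl⟩
    exact ⟨m + n, tmul s t, C.mul hs ht, _, xt_mul_xt s t I J⟩

/-- The multiples of the polynomials of the radical. -/
lemma mul_rad_span {M n : ℕ} {f : MvPolynomial (ι × ι) K} (hf : f ∈ C.A0 M)
    {s : (Fin n → ι) → K} (hs : s ∈ C.rad n) (I : Fin n → ι) :
    f * xt s I ∈ Submodule.span K {g | ∃ m, ∃ w ∈ C.rad m, ∃ I, g = xt w I} := by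
  have h1 := Submodule.mul_mem_mul (A0_span hf)
    (Submodule.mem_span_singleton_self (R := K) (xt s I))
  rw [Submodule.span_mul_span] at h1
  refine Submodule.span_mono ?_ h1
  rintro _ ⟨_, ⟨m, t, ht, J, rfl⟩, _, rfl, rfl⟩
  exact ⟨m + n, tmul t s, rad_mul ht hs, _, xt_mul_xt t s J I⟩

/-- **Nondegeneracy in low degrees implies nondegeneracy.** -/
theorem nd_all [CharZero K] (hQ : Q.det ≠ 0) {M : ℕ} (hM : 2 ≤ M)
    (hnd : ∀ n ≤ M + 2, ∀ v ∈ C.S n, (∀ w ∈ C.S n, bf (TP Q n) v w = 0) → v = 0)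
    (hst : ∀ A : Matrix ι ι K, (∀ m ≤ M, ∀ s ∈ C.S m, aop A s = 0) →
      ∀ m ≤ M + 2, ∀ s ∈ C.S m, aop A s = 0)
    (hgen : C.GenBy (M + 2)) (n : ℕ) :
    ∀ v ∈ C.S n, (∀ w ∈ C.S n, bf (TP Q n) v w = 0) → v = 0 := by
  classical
  intro s hs hrad
  by_contra hs0
  have hsr : s ∈ C.rad n := ⟨hs, hrad⟩
  let I : Ideal (C.A1 (M + 2)) := Ideal.span (Set.range (lt hgen hs))
  have hI : I = ⊤ := by
    by_contra hne
    obtain ⟨m, hm, hIm⟩ := Ideal.exists_le_maximal I hne
    let _ : Field (C.A1 (M + 2) ⧸ m) := Ideal.Quotient.field m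
    obtain ⟨J, hJ⟩ := exists_ne_zero hQ hM hnd hst hgen (Ideal.Quotient.mkₐ K m) hs hs0
    apply hJ
    exact Ideal.Quotient.eq_zero_iff_mem.2 (hIm (Ideal.subset_span ⟨J, rfl⟩))
  have h1 : (1 : C.A1 (M + 2)) ∈ I := by rw [hI]; trivial
  rw [Ideal.mem_span_range_iff_exists_fun] at h1
  obtain ⟨a, ha⟩ := h1
  set d := (Matrix.mvPolynomialX ι ι K).det ^ 2 with hd
  have hdm : d ∈ C.A0 (M + 2) := det_sq_mem hQ (by omega)
  choose k f hf hfa using fun J => exists_den hQ (by omega : 2 ≤ M + 2) (a J).2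
  set kk := ∑ J, k J with hkk
  have hk : ∀ J, k J ≤ kk := fun J => Finset.single_le_sum (fun _ _ => Nat.zero_le _)
    (Finset.mem_univ J)
  have h2 : d ^ kk = ∑ J, d ^ (kk - k J) * f J * xt s J := by
    apply IsFractionRing.injective (MvPolynomial (ι × ι) K) (FR K ι)
    rw [map_sum]
    have e1 : ∀ J, algebraMap (MvPolynomial (ι × ι) K) (FR K ι) (d ^ (kk - k J) * f J * xt s J) =
        algebraMap (MvPolynomial (ι × ι) K) (FR K ι) (d ^ kk) *
          ((a J : FR K ι) * algebraMap (MvPolynomial (ι × ι) K) (FR K ι) (xt s J)) := by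
      intro J
      rw [map_mul, map_mul, hfa J]
      have e2 : d ^ kk = d ^ (kk - k J) * d ^ k J := by
        rw [← pow_add, Nat.sub_add_cancel (hk J)]
      rw [e2, map_mul]
      ring
    simp only [e1]
    rw [← Finset.mul_sum]
    have e3 : ∑ J, (a J : FR K ι) * algebraMap (MvPolynomial (ι × ι) K) (FR K ι) (xt s J) = 1 := by
      have e4 := congrArg (fun x : C.A1 (M + 2) => (x : FR K ι)) ha
      simp only [AddSubmonoidClass.coe_finsetSum, MulMemClass.coe_mul, OneMemClass.coe_one] at e4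
      exact e4
    rw [e3, mul_one]
  obtain ⟨N, t, I0, ht, ht1, htz, hdet⟩ := exists_vpow (C := C) hQ kk
  have h3 : d ^ kk = xt t I0 := by
    have e1 := hdet (MvPolynomial (ι × ι) K) (Matrix.mvPolynomialX ι ι K) I0
    rw [ht1, map_one, mul_one] at e1
    rw [hd, ← e1, xt]
    refine Finset.sum_congr rfl fun J _ => ?_
    rw [mul_comm]
    rfl
  have h4 : flam t I0 (d ^ kk) ≠ 0 := by
    rw [h3]
    exact flam_self t I0 htz ht1
  apply h4
  rw [h2, map_sum]
  refine Finset.sum_eq_zero fun J _ => ?_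
  have h5 : Submodule.span K {g | ∃ m, ∃ w ∈ C.rad m, ∃ I, g = xt w I} ≤
      LinearMap.ker (flam t I0) := by
    refine Submodule.span_le.2 ?_
    rintro _ ⟨m, w, hw, I, rfl⟩
    exact flam_rad hQ ht hdet hw I
  exact h5 (mul_rad_span (Subalgebra.mul_mem _ (Subalgebra.pow_mem _ hdm _) (hf J)) hsr J)

end CSys

end Pool.Agent.Q60.NP
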