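import Pool.Agent.Q60.NP.Kun
import Pool.Agent.Q60.NP.PAutDefs

/-!
# Automorphisms of the cohomology of the powers of a variety
-/

open CategoryTheory AlgebraicGeometry TensorProduct

set_option linter.unusedSectionVars false

universe u v w

namespace Pool.Agent.Q60.NP

open Module Matrix
open Pool.Agent.H914 Pool.Agent.H914.VarClass Pool.Agent.H914.VarClass.Obj
  Pool.Agent.H914.WeilCohomology
open Pool.Agent.Y133.Half Pool.Agent.Q60.ED Pool.Agent.Q60.TD
open Pool.Agent.Q60.HD (wd wd_zero wd_succ wd_map wd_prj)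

variable {k : Type u} [Field k] {𝒱 : VarClass k} {ops : CycleOps 𝒱}

section Construct

variable {W : WeilCohomology.{u, v} ops} {X Y Z : 𝒱.Obj}

/-- The automorphisms of the powers. -/
noncomputable def pseq (α : W.H X ≃ₐ[W.K] W.H X) (hα : Ev W α.toLinearMap) :
    ∀ n, {γ : W.H (pw X n) ≃ₐ[W.K] W.H (pw X n) // Ev W γ.toLinearMap}
  | 0 => ⟨α, hα⟩
  | n + 1 => ⟨(exists_prodAut (pseq α hα n).2 hα).choose,
      (exists_prodAut (pseq α hα n).2 hα).choose_spec.1⟩

lemma pseq_succ (α : W.H X ≃ₐ[W.K] W.H X) (hα : Ev W α.toLinearMap) (n : ℕ) (x : W.H (pw X n))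
    (y : W.H X) : (pseq α hα (n + 1)).1 (W.map (fst (pw X n) X) x * W.map (snd (pw X n) X) y) =
      W.map (fst (pw X n) X) ((pseq α hα n).1 x) * W.map (snd (pw X n) X) (α y) :=
  (exists_prodAut (pseq α hα n).2 hα).choose_spec.2 x y

/-- **Construction of automorphisms of the powers.** -/
theorem exists_powAut (α : W.H X ≃ₐ[W.K] W.H X) (hα : Ev W α.toLinearMap)
    (htr : ∀ x, W.tr X (α x) = W.tr X x) : ∃ A : PowAut W X, ∀ x, A.act 0 x = α x := by
  have hfst : ∀ n (x : W.H (pw X n)), (pseq α hα (n + 1)).1 (W.map (fst (pw X n) X) x) =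
      W.map (fst (pw X n) X) ((pseq α hα n).1 x) := by
    intro n x
    have h1 := pseq_succ α hα n x 1
    simp only [map_one, mul_one] at h1
    exact h1
  have hsnd : ∀ n (y : W.H X), (pseq α hα (n + 1)).1 (W.map (snd (pw X n) X) y) =
      W.map (snd (pw X n) X) (α y) := by
    intro n y
    have h1 := pseq_succ α hα n 1 y
    simp only [map_one, one_mul] at h1
    exact h1
  refine ⟨⟨fun n => (pseq α hα n).1, ?_, ?_⟩, fun x => rfl⟩
  · intro n
    change ∀ (i : Fin (n + 1)) (x : W.H X), (pseq α hα n).1 (W.map (prj X n i) x) =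
      W.map (prj X n i) (α x)
    induction n with
    | zero =>
      intro i x
      have h1 : ∀ z : W.H X, W.map (prj X 0 i) z = z := fun z => by
        rw [prj_zero]
        exact W.map_id X z
      rw [h1, h1]
      rfl
    | succ n ih =>
      intro i x
      induction i using Fin.lastCases with
      | last =>
        rw [prj_last]
        exact hsnd n x
      | cast i =>
        have h1 : ∀ z : W.H X, W.map (prj X (n + 1) i.castSucc) z =
            W.map (fst (pw X n) X) (W.map (prj X n i) z) := fun z => by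
          rw [prj_castSucc]
          exact W.map_comp _ _ z
        rw [h1, h1]
        refine (hfst n _).trans ?_
        rw [ih]
  · intro n
    induction n with
    | zero => exact htr
    | succ n ih =>
      intro c
      obtain ⟨L, hL⟩ : ∃ L : W.H ((pw X n).prod X) →ₗ[W.K] W.K, ∀ c,
          L c = W.tr (pw X (n + 1)) ((pseq α hα (n + 1)).1 c) :=
        ⟨(W.tr (pw X (n + 1))) ∘ₗ (pseq α hα (n + 1)).1.toLinearMap, fun c => rfl⟩
      refine (hL c).symm.trans ?_
      change L c = W.tr ((pw X n).prod X) c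
      refine W.kunneth_induction (X := pw X n) (Y := X)
        (p := fun c => L c = W.tr ((pw X n).prod X) c) ?_ ?_ c
      · intro a b ha hb
        rw [map_add, ha, hb, map_add]
      · intro i j x _ y _
        rw [hL, pseq_succ]
        refine (W.tr_prod (X := pw X n) (Y := X) _ _).trans ?_
        rw [ih, htr]
        exact (W.tr_prod (X := pw X n) (Y := X) _ _).symm

end Construct

variable {W : WeilCohomology.{u, 0} ops} {X Y Z : 𝒱.Obj} {ι : Type} [Fintype ι] [DecidableEq ι]
  (e : Basis ι W.K (W.H X)) {a : ι → ℕ}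

/-- The action on products of pull-backs of basis elements. -/
lemma alg_wd {g : Matrix ι ι W.K} {n : ℕ} (φ : W.H Z →ₐ[W.K] W.H Z) (f : Fin n → (Z ⟶ X))
    (hf : ∀ i j, φ (W.map (f i) (e j)) = ∑ l, g l j • W.map (f i) (e l)) (w : Fin n → ι) :
    φ (wd e f w) = ∑ J : Fin n → ι, (∏ i, g (J i) (w i)) • wd e f J := by
  induction n with
  | zero =>
    rw [wd_zero, map_one, Fintype.sum_unique, wd_zero, Finset.univ_eq_empty, Finset.prod_empty,
      one_smul]
  | succ n ih =>
    rw [wd_succ, map_mul, ih _ fun i => hf i.succ, hf 0,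
      Finset.sum_mul_sum, ← Fintype.sum_prod_type', ← (Fin.consEquiv fun _ => ι).sum_comp]
    refine Finset.sum_congr rfl fun p _ => ?_
    rw [smul_mul_smul_comm]
    have h1 : wd e f ((Fin.consEquiv fun _ => ι) p) =
        W.map (f 0) (e p.1) * wd e (fun i => f i.succ) p.2 := by
      rw [wd_succ]
      rfl
    rw [h1]
    congr 1
    rw [Fin.prod_univ_succ]
    rfl

lemma sum_wd_succ {g : Matrix ι ι W.K} {n : ℕ} (f : Fin (n + 1) → (Z ⟶ X))
    (J : Fin (n + 1) → ι) : ∑ w, (∏ k, g (w k) (J k)) • wd e f w =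
      (∑ l, g l (J 0) • W.map (f 0) (e l)) * ∑ w : Fin n → ι, (∏ k, g (w k) (J k.succ)) •
        wd e (fun i => f i.succ) w := by
  rw [Finset.sum_mul_sum, ← Fintype.sum_prod_type', ← (Fin.consEquiv fun _ => ι).sum_comp]
  refine Finset.sum_congr rfl fun p _ => ?_
  rw [smul_mul_smul_comm]
  have h1 : wd e f ((Fin.consEquiv fun _ => ι) p) =
      W.map (f 0) (e p.1) * wd e (fun i => f i.succ) p.2 := by
    rw [wd_succ]
    rfl
  rw [h1]
  congr 1
  rw [Fin.prod_univ_succ]
  rfl

lemma alg_cls {g : Matrix ι ι W.K} {n : ℕ} (φ : W.H Z →ₐ[W.K] W.H Z) (f : Fin n → (Z ⟶ X))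
    (hf : ∀ i j, φ (W.map (f i) (e j)) = ∑ l, g l j • W.map (f i) (e l))
    (t : (Fin n → ι) → W.K) : φ (clsK e f t) = clsK e f (tpow g n t) := by
  rw [clsK, map_sum]
  simp only [map_smul, alg_wd e φ f hf, Finset.smul_sum, smul_smul]
  rw [Finset.sum_comm, clsK]
  refine Finset.sum_congr rfl fun J _ => ?_
  rw [tpow_apply, Finset.sum_smul]
  exact Finset.sum_congr rfl fun w _ => by rw [mul_comm]

/-- The action of an automorphism of the powers on the tensors. -/
lemma act_tn (A : PowAut W X) {g : Matrix ι ι W.K} (hg : ∀ j, A.act 0 (e j) = ∑ l, g l j • e l)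
    (n : ℕ) (c : W.H (pw X n)) : tn e n (A.act n c) = tpow g (n + 1) (tn e n c) := by
  apply clsK_inj e n
  rw [clsK_tn]
  conv_lhs => rw [← clsK_tn e n c]
  refine alg_cls e (A.act n : W.H (pw X n) →ₐ[W.K] W.H (pw X n)) (prj X n) (fun i j => ?_) _
  refine (A.prj n i (e j)).trans ?_
  have h1 : A.act 0 (e j) = ∑ l, g l j • e l := hg j
  have h2 := congrArg (W.map (prj X n i)) h1
  refine h2.trans ?_
  rw [map_sum]
  exact Finset.sum_congr rfl fun l _ => map_smul _ _ _

lemma bf_tpowK {K : Type} [Field K] {Q g : Matrix ι ι K} (hg : g.transpose * Q * g = Q) (i : ℕ)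
    (v w : (Fin i → ι) → K) : bf (TP Q i) (tpow g i v) (tpow g i w) = bf (TP Q i) v w := by
  have h1 : (TP g i).transpose * TP Q i * TP g i = TP Q i := by
    rw [← TP_transpose, ← TP_mul, ← TP_mul, hg]
  rw [bf_eq, bf_eq, tpow_eq, tpow_eq]
  conv_rhs => rw [← h1]
  rw [← Matrix.mulVec_mulVec, ← Matrix.mulVec_mulVec, Matrix.dotProduct_mulVec v,
    Matrix.vecMul_transpose]

/-- The lowering of the tensor of a class of the system. -/
lemma exists_lower {S : Sys W} (he : ∀ j, e j ∈ PH W X (a j))
    (hpar : par (W.isInternal X) ∈ S.Op X X) (n : ℕ) {δ : W.H (pw X n)} (hδ : δ ∈ S.C (pw X n)) :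
    ∃ v ∈ crdK e S (n + 1), ∀ w, bf (TP (QW e) (n + 1)) v w =
      W.tr (pw X n) (δ * clsK e (prj X n) w) := by
  obtain ⟨Ψ, hΨ, hb⟩ := exists_psiK e he hpar (Q := QW e) (fun i j => rfl) n
  have hmap : ∀ c ∈ S.C (pw X n), Ψ c ∈ S.C (pw X n) := fun c hc =>
    Sys.Op.apply (T := S) (fun _ => le_rfl) hΨ hc
  let Φ : S.C (pw X n) →ₗ[W.K] S.C (pw X n) := Ψ.restrict hmap
  have hinj : Function.Injective Φ := by
    rw [← LinearMap.ker_eq_bot, eq_bot_iff]
    rintro ⟨c, hc⟩ h
    have h1 : Ψ c = 0 := congrArg Subtype.val (LinearMap.mem_ker.1 h)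
    have h2 : ∀ w, bf (TP (QW e) (n + 1)) (tn e n c) w = 0 := by
      intro w
      rw [bf_cls e hb, clsK_tn, h1, zero_mul, map_zero]
    have h4 : Matrix.vecMul (tn e n c) (TP (QW e) (n + 1)) = 0 := by
      funext J
      have h5 := h2 (Pi.single J 1)
      rw [bf] at h5
      rw [Matrix.vecMul, dotProduct, Pi.zero_apply, ← h5]
      refine Finset.sum_congr rfl fun I _ => ?_
      rw [Finset.sum_eq_single J]
      · rw [Pi.single_eq_same, mul_one]
      · intro J' _ hJ
        rw [Pi.single_eq_of_ne hJ, mul_zero]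
      · intro h; exact absurd (Finset.mem_univ _) h
    have h6 := congrArg (fun u => Matrix.vecMul u (TP (QW e)⁻¹ (n + 1))) h4
    simp only [Matrix.vecMul_vecMul, (TP_det (QW_det e S he) (n + 1)).1, Matrix.vecMul_one,
      Matrix.zero_vecMul] at h6
    have h7 := clsK_tn e n c
    rw [h6, clsK_zero] at h7
    exact (Submodule.mem_bot _).2 (Subtype.ext h7.symm)
  obtain ⟨⟨x, hx⟩, hxδ⟩ := (LinearMap.injective_iff_surjective.1 hinj) ⟨δ, hδ⟩
  have hxδ' : Ψ x = δ := congrArg Subtype.val hxδ
  refine ⟨tn e n x, (mem_crdK_succ (e := e)).2 (by rw [clsK_tn]; exact hx), fun w => ?_⟩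
  rw [bf_cls e hb, clsK_tn, hxδ']

/-- **A matrix which fixes the tensors of degree at most three of the system gives an automorphism
of the cohomology of the powers.** -/
theorem exists_auto {S : Sys W} (he : ∀ j, e j ∈ PH W X (a j))
    (hpar : par (W.isInternal X) ∈ S.Op X X) {g : Matrix ι ι W.K}
    (hg : ∀ m ≤ 3, ∀ s ∈ crdK e S m, tpow g m s = s) :
    ∃ A : PowAut W X, ∀ j, A.act 0 (e j) = ∑ l, g l j • e l := by
  classical
  set Q := QW e with hQ
  have hdet : Q.det ≠ 0 := QW_det e S he
  have hQu : IsUnit Q.det := isUnit_iff_ne_zero.2 hdet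
  -- the form
  have hmat : mat2 (fun w : Fin 2 → ι => Q⁻¹ (w 0) (w 1)) = Q⁻¹ := by
    ext i j
    rfl
  have h1 : g * Q⁻¹ * g.transpose = Q⁻¹ := by
    have h2 := hg 2 (by norm_num) _ (cs e he hpar).om
    have h3 := congrArg mat2 h2
    rw [tpow_two, hmat] at h3
    exact h3
  have h2 : g.transpose * Q * g = Q := by
    have h3 : g * (Q⁻¹ * g.transpose * Q) = 1 := by
      rw [← Matrix.mul_assoc, ← Matrix.mul_assoc, h1, Matrix.nonsing_inv_mul _ hQu]
    have h4 := mul_eq_one_comm.1 h3
    calc g.transpose * Q * g = Q * (Q⁻¹ * g.transpose * Q * g) := by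
          simp only [← Matrix.mul_assoc]
          rw [Matrix.mul_nonsing_inv _ hQu, Matrix.one_mul]
      _ = Q := by rw [h4, Matrix.mul_one]
  -- the parity
  set D : Matrix ι ι W.K := diagonal fun i => (-1 : W.K) ^ a i with hD
  have h3 : D * g = g * D := by
    have h4 := hg 2 (by norm_num) _ (chiK_mem (S := S) e he hpar (1 : Fin 2) _ (cs e he hpar).om)
    have h5 : mat2 (chiK W.K a (1 : Fin 2) * fun w : Fin 2 → ι => Q⁻¹ (w 0) (w 1)) = Q⁻¹ * D := by
      ext i j
      rw [Matrix.mul_diagonal, mul_comm]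
      rfl
    have h6 := congrArg mat2 h4
    rw [tpow_two, h5] at h6
    have h7 : g * Q⁻¹ = Q⁻¹ * (g.transpose)⁻¹ := by
      have h8 : IsUnit g.transpose.det := by
        have h9 := congrArg Matrix.det h2
        rw [det_mul, det_mul] at h9
        refine isUnit_iff_ne_zero.2 fun h0 => ?_
        rw [h0, zero_mul, zero_mul] at h9
        exact hdet h9.symm
      calc g * Q⁻¹ = g * Q⁻¹ * (g.transpose * (g.transpose)⁻¹) := by
            rw [Matrix.mul_nonsing_inv _ h8, Matrix.mul_one]
        _ = g * Q⁻¹ * g.transpose * (g.transpose)⁻¹ := by simp only [Matrix.mul_assoc]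
        _ = _ := by rw [h1]
    have h8 : IsUnit g.transpose.det := by
      have h9 := congrArg Matrix.det h2
      rw [det_mul, det_mul] at h9
      refine isUnit_iff_ne_zero.2 fun h0 => ?_
      rw [h0, zero_mul, zero_mul] at h9
      exact hdet h9.symm
    have h10 : D * g.transpose = g.transpose * D := by
      have h11 : Q⁻¹ * ((g.transpose)⁻¹ * D * g.transpose) = Q⁻¹ * D := by
        rw [← h6]
        simp only [← Matrix.mul_assoc]
        rw [h7]
      have h12 := congrArg (fun M => Q * M) h11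
      simp only [← Matrix.mul_assoc, Matrix.mul_nonsing_inv _ hQu, Matrix.one_mul] at h12
      have h13 := congrArg (fun M => g.transpose * M) h12
      simp only [← Matrix.mul_assoc, Matrix.mul_nonsing_inv _ h8, Matrix.one_mul] at h13
      exact h13
    have h14 := congrArg Matrix.transpose h10
    rw [Matrix.transpose_mul, Matrix.transpose_mul, Matrix.transpose_transpose, hD,
      diagonal_transpose] at h14
    exact h14.symm
  -- the linear map
  set α : W.H X →ₗ[W.K] W.H X := Matrix.toLin e e g with hα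
  have hαe : ∀ j, α (e j) = ∑ l, g l j • e l := fun j => Matrix.toLin_self e e g j
  have htr2 : ∀ x y, W.tr X (α x * α y) = W.tr X (x * y) := by
    intro x y
    let B1 : W.H X →ₗ[W.K] W.H X →ₗ[W.K] W.K :=
      LinearMap.mk₂ W.K (fun x y => W.tr X (α x * α y)) (fun x x' y => by simp [add_mul])
        (fun c x y => by simp) (fun x y y' => by simp [mul_add]) (fun c x y => by simp)
    let B2 : W.H X →ₗ[W.K] W.H X →ₗ[W.K] W.K :=
      LinearMap.mk₂ W.K (fun x y => W.tr X (x * y)) (fun x x' y => by simp [add_mul])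
        (fun c x y => by simp) (fun x y y' => by simp [mul_add]) (fun c x y => by simp)
    have h4 : B1 = B2 := by
      refine e.ext fun i => e.ext fun j => ?_
      change W.tr X (α (e i) * α (e j)) = W.tr X (e i * e j)
      have h5 := congrFun (congrFun h2 i) j
      rw [hαe, hαe, Finset.sum_mul_sum, map_sum, ← QW_apply e i j, ← hQ, ← h5, Matrix.mul_apply]
      simp only [Matrix.mul_apply, Finset.sum_mul, map_sum, smul_mul_smul_comm, map_smul,
        smul_eq_mul, Matrix.transpose_apply]
      rw [Finset.sum_comm]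
      refine Finset.sum_congr rfl fun l _ => Finset.sum_congr rfl fun m _ => ?_
      rw [← QW_apply e m l, ← hQ]
      ring
    exact LinearMap.congr_fun (LinearMap.congr_fun h4 x) y
  have hinj : Function.Injective α := by
    rw [← LinearMap.ker_eq_bot, eq_bot_iff]
    intro x hx
    have h4 : α x = 0 := LinearMap.mem_ker.1 hx
    refine (Submodule.mem_bot _).2 (W.nondeg x fun y => ?_)
    rw [← htr2, h4, zero_mul, map_zero]
  have hsurj : Function.Surjective α := LinearMap.injective_iff_surjective.1 hinj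
  have hone : α 1 = 1 := by
    have h4 : (fun J : Fin 1 → ι => e.repr 1 (J 0)) ∈ crdK e S 1 := by
      intro Z f
      have h5 : clsK e f (fun J : Fin 1 → ι => e.repr 1 (J 0)) = 1 := by
        rw [clsK, ← (Equiv.funUnique (Fin 1) ι).symm.sum_comp]
        have h6 : ∀ j : ι, wd e f ((Equiv.funUnique (Fin 1) ι).symm j) = W.map (f 0) (e j) := by
          intro j
          rw [wd_succ, wd_zero, mul_one]
          rfl
        simp only [h6]
        have h7 := congrArg (W.map (f 0)) (e.sum_repr (1 : W.H X))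
        rw [map_sum, map_one (W.map (f 0))] at h7
        rw [← h7]
        exact Finset.sum_congr rfl fun j _ => (map_smul _ _ _).symm
      rw [h5]
      exact S.one Z
    have h5 := hg 1 (by norm_num) _ h4
    have h6 : ∀ l, ∑ j, g l j * e.repr 1 j = e.repr 1 l := by
      intro l
      have h7 := congrFun h5 (fun _ => l)
      rw [tpow_apply, ← (Equiv.funUnique (Fin 1) ι).symm.sum_comp] at h7
      rw [← h7]
      refine Finset.sum_congr rfl fun j _ => ?_
      rw [Fin.prod_univ_one]
      rfl
    conv_lhs => rw [← e.sum_repr 1]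
    rw [map_sum]
    simp only [map_smul, hαe, Finset.smul_sum, smul_smul]
    rw [Finset.sum_comm]
    conv_rhs => rw [← e.sum_repr 1]
    refine Finset.sum_congr rfl fun l _ => ?_
    rw [← Finset.sum_smul]
    congr 1
    rw [← h6 l]
    exact Finset.sum_congr rfl fun j _ => mul_comm _ _
  have htr : ∀ x, W.tr X (α x) = W.tr X x := by
    intro x
    have h4 := htr2 1 x
    rwa [hone, one_mul, one_mul] at h4
  -- the products of three classes
  have htr3 : ∀ x y z, W.tr X (α x * (α y * α z)) = W.tr X (x * (y * z)) := by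
    set d : X ⟶ pw X 2 := liftN X 2 fun _ => 𝟙 X with hd
    obtain ⟨v, hv, hvb⟩ := exists_lower e he hpar 2 (S.push d (S.one X))
    have h4 : ∀ t : (Fin 3 → ι) → W.K, W.tr (pw X 2) (W.push d 1 * clsK e (prj X 2) t) =
        W.tr X (clsK e (fun _ : Fin 3 => 𝟙 X) t) := by
      intro t
      rw [W.tr_push, one_mul, clsK_map]
      congr 2
      funext i
      exact liftN_prj 2 _ i
    have h5 : ∀ t : (Fin 3 → ι) → W.K, W.tr X (clsK e (fun _ : Fin 3 => 𝟙 X) (tpow g 3 t)) =
        W.tr X (clsK e (fun _ : Fin 3 => 𝟙 X) t) := by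
      intro t
      rw [← h4, ← h4, ← hvb, ← hvb]
      conv_lhs => rw [← hg 3 le_rfl v hv]
      exact bf_tpowK h2 3 v t
    have h6 : ∀ J : Fin 3 → ι, clsK e (fun _ : Fin 3 => 𝟙 X) (Pi.single J 1) =
        e (J 0) * (e (J 1) * e (J 2)) := by
      intro J
      rw [clsK, Finset.sum_eq_single J]
      · rw [Pi.single_eq_same, one_smul, wd_succ, wd_succ, wd_succ, wd_zero, mul_one,
          W.map_id, W.map_id, W.map_id]
        rfl
      · intro J' _ hJ
        rw [Pi.single_eq_of_ne hJ, zero_smul]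
      · intro h; exact absurd (Finset.mem_univ _) h
    have h7 : ∀ J : Fin 3 → ι, clsK e (fun _ : Fin 3 => 𝟙 X) (tpow g 3 (Pi.single J 1)) =
        α (e (J 0)) * (α (e (J 1)) * α (e (J 2))) := by
      intro J
      have h8 : ∀ w, tpow g 3 (Pi.single J (1 : W.K)) w = ∏ k, g (w k) (J k) := by
        intro w
        rw [tpow_apply, Finset.sum_eq_single J]
        · rw [Pi.single_eq_same, mul_one]
        · intro J' _ hJ
          rw [Pi.single_eq_of_ne hJ, mul_zero]
        · intro h; exact absurd (Finset.mem_univ _) h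
      rw [clsK]
      simp only [h8]
      rw [sum_wd_succ, sum_wd_succ, sum_wd_succ]
      simp only [W.map_id, ← hαe, Fintype.sum_unique, wd_zero, Finset.univ_eq_empty,
        Finset.prod_empty, one_smul, mul_one]
      rfl
    have h8 : ∀ i j l, W.tr X (α (e i) * (α (e j) * α (e l))) =
        W.tr X (e i * (e j * e l)) := by
      intro i j l
      have h9 := h5 (Pi.single ![i, j, l] 1)
      rw [h6, h7] at h9
      exact h9
    intro x y z
    rw [← e.sum_repr x, ← e.sum_repr y, ← e.sum_repr z]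
    simp only [map_sum, map_smul, Finset.sum_mul, Finset.mul_sum, smul_mul_assoc, mul_smul_comm,
      h8]
  have hmul : ∀ x y, α (x * y) = α x * α y := by
    intro x y
    rw [← sub_eq_zero]
    apply W.nondeg
    intro z
    obtain ⟨z, rfl⟩ := hsurj z
    rw [sub_mul, map_sub, htr2, mul_assoc, mul_assoc, htr3, sub_self]
  let β : W.H X →ₐ[W.K] W.H X := AlgHom.ofLinearMap α hone hmul
  have hβ : Function.Bijective β := ⟨hinj, hsurj⟩
  refine (exists_powAut (AlgEquiv.ofBijective β hβ) ?_ htr).imp fun A hA j => ?_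
  · intro b x hx
    change α x ∈ _
    have h4 : par (W.isInternal X) ∘ₗ α = α ∘ₗ par (W.isInternal X) := by
      apply e.ext
      intro j
      rw [LinearMap.comp_apply, LinearMap.comp_apply, PH.par (he j), map_smul, hαe, map_sum,
        Finset.smul_sum]
      refine Finset.sum_congr rfl fun l _ => ?_
      rw [map_smul, PH.par (he l), smul_smul, smul_smul]
      congr 1
      have h5 := congrFun (congrFun h3 l) j
      rw [hD, Matrix.mul_diagonal, Matrix.diagonal_mul] at h5
      rw [mul_comm (g l j), h5, mul_comm]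
    apply mem_PH_of_par
    have h5 := LinearMap.congr_fun h4 x
    rw [LinearMap.comp_apply, LinearMap.comp_apply, PH.par hx, map_smul] at h5
    exact h5
  · exact (hA (e j)).trans (hαe j)

end Pool.Agent.Q60.NP
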